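import Mathlib

namespace Pool.Agent.Lib.MP_96bc49_an

open Filter Topology Asymptotics

/-- The symmetrization map `π_n : ℂⁿ → ℂⁿ`, whose `k`-th coordinate (`k = 0, …, n - 1`) is the
elementary symmetric polynomial of degree `k + 1` in the coordinates of `l`. -/
noncomputable def symmMap (n : ℕ) (l : Fin n → ℂ) : EuclideanSpace ℂ (Fin n) :=
  WithLp.toLp 2 (fun k : Fin n => ∑ t ∈ Finset.powersetCard (k.1 + 1) Finset.univ, ∏ i ∈ t, l i)

/-- The symmetrized polydisc `𝔾_n = π_n(𝔻ⁿ)`. -/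
def symmPolydisc (n : ℕ) : Set (EuclideanSpace ℂ (Fin n)) :=
  symmMap n '' {l | ∀ i, ‖l i‖ < 1}

/-- The Burns–Krantz condition for a self-map `F` of `D` at `p`:
`F z = z + o(‖z - p‖ ^ 3)` as `z → p` inside `D`. -/
def BurnsKrantzCondition {E : Type*} [NormedAddCommGroup E] (D : Set E) (F : E → E) (p : E) :
    Prop :=
  (fun z => F z - z) =o[𝓝[D] p] (fun z => ‖z - p‖ ^ 3)

/-- The Burns–Krantz rigidity property of the pair `(D, p)`: every holomorphic `F : D → D`
satisfying the Burns–Krantz condition at `p` is the identity of `D`. -/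
def BurnsKrantzRigid {E : Type*} [NormedAddCommGroup E] [NormedSpace ℂ E] (D : Set E) (p : E) :
    Prop :=
  ∀ F : E → E, DifferentiableOn ℂ F D → Set.MapsTo F D D → BurnsKrantzCondition D F p →
    ∀ z ∈ D, F z = z

end Pool.Agent.Lib.MP_96bc49_an
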