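import Mathlib
import Pool.Agent.Lib.MP_96bc49_an.Defs

section

namespace Pool.Agent.Lib.MP_96bc49_an

open Set Filter Topology Metric Asymptotics

variable {E : Type*} [NormedAddCommGroup E] [NormedSpace ℂ E]

/-- Inductive step for the Cartan uniqueness theorem. -/
theorem cartan_step {D : Set E} {F : E → E} (hF : DifferentiableOn ℂ F D)
    (hmaps : MapsTo F D D) {z₀ : E} (hfix : F z₀ = z₀) {r C : ℝ} (hr : 0 < r)
    (hball : ball z₀ r ⊆ D) (hC : ∀ k : ℕ, ∀ z ∈ ball z₀ r, ‖F^[k] z - z‖ ≤ C) {m : ℕ} (hm : 2 ≤ m)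
    (hP : ∀ z ∈ ball z₀ r, ‖F z - z‖ ≤ C * (‖z - z₀‖ / r) ^ m) :
    ∀ z ∈ ball z₀ r, ‖F z - z‖ ≤ C * (‖z - z₀‖ / r) ^ (m + 1) := by
  have hC0 : 0 ≤ C := (norm_nonneg _).trans (hC 0 z₀ (mem_ball_self hr))
  set W : E → E := fun z => F z - z with hW
  have hWd : DifferentiableOn ℂ W (ball z₀ r) := (hF.mono hball).sub differentiableOn_id
  have hiter : ∀ k : ℕ, DifferentiableOn ℂ (F^[k]) D := by
    intro k
    exact hF.iterate hmaps k
  have hWk : ∀ k : ℕ, DifferentiableOn ℂ (fun z => F^[k] z - z) (ball z₀ r) := by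
    intro k
    exact ((hiter k).mono hball).sub differentiableOn_id
  have hfixk : ∀ k : ℕ, F^[k] z₀ = z₀ := fun k => Function.iterate_fixed hfix k
  have hWO : W =O[𝓝 z₀] (fun z => ‖z - z₀‖ ^ m) := by
    apply IsBigO.of_bound (C / r ^ m)
    filter_upwards [ball_mem_nhds z₀ hr] with z hz
    have h1 := hP z hz
    rw [div_pow] at h1
    rw [norm_pow, norm_norm]
    calc ‖W z‖ ≤ C * (‖z - z₀‖ ^ m / r ^ m) := h1
      _ = _ := by ring
  -- asymptotics of the iterates
  have hit : ∀ k : ℕ, (fun z => F^[k] z - z - (k : ℂ) • W z) =o[𝓝 z₀] (fun z => ‖z - z₀‖ ^ m) := by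
    intro k
    induction k with
    | zero =>
      simp
    | succ k ih =>
      have h1 : (fun z => F^[k + 1] z - z - ((k + 1 : ℕ) : ℂ) • W z) =
          (fun z => (W (F^[k] z) - W z) + (F^[k] z - z - (k : ℂ) • W z)) := by
        funext z
        rw [Function.iterate_succ_apply']
        simp only [hW]
        push_cast
        rw [add_smul, one_smul]
        abel
      rw [h1]
      apply IsLittleO.add _ ih
      have hWkO : (fun z => F^[k] z - z) =O[𝓝 z₀] (fun z => ‖z - z₀‖ ^ m) := by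
        have h2 : (fun z => F^[k] z - z) = (fun z => (F^[k] z - z - (k : ℂ) • W z) + (k : ℂ) • W z) := by
          funext z; abel
        rw [h2]
        exact ih.isBigO.add (hWO.const_smul_left _)
      obtain ⟨c₁, hc₁pos, hc₁⟩ := hWkO.exists_pos
      rw [isBigOWith_iff] at hc₁
      -- the difference
      have hkey : ∀ᶠ z in 𝓝 z₀, ‖W (F^[k] z) - W z‖ ≤
          (2 * (C * (2 / r) ^ m) * c₁) * (‖z - z₀‖ ^ (m - 1) * ‖z - z₀‖ ^ m) := by
        have hev1 : ∀ᶠ z in 𝓝 z₀, ‖z - z₀‖ < r / 2 := by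
          have : Tendsto (fun z => ‖z - z₀‖) (𝓝 z₀) (𝓝 ‖z₀ - z₀‖) :=
            Continuous.tendsto (by fun_prop) _
          rw [sub_self, norm_zero] at this
          exact this.eventually (gt_mem_nhds (by linarith))
        have hev2 : ∀ᶠ z in 𝓝 z₀, c₁ * ‖z - z₀‖ ^ (m - 1) < 1 := by
          have : Tendsto (fun z => c₁ * ‖z - z₀‖ ^ (m - 1)) (𝓝 z₀) (𝓝 (c₁ * ‖z₀ - z₀‖ ^ (m - 1))) :=
            Continuous.tendsto (by fun_prop) _
          rw [sub_self, norm_zero, zero_pow (by omega), mul_zero] at this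
          exact this.eventually (gt_mem_nhds one_pos)
        filter_upwards [hc₁, hev1, hev2] with z hz1 hz2 hz3
        rw [norm_pow, norm_norm] at hz1
        set ρ := ‖z - z₀‖ with hρ
        rcases (norm_nonneg (z - z₀)).eq_or_lt with h0 | hρpos
        · have hz : z = z₀ := by
            rw [eq_comm, norm_eq_zero, sub_eq_zero] at h0
            exact h0
          rw [hz, hfixk, sub_self, norm_zero]
          positivity
        · rw [← hρ] at hρpos
          -- W on ball z ρ
          have hsub : ball z ρ ⊆ ball z₀ r := by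
            intro w hw
            rw [mem_ball, dist_eq_norm] at hw ⊢
            calc ‖w - z₀‖ = ‖(w - z) + (z - z₀)‖ := by congr 1; abel
              _ ≤ ‖w - z‖ + ‖z - z₀‖ := norm_add_le _ _
              _ < r := by linarith
          have hSbound : ∀ w ∈ ball z ρ, ‖W w‖ ≤ C * (2 / r) ^ m * ρ ^ m := by
            intro w hw
            have h3 := hP w (hsub hw)
            rw [mem_ball, dist_eq_norm] at hw
            have h4 : ‖w - z₀‖ ≤ 2 * ρ := by
              calc ‖w - z₀‖ = ‖(w - z) + (z - z₀)‖ := by congr 1; abel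
                _ ≤ ‖w - z‖ + ‖z - z₀‖ := norm_add_le _ _
                _ ≤ 2 * ρ := by linarith
            calc ‖W w‖ ≤ C * (‖w - z₀‖ / r) ^ m := h3
              _ ≤ C * (2 * ρ / r) ^ m := by gcongr
              _ = C * (2 / r) ^ m * ρ ^ m := by rw [mul_assoc, ← mul_pow]; ring
          have hm' : F^[k] z ∈ ball z ρ := by
            rw [mem_ball, dist_eq_norm]
            have h5 : ρ ^ m = ρ ^ (m - 1) * ρ := by
              rw [← pow_succ]; congr 1; omega
            calc ‖F^[k] z - z‖ ≤ c₁ * ρ ^ m := hz1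
              _ = (c₁ * ρ ^ (m - 1)) * ρ := by rw [h5]; ring
              _ < 1 * ρ := by gcongr
              _ = ρ := one_mul _
          have hmaps' : MapsTo W (ball z ρ) (closedBall (W z) (2 * (C * (2 / r) ^ m * ρ ^ m))) := by
            intro w hw
            rw [mem_closedBall, dist_eq_norm]
            calc ‖W w - W z‖ ≤ ‖W w‖ + ‖W z‖ := norm_sub_le _ _
              _ ≤ _ := by
                have h6 := hSbound w hw
                have h7 := hSbound z (mem_ball_self hρpos)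
                linarith
          have h8 := Complex.dist_le_div_mul_dist_of_mapsTo_ball (hWd.mono hsub) hmaps' hm'
          rw [dist_eq_norm, dist_eq_norm] at h8
          calc ‖W (F^[k] z) - W z‖ ≤ 2 * (C * (2 / r) ^ m * ρ ^ m) / ρ * ‖F^[k] z - z‖ := h8
            _ ≤ 2 * (C * (2 / r) ^ m * ρ ^ m) / ρ * (c₁ * ρ ^ m) := by gcongr
            _ = _ := by
              have h5 : ρ ^ m = ρ ^ (m - 1) * ρ := by
                rw [← pow_succ]; congr 1; omega
              have h9 : ρ ^ m / ρ = ρ ^ (m - 1) := by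
                rw [h5]; field_simp
              calc 2 * (C * (2 / r) ^ m * ρ ^ m) / ρ * (c₁ * ρ ^ m)
                  = 2 * (C * (2 / r) ^ m) * c₁ * ((ρ ^ m / ρ) * ρ ^ m) := by ring
                _ = _ := by rw [h9]
      have h10 : (fun z => W (F^[k] z) - W z) =O[𝓝 z₀]
          (fun z => ‖z - z₀‖ ^ (m - 1) * ‖z - z₀‖ ^ m) := by
        apply IsBigO.of_bound (2 * (C * (2 / r) ^ m) * c₁)
        filter_upwards [hkey] with z hz
        rw [norm_mul, norm_pow, norm_pow, norm_norm]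
        exact hz
      apply h10.trans_isLittleO
      have h11 : (fun z => ‖z - z₀‖ ^ (m - 1)) =o[𝓝 z₀] (fun _ => (1 : ℝ)) := by
        rw [isLittleO_one_iff]
        have : Tendsto (fun z => ‖z - z₀‖ ^ (m - 1)) (𝓝 z₀) (𝓝 (‖z₀ - z₀‖ ^ (m - 1))) :=
          Continuous.tendsto (by fun_prop) _
        rw [sub_self, norm_zero, zero_pow (by omega)] at this
        exact this
      have h12 := h11.mul_isBigO (isBigO_refl (fun z => ‖z - z₀‖ ^ m) (𝓝 z₀))
      simpa using h12
  -- bound for each k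
  have hbk : ∀ k : ℕ, ∀ z ∈ ball z₀ r, ‖F^[k] z - z‖ ≤ C * (‖z - z₀‖ / r) ^ m := by
    intro k z hz
    have h1 : (fun z => F^[k] z - z) =o[𝓝 z₀] (fun z => ‖z - z₀‖ ^ (m - 1)) := by
      have h2 : (fun z => F^[k] z - z) = (fun z => (F^[k] z - z - (k : ℂ) • W z) + (k : ℂ) • W z) := by
        funext z; abel
      have h3 : (fun z => F^[k] z - z) =O[𝓝 z₀] (fun z => ‖z - z₀‖ ^ m) := by
        rw [h2]
        exact (hit k).isBigO.add (hWO.const_smul_left _)
      apply h3.trans_isLittleO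
      have h4 : (fun z => ‖z - z₀‖) =o[𝓝 z₀] (fun _ => (1 : ℝ)) := by
        rw [isLittleO_one_iff]
        have : Tendsto (fun z => ‖z - z₀‖) (𝓝 z₀) (𝓝 (‖z₀ - z₀‖)) :=
          Continuous.tendsto (by fun_prop) _
        rw [sub_self, norm_zero] at this
        exact this
      have h5 := (isBigO_refl (fun z => ‖z - z₀‖ ^ (m - 1)) (𝓝 z₀)).mul_isLittleO h4
      simp only [mul_one] at h5
      refine h5.congr_left ?_
      intro z
      rw [← pow_succ]; congr 1; omega
    have h2 : F^[k] z₀ - z₀ = 0 := by simp [hfixk]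
    have h3 := Complex.dist_le_mul_div_pow_of_mapsTo_ball_of_isLittleO (n := m - 1) (hWk k)
      (R₂ := C) (by
        intro w hw
        rw [h2, mem_closedBall, dist_zero_right]
        exact hC k w hw) (by
        rw [h2]
        simpa using h1) hz
    rw [h2, dist_zero_right, dist_eq_norm] at h3
    have h4 : m - 1 + 1 = m := by omega
    rw [h4] at h3
    exact h3
  -- conclude that W = o(|z - z₀|^m)
  have hWo : W =o[𝓝 z₀] (fun z => ‖z - z₀‖ ^ m) := by
    rw [isLittleO_iff]
    intro c hc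
    -- choose k with C/(k r^m) ≤ c/2
    obtain ⟨k, hk⟩ := exists_nat_gt (C / r ^ m * 2 / c)
    have hkpos : (0 : ℝ) < k := lt_of_le_of_lt (by positivity) hk
    have h1 := (isLittleO_iff.1 (hit k)) (c := c / 2 * k) (by positivity)
    filter_upwards [h1, ball_mem_nhds z₀ hr] with z hz1 hz2
    have h2 := hbk k z hz2
    rw [norm_pow, norm_norm] at hz1 ⊢
    have h3 : (k : ℝ) * ‖W z‖ ≤ ‖F^[k] z - z‖ + ‖F^[k] z - z - (k : ℂ) • W z‖ := by
      have h4 : (k : ℂ) • W z = (F^[k] z - z) - (F^[k] z - z - (k : ℂ) • W z) := by abel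
      have h5 : ‖(k : ℂ) • W z‖ = k * ‖W z‖ := by rw [norm_smul]; simp
      rw [← h5, h4]
      refine (norm_sub_le _ _).trans ?_
      rw [← h4]
    rw [div_pow] at h2
    have h6 : C * (‖z - z₀‖ ^ m / r ^ m) = (C / r ^ m) * ‖z - z₀‖ ^ m := by ring
    rw [h6] at h2
    have h7 : C / r ^ m ≤ c / 2 * k := by
      rw [div_lt_iff₀ hc] at hk
      linarith
    have h8 : (k : ℝ) * ‖W z‖ ≤ k * (c * ‖z - z₀‖ ^ m) := by
      have h9 : (C / r ^ m) * ‖z - z₀‖ ^ m ≤ c / 2 * k * ‖z - z₀‖ ^ m := by gcongr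
      nlinarith
    exact le_of_mul_le_mul_left h8 hkpos
  intro z hz
  have h2 : W z₀ = 0 := by simp [hW, hfix]
  have h3 := Complex.dist_le_mul_div_pow_of_mapsTo_ball_of_isLittleO (n := m) hWd
      (R₂ := C) (by
        intro w hw
        rw [h2, mem_closedBall, dist_zero_right]
        have := hC 1 w hw
        simpa using this) (by
        rw [h2]
        simpa using hWo) hz
  rw [h2, dist_zero_right, dist_eq_norm] at h3
  exact h3

/-- Cartan's uniqueness theorem, local form. -/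
theorem cartan {D : Set E} {F : E → E} (hF : DifferentiableOn ℂ F D)
    (hmaps : MapsTo F D D) {z₀ : E} (hfix : F z₀ = z₀) {r R : ℝ} (hr : 0 < r)
    (hball : ball z₀ r ⊆ D) (hR : ∀ z ∈ D, ‖z‖ ≤ R)
    (hder : HasFDerivAt F (ContinuousLinearMap.id ℂ E) z₀) :
    ∀ z ∈ ball z₀ r, F z = z := by
  have hC : ∀ k : ℕ, ∀ z ∈ ball z₀ r, ‖F^[k] z - z‖ ≤ 2 * R := by
    intro k z hz
    have h1 := hR _ (hball hz)
    have h2 := hR _ (hmaps.iterate k (hball hz))
    calc ‖F^[k] z - z‖ ≤ ‖F^[k] z‖ + ‖z‖ := norm_sub_le _ _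
      _ ≤ _ := by linarith
  have hbase : ∀ z ∈ ball z₀ r, ‖F z - z‖ ≤ (2 * R) * (‖z - z₀‖ / r) ^ 2 := by
    intro z hz
    have h0 : F z₀ - z₀ = 0 := by simp [hfix]
    have h1 : (fun z => (F z - z) - (F z₀ - z₀)) =o[𝓝 z₀] (fun z => ‖z - z₀‖ ^ 1) := by
      have h2 := hder.isLittleO
      have h3 := h2.norm_right
      refine h3.congr ?_ ?_
      · intro z
        simp
        abel
      · intro z
        simp
    have h3 := Complex.dist_le_mul_div_pow_of_mapsTo_ball_of_isLittleO (n := 1)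
      (f := fun z => F z - z) (R₂ := 2 * R) ((hF.mono hball).sub differentiableOn_id) (by
        intro w hw
        rw [h0, mem_closedBall, dist_zero_right]
        have := hC 1 w hw
        simpa using this) h1 hz
    rw [h0, dist_zero_right, dist_eq_norm] at h3
    exact h3
  have hall : ∀ m : ℕ, ∀ z ∈ ball z₀ r, ‖F z - z‖ ≤ (2 * R) * (‖z - z₀‖ / r) ^ (m + 2) := by
    intro m
    induction m with
    | zero => exact hbase
    | succ m ih =>
      exact cartan_step hF hmaps hfix hr hball hC (by omega) ih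
  intro z hz
  have hz' : ‖z - z₀‖ / r < 1 := by
    rw [mem_ball, dist_eq_norm] at hz
    rwa [div_lt_one hr]
  have h0 : 0 ≤ ‖z - z₀‖ / r := by positivity
  have hlim : Tendsto (fun m : ℕ => (2 * R) * (‖z - z₀‖ / r) ^ (m + 2)) atTop (𝓝 ((2 * R) * 0)) := by
    apply Tendsto.const_mul
    have := tendsto_pow_atTop_nhds_zero_of_lt_one h0 hz'
    exact (tendsto_add_atTop_iff_nat 2).2 this
  rw [mul_zero] at hlim
  have h1 : ‖F z - z‖ ≤ 0 := ge_of_tendsto' hlim (fun m => hall m z hz)
  have h2 : ‖F z - z‖ = 0 := le_antisymm h1 (norm_nonneg _)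
  rw [norm_eq_zero, sub_eq_zero] at h2
  exact h2

end Pool.Agent.Lib.MP_96bc49_an
end

section

namespace Pool.Agent.Lib.MP_96bc49_an

open Polynomial Filter Topology Set Metric

/-- linear part of the reversed characteristic polynomial -/
noncomputable def lin (n : ℕ) : EuclideanSpace ℂ (Fin n) →ₗ[ℂ] ℂ[X] where
  toFun s := ∑ k : Fin n, C ((-1) ^ (k.1 + 1) * s k) * X ^ (k.1 + 1)
  map_add' s t := by
    rw [← Finset.sum_add_distrib]
    apply Finset.sum_congr rfl
    intro k _
    simp [mul_add, add_mul]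
  map_smul' c s := by
    rw [RingHom.id_apply, Finset.smul_sum]
    apply Finset.sum_congr rfl
    intro k _
    rw [Polynomial.smul_eq_C_mul, ← mul_assoc, ← C_mul]
    congr 2
    simp
    ring

theorem lin_apply (n : ℕ) (s : EuclideanSpace ℂ (Fin n)) :
    lin n s = ∑ k : Fin n, C ((-1) ^ (k.1 + 1) * s k) * X ^ (k.1 + 1) := rfl

theorem lin_coeff_succ (n : ℕ) (s : EuclideanSpace ℂ (Fin n)) (k : Fin n) :
    (lin n s).coeff (k.1 + 1) = (-1) ^ (k.1 + 1) * s k := by
  rw [lin_apply, finsetSum_coeff]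
  rw [Finset.sum_eq_single k]
  · rw [coeff_C_mul, coeff_X_pow, if_pos rfl, mul_one]
  · intro j _ hj
    rw [coeff_C_mul, coeff_X_pow, if_neg, mul_zero]
    intro h
    apply hj
    ext
    omega
  · intro h
    exact absurd (Finset.mem_univ k) h

theorem lin_coeff_zero (n : ℕ) (s : EuclideanSpace ℂ (Fin n)) : (lin n s).coeff 0 = 0 := by
  rw [lin_apply, finsetSum_coeff]
  apply Finset.sum_eq_zero
  intro k _
  rw [coeff_C_mul, coeff_X_pow, if_neg (by omega), mul_zero]

theorem lin_coeff_large (n : ℕ) (s : EuclideanSpace ℂ (Fin n)) {m : ℕ} (hm : n < m) :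
    (lin n s).coeff m = 0 := by
  rw [lin_apply, finsetSum_coeff]
  apply Finset.sum_eq_zero
  intro k _
  rw [coeff_C_mul, coeff_X_pow, if_neg (by have := k.2; omega), mul_zero]

theorem lin_injective (n : ℕ) : Function.Injective (lin n) := by
  intro s t h
  ext k
  have h1 := lin_coeff_succ n s k
  rw [h, lin_coeff_succ] at h1
  have h2 : ((-1 : ℂ)) ^ (k.1 + 1) ≠ 0 := by simp
  exact (mul_left_cancel₀ h2 h1).symm

/-- The inverse of `lin`. -/
noncomputable def unlin (n : ℕ) : ℂ[X] →ₗ[ℂ] EuclideanSpace ℂ (Fin n) where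
  toFun Q := WithLp.toLp 2 (fun k : Fin n => (-1) ^ (k.1 + 1) * Q.coeff (k.1 + 1))
  map_add' P Q := by
    ext k
    simp [mul_add]
  map_smul' c P := by
    ext k
    simp
    ring

theorem unlin_apply (n : ℕ) (Q : ℂ[X]) (k : Fin n) :
    unlin n Q k = (-1) ^ (k.1 + 1) * Q.coeff (k.1 + 1) := rfl

theorem lin_unlin (n : ℕ) {Q : ℂ[X]} (h0 : Q.coeff 0 = 0) (hn : Q.natDegree ≤ n) :
    lin n (unlin n Q) = Q := by
  ext m
  rcases Nat.eq_zero_or_pos m with hm | hm
  · rw [hm, lin_coeff_zero, h0]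
  · by_cases hmn : m ≤ n
    · have h1 := lin_coeff_succ n (unlin n Q) ⟨m - 1, by omega⟩
      simp only [unlin_apply] at h1
      have h2 : m - 1 + 1 = m := by omega
      rw [h2] at h1
      rw [h1, ← mul_assoc, ← mul_pow]
      simp
    · rw [lin_coeff_large n _ (by omega), Polynomial.coeff_eq_zero_of_natDegree_lt (by omega)]

theorem unlin_lin (n : ℕ) (s : EuclideanSpace ℂ (Fin n)) : unlin n (lin n s) = s := by
  ext k
  rw [unlin_apply, lin_coeff_succ, ← mul_assoc, ← mul_pow]
  simp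

/-- the reversed characteristic polynomial -/
noncomputable def q (n : ℕ) (s : EuclideanSpace ℂ (Fin n)) : ℂ[X] := 1 + lin n s

theorem q_injective (n : ℕ) : Function.Injective (q n) := by
  intro s t h
  apply lin_injective
  exact add_left_cancel h

theorem q_eval_zero (n : ℕ) (s : EuclideanSpace ℂ (Fin n)) : (q n s).eval 0 = 1 := by
  rw [← Polynomial.coeff_zero_eq_eval_zero, q, coeff_add, lin_coeff_zero]
  simp

theorem q_add (n : ℕ) (s t : EuclideanSpace ℂ (Fin n)) : q n (s + t) = q n s + lin n t := by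
  rw [q, q, map_add, add_assoc]

theorem natDegree_q_le (n : ℕ) (s : EuclideanSpace ℂ (Fin n)) : (q n s).natDegree ≤ n := by
  rw [Polynomial.natDegree_le_iff_coeff_eq_zero]
  intro m hm
  rw [q, coeff_add, lin_coeff_large n s hm, coeff_one, if_neg (by omega), add_zero]

theorem q_symmMap (n : ℕ) (l : Fin n → ℂ) : q n (symmMap n l) = ∏ i, (1 - C (l i) * X) := by
  have h1 : ∏ i, (1 - C (l i) * X) = ∑ t ∈ (Finset.univ : Finset (Fin n)).powerset,
      ∏ i ∈ t, (-(C (l i) * X)) := by
    have := Finset.prod_add (fun i : Fin n => -(C (l i) * X)) (fun _ => (1 : ℂ[X])) Finset.univ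
    simp only [Finset.prod_const_one, mul_one] at this
    rw [← this]
    apply Finset.prod_congr rfl
    intro i _
    ring
  rw [h1, Finset.sum_powerset, Finset.card_univ, Fintype.card_fin, Finset.sum_range_succ']
  simp only [Finset.powersetCard_zero, Finset.sum_singleton, Finset.prod_empty]
  rw [q, add_comm, lin_apply, Finset.sum_range]
  congr 1
  apply Finset.sum_congr rfl
  intro k _
  have h2 : ∀ t ∈ Finset.powersetCard (k.1 + 1) (Finset.univ : Finset (Fin n)),
      ∏ i ∈ t, (-(C (l i) * X)) = C ((-1) ^ (k.1 + 1) * ∏ i ∈ t, l i) * X ^ (k.1 + 1) := by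
    intro t ht
    rw [Finset.mem_powersetCard] at ht
    have h3 : ∀ i ∈ t, (-(C (l i) * X) : ℂ[X]) = (C (-1) * C (l i)) * X := by
      intro i _
      simp
    rw [Finset.prod_congr rfl h3, Finset.prod_mul_distrib, Finset.prod_mul_distrib,
      Finset.prod_const, Finset.prod_const, ht.2, C_mul, C_pow, map_prod]
  rw [Finset.sum_congr rfl h2, ← Finset.sum_mul, symmMap]
  congr 1
  simp only
  rw [Finset.mul_sum, map_sum]

theorem q_symmMap_eval (n : ℕ) (l : Fin n → ℂ) (u : ℂ) :
    (q n (symmMap n l)).eval u = ∏ i, (1 - l i * u) := by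
  rw [q_symmMap, eval_prod]
  simp

/-- Every point is in the image of the symmetrization map. -/
theorem symmMap_surjective (n : ℕ) : Function.Surjective (symmMap n) := by
  intro s
  -- the monic polynomial
  set m : ℂ[X] := X ^ n + ∑ k : Fin n, C ((-1) ^ (k.1 + 1) * s k) * X ^ (n - 1 - k.1) with hm
  have hdeg : (∑ k : Fin n, C ((-1) ^ (k.1 + 1) * s k) * X ^ (n - 1 - k.1)).degree < (n : WithBot ℕ) := by
    rw [Polynomial.degree_lt_iff_coeff_zero]
    intro j hj
    rw [finsetSum_coeff]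
    apply Finset.sum_eq_zero
    intro k _
    rw [coeff_C_mul, coeff_X_pow, if_neg (by have := k.2; omega), mul_zero]
  have hmonic : m.Monic := Polynomial.monic_X_pow_add hdeg
  have hnat : m.natDegree = n := by
    rw [hm]
    apply Polynomial.natDegree_eq_of_degree_eq_some
    rw [Polynomial.degree_add_eq_left_of_degree_lt]
    · simp
    · simpa using hdeg
  have hsplit : m.Splits := IsAlgClosed.splits m
  have hcard : Multiset.card m.roots = n := by
    rw [← hnat]
    exact hsplit.natDegree_eq_card_roots.symm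
  have hprod : m = (m.roots.map (fun a => X - C a)).prod := by
    have := hsplit.eq_prod_roots_of_monic hmonic
    exact this
  obtain ⟨l, hl⟩ : ∃ l : Fin n → ℂ, m = ∏ i, (X - C (l i)) := by
    have hlen : m.roots.toList.length = n := by rw [Multiset.length_toList, hcard]
    refine ⟨fun i => m.roots.toList.get (Fin.cast hlen.symm i), ?_⟩
    have h1 : (m.roots.map (fun a => X - C a)).prod =
        ((m.roots.toList.map (fun a => X - C a))).prod := by
      conv_lhs => rw [← Multiset.coe_toList m.roots]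
      rw [Multiset.map_coe, Multiset.prod_coe]
    conv_lhs => rw [hprod, h1]
    rw [← List.prod_ofFn]
    congr 1
    apply List.ext_get
    · simp [hlen]
    · intro i h1 h2
      simp
  refine ⟨l, ?_⟩
  apply q_injective
  apply Polynomial.funext
  intro u
  rw [q_symmMap_eval]
  by_cases hu : u = 0
  · rw [hu, q_eval_zero]
    simp
  · have h1 : m.eval u⁻¹ = ∏ i, (u⁻¹ - l i) := by
      rw [hl, eval_prod]
      simp
    have h2 : m.eval u⁻¹ * u ^ n = (q n s).eval u := by
      rw [hm, q, lin_apply]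
      simp only [eval_add, eval_pow, eval_X, eval_finsetSum, eval_mul, eval_C, eval_one]
      rw [add_mul, Finset.sum_mul, inv_pow, inv_mul_cancel₀ (pow_ne_zero n hu)]
      congr 1
      apply Finset.sum_congr rfl
      intro k _
      rw [mul_assoc]
      congr 1
      have h3 : u ^ n = u ^ (n - 1 - k.1) * u ^ (k.1 + 1) := by
        rw [← pow_add]
        congr 1
        have := k.2
        omega
      rw [h3, ← mul_assoc, inv_pow, inv_mul_cancel₀ (pow_ne_zero _ hu), one_mul]
    rw [← h2, h1]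
    have h4 : u ^ n = ∏ _i : Fin n, u := by simp
    rw [h4, ← Finset.prod_mul_distrib]
    apply Finset.prod_congr rfl
    intro i _
    rw [sub_mul, inv_mul_cancel₀ hu]

theorem mem_symmPolydisc_iff (n : ℕ) (s : EuclideanSpace ℂ (Fin n)) :
    s ∈ symmPolydisc n ↔ ∀ u : ℂ, ‖u‖ ≤ 1 → (q n s).eval u ≠ 0 := by
  constructor
  · rintro ⟨l, hl, rfl⟩ u hu h0
    rw [q_symmMap_eval, Finset.prod_eq_zero_iff] at h0
    obtain ⟨i, _, hi⟩ := h0
    have h1 : l i * u = 1 := by linear_combination -hi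
    have h2 : ‖l i‖ * ‖u‖ = 1 := by rw [← norm_mul, h1, norm_one]
    have h3 : ‖l i‖ < 1 := hl i
    nlinarith [norm_nonneg (l i), norm_nonneg u]
  · intro h
    obtain ⟨l, rfl⟩ := symmMap_surjective n s
    refine ⟨l, ?_, rfl⟩
    intro i
    by_contra hcon
    push Not at hcon
    have hne : l i ≠ 0 := by
      intro h0
      rw [h0, norm_zero] at hcon
      linarith
    apply h (l i)⁻¹
    · rw [norm_inv]
      exact inv_le_one_of_one_le₀ hcon
    · rw [q_symmMap_eval]
      apply Finset.prod_eq_zero (Finset.mem_univ i)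
      rw [mul_inv_cancel₀ hne, sub_self]

theorem continuous_q_eval (n : ℕ) :
    Continuous (fun x : EuclideanSpace ℂ (Fin n) × ℂ => (q n x.1).eval x.2) := by
  have : (fun x : EuclideanSpace ℂ (Fin n) × ℂ => (q n x.1).eval x.2) =
      fun x => 1 + ∑ k : Fin n, ((-1) ^ (k.1 + 1) * x.1 k) * x.2 ^ (k.1 + 1) := by
    funext x
    rw [q, lin_apply]
    simp [eval_finsetSum]
  rw [this]
  fun_prop

theorem isOpen_symmPolydisc (n : ℕ) : IsOpen (symmPolydisc n) := by
  rw [← isClosed_compl_iff]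
  have h1 : (symmPolydisc n)ᶜ = Prod.fst '' ({x : EuclideanSpace ℂ (Fin n) × ℂ |
      (q n x.1).eval x.2 = 0} ∩ (univ ×ˢ closedBall 0 1)) := by
    ext s
    rw [mem_compl_iff, mem_symmPolydisc_iff]
    push Not
    constructor
    · rintro ⟨u, hu, h0⟩
      exact ⟨(s, u), ⟨h0, mem_univ _, by simpa using hu⟩, rfl⟩
    · rintro ⟨⟨s', u⟩, ⟨h0, _, hu⟩, rfl⟩
      exact ⟨u, by simpa using hu, h0⟩
  rw [h1]
  have hclosed : IsClosed {x : EuclideanSpace ℂ (Fin n) × ℂ | (q n x.1).eval x.2 = 0} :=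
    isClosed_eq (continuous_q_eval n) continuous_const
  -- projection along a compact set
  rw [← isSeqClosed_iff_isClosed]
  intro x s hx hs
  choose y hy1 hy2 using hx
  have hcomp : IsCompact (closedBall (0 : ℂ) 1) := isCompact_closedBall 0 1
  obtain ⟨u, hu, φ, hφ, hφu⟩ := hcomp.tendsto_subseq (x := fun m => (y m).2)
    (fun m => (hy1 m).2.2)
  refine ⟨(s, u), ⟨?_, mem_univ _, hu⟩, rfl⟩
  apply hclosed.mem_of_tendsto (b := atTop) (f := fun m => (x (φ m), (y (φ m)).2))
  · exact (hs.comp hφ.tendsto_atTop).prodMk_nhds hφu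
  · apply Eventually.of_forall
    intro m
    have := (hy1 (φ m)).1
    have h2 := hy2 (φ m)
    simp only [mem_ofPred_eq] at this ⊢
    rw [← h2]
    exact this

theorem continuous_symmMap (n : ℕ) : Continuous (symmMap n) := by
  unfold symmMap
  apply (PiLp.continuous_toLp 2 _).comp
  fun_prop

theorem differentiable_symmMap (n : ℕ) : Differentiable ℂ (symmMap n) := by
  unfold symmMap
  apply (PiLp.continuousLinearEquiv 2 ℂ (fun _ : Fin n => ℂ)).symm.differentiable.comp
  rw [differentiable_pi]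
  intro k
  apply Differentiable.fun_sum
  intro t ht
  clear ht
  induction t using Finset.induction_on with
  | empty => simp
  | insert i t hi ih =>
    simp only [Finset.prod_insert hi]
    exact (differentiable_apply i).mul ih

theorem isCompact_closed_image (n : ℕ) :
    IsCompact (symmMap n '' {l : Fin n → ℂ | ∀ i, ‖l i‖ ≤ 1}) := by
  apply IsCompact.image _ (continuous_symmMap n)
  have : {l : Fin n → ℂ | ∀ i, ‖l i‖ ≤ 1} = Set.pi univ (fun _ => closedBall (0 : ℂ) 1) := by
    ext l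
    simp
  rw [this]
  exact isCompact_univ_pi (fun _ => isCompact_closedBall 0 1)

theorem closure_subset (n : ℕ) :
    closure (symmPolydisc n) ⊆ symmMap n '' {l : Fin n → ℂ | ∀ i, ‖l i‖ ≤ 1} := by
  apply closure_minimal _ (isCompact_closed_image n).isClosed
  apply image_mono
  intro l hl i
  exact (hl i).le

theorem exists_bound (n : ℕ) : ∃ R : ℝ, ∀ s ∈ symmPolydisc n, ‖s‖ ≤ R := by
  obtain ⟨R, hR⟩ := (isCompact_closed_image n).isBounded.exists_norm_le
  exact ⟨R, fun s hs => hR s (closure_subset n (subset_closure hs))⟩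

theorem frontier_exists (n : ℕ) {p : EuclideanSpace ℂ (Fin n)} (hp : p ∈ frontier (symmPolydisc n)) :
    ∃ l : Fin n → ℂ, symmMap n l = p ∧ (∀ i, ‖l i‖ ≤ 1) ∧ ∃ i, ‖l i‖ = 1 := by
  rw [(isOpen_symmPolydisc n).frontier_eq] at hp
  obtain ⟨l, hl, hlp⟩ := closure_subset n hp.1
  refine ⟨l, hlp, hl, ?_⟩
  by_contra hcon
  push Not at hcon
  exact hp.2 ⟨l, fun i => lt_of_le_of_ne (hl i) (hcon i), hlp⟩

theorem torus_mem_frontier (n : ℕ) (hn : 1 ≤ n) {l : Fin n → ℂ} (hl : ∀ i, ‖l i‖ = 1) :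
    symmMap n l ∈ frontier (symmPolydisc n) := by
  rw [(isOpen_symmPolydisc n).frontier_eq]
  constructor
  · have h1 : Tendsto (fun r : ℝ => symmMap n (fun i => (r : ℂ) * l i)) (𝓝[<] 1)
        (𝓝 (symmMap n (fun i => ((1 : ℝ) : ℂ) * l i))) := by
      apply Tendsto.mono_left _ nhdsWithin_le_nhds
      have hc : Continuous (fun r : ℝ => symmMap n (fun i => (r : ℂ) * l i)) :=
        (continuous_symmMap n).comp (by fun_prop)
      exact hc.tendsto 1
    have h2 : symmMap n l = symmMap n (fun i => ((1 : ℝ) : ℂ) * l i) := by simp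
    rw [h2]
    apply mem_closure_of_tendsto h1
    have h3 : ∀ᶠ r : ℝ in 𝓝[<] 1, 0 < r := by
      apply nhdsWithin_le_nhds
      exact lt_mem_nhds one_pos
    filter_upwards [self_mem_nhdsWithin, h3] with r hr1 hr2
    refine ⟨_, ?_, rfl⟩
    intro i
    rw [norm_mul, hl i, mul_one, Complex.norm_real, Real.norm_of_nonneg hr2.le]
    exact hr1
  · rw [mem_symmPolydisc_iff]
    push Not
    have hi : 0 < n := hn
    have hne : l ⟨0, hi⟩ ≠ 0 := by
      intro h0
      have := hl ⟨0, hi⟩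
      rw [h0, norm_zero] at this
      exact zero_ne_one this
    refine ⟨(l ⟨0, hi⟩)⁻¹, ?_, ?_⟩
    · rw [norm_inv, hl]; simp
    · rw [q_symmMap_eval]
      apply Finset.prod_eq_zero (Finset.mem_univ ⟨0, hi⟩)
      rw [mul_inv_cancel₀ hne, sub_self]

end Pool.Agent.Lib.MP_96bc49_an
end

section

namespace Pool.Agent.Lib.MP_96bc49_an

open Filter Topology

variable {V : Type*} [NormedAddCommGroup V] [NormedSpace ℂ V] [FiniteDimensional ℂ V]

theorem eigen_le_one (f : V →L[ℂ] V) {C : ℝ} (hC : ∀ k : ℕ, ‖f ^ k‖ ≤ C) {μ : ℂ}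
    (hμ : μ ∈ (f : V →ₗ[ℂ] V).charpoly.roots) : ‖μ‖ ≤ 1 := by
  have h1 : (f : V →ₗ[ℂ] V).charpoly.IsRoot μ := (Polynomial.mem_roots'.1 hμ).2
  rw [← Module.End.hasEigenvalue_iff_isRoot_charpoly] at h1
  obtain ⟨v, hv⟩ := h1.exists_hasEigenvector
  have hv0 : v ≠ 0 := hv.2
  have hfv : f v = μ • v := hv.apply_eq_smul
  have hk : ∀ k : ℕ, (f ^ k) v = μ ^ k • v := by
    intro k
    induction k with
    | zero => simp
    | succ k ih =>
      rw [pow_succ', mul_apply_eq_comp, ih, map_smul, hfv, smul_smul, ← pow_succ]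
  have hb : ∀ k : ℕ, ‖μ‖ ^ k ≤ C := by
    intro k
    have h2 : ‖(f ^ k) v‖ ≤ C * ‖v‖ := (f ^ k).le_of_opNorm_le (hC k) v
    rw [hk, norm_smul, norm_pow] at h2
    exact le_of_mul_le_mul_right h2 (norm_pos_iff.2 hv0)
  by_contra hcon
  push Not at hcon
  obtain ⟨k, hk⟩ := pow_unbounded_of_one_lt C hcon
  exact absurd (hb k) (not_le.2 hk)

theorem trace_re_le (f : V →L[ℂ] V) {C : ℝ} (hC : ∀ k : ℕ, ‖f ^ k‖ ≤ C) :
    (LinearMap.trace ℂ V (f : V →ₗ[ℂ] V)).re ≤ Module.finrank ℂ V := by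
  have hs : (f : V →ₗ[ℂ] V).charpoly.Splits := IsAlgClosed.splits _
  have h1 := Module.End.trace_eq_sum_roots_charpoly_of_splits hs
  rw [h1]
  have hcard : Multiset.card (f : V →ₗ[ℂ] V).charpoly.roots = Module.finrank ℂ V := by
    rw [← hs.natDegree_eq_card_roots, LinearMap.charpoly_natDegree]
  have h2 : ((f : V →ₗ[ℂ] V).charpoly.roots.sum).re =
      ((f : V →ₗ[ℂ] V).charpoly.roots.map Complex.re).sum := by
    exact map_multiset_sum Complex.reAddGroupHom _
  rw [h2, ← hcard]
  have h3 : ((f : V →ₗ[ℂ] V).charpoly.roots.map Complex.re).sum ≤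
      ((f : V →ₗ[ℂ] V).charpoly.roots.map (fun _ => (1 : ℝ))).sum := by
    apply Multiset.sum_map_le_sum_map
    intro μ hμ
    exact (Complex.re_le_norm μ).trans (eigen_le_one f hC hμ)
  simpa using h3

theorem nilpotent_of_trace (f : V →L[ℂ] V) {C : ℝ} (hC : ∀ k : ℕ, ‖f ^ k‖ ≤ C)
    (htr : LinearMap.trace ℂ V (f : V →ₗ[ℂ] V) = Module.finrank ℂ V) :
    ((f : V →ₗ[ℂ] V) - 1) ^ (Module.finrank ℂ V) = 0 := by
  have hs : (f : V →ₗ[ℂ] V).charpoly.Splits := IsAlgClosed.splits _
  have h1 := Module.End.trace_eq_sum_roots_charpoly_of_splits hs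
  have hcard : Multiset.card (f : V →ₗ[ℂ] V).charpoly.roots = Module.finrank ℂ V := by
    rw [← hs.natDegree_eq_card_roots, LinearMap.charpoly_natDegree]
  rw [htr] at h1
  have h2 : ((f : V →ₗ[ℂ] V).charpoly.roots.sum).re =
      ((f : V →ₗ[ℂ] V).charpoly.roots.map Complex.re).sum := by
    exact map_multiset_sum Complex.reAddGroupHom _
  have h3 : (((f : V →ₗ[ℂ] V).charpoly.roots.map (fun μ => 1 - μ.re)).sum) = 0 := by
    rw [Multiset.sum_map_sub, ← h2, ← h1]
    simp [hcard]
  have h4 : ∀ μ ∈ (f : V →ₗ[ℂ] V).charpoly.roots, μ = 1 := by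
    intro μ hμ
    have h5 : ∀ x ∈ (f : V →ₗ[ℂ] V).charpoly.roots.map (fun μ => 1 - μ.re), 0 ≤ x := by
      intro x hx
      rw [Multiset.mem_map] at hx
      obtain ⟨ν, hν, rfl⟩ := hx
      have := (Complex.re_le_norm ν).trans (eigen_le_one f hC hν)
      linarith
    have h6 := Multiset.single_le_sum h5 (1 - μ.re) (Multiset.mem_map_of_mem _ hμ)
    rw [h3] at h6
    have h8 := eigen_le_one f hC hμ
    have h9 : μ.re = 1 := by linarith [Complex.re_le_norm μ]
    have h10 : μ.im = 0 := by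
      have h11 : ‖μ‖ ^ 2 = μ.re ^ 2 + μ.im ^ 2 := by
        rw [Complex.sq_norm, Complex.normSq_apply]; ring
      have h12 : ‖μ‖ ^ 2 ≤ 1 := by nlinarith [norm_nonneg μ]
      rw [h11, h9] at h12
      nlinarith [sq_nonneg μ.im]
    apply Complex.ext
    · simp [h9]
    · simp [h10]
  have h5 : (f : V →ₗ[ℂ] V).charpoly.roots = Multiset.replicate (Module.finrank ℂ V) 1 := by
    rw [Multiset.eq_replicate]
    exact ⟨hcard, h4⟩
  have h6 : (f : V →ₗ[ℂ] V).charpoly = (Polynomial.X - Polynomial.C 1) ^ (Module.finrank ℂ V) := by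
    have h7 := hs.eq_prod_roots_of_monic (LinearMap.charpoly_monic _)
    rw [h5, Multiset.map_replicate, Multiset.prod_replicate] at h7
    exact h7
  have h7 := LinearMap.aeval_self_charpoly (f : V →ₗ[ℂ] V)
  rw [h6] at h7
  simpa using h7

theorem eq_one_of_nilpotent (f : V →L[ℂ] V) {C : ℝ} (hC : ∀ k : ℕ, ‖f ^ k‖ ≤ C) {d : ℕ}
    (hnil : ((f : V →ₗ[ℂ] V) - 1) ^ d = 0) : (f : V →ₗ[ℂ] V) = 1 := by
  set N : V →ₗ[ℂ] V := (f : V →ₗ[ℂ] V) - 1 with hN
  by_contra hne
  have hN0 : N ≠ 0 := by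
    intro h
    apply hne
    rw [hN, sub_eq_zero] at h
    exact h
  -- the least power that vanishes
  classical
  have hex : ∃ m, N ^ m = 0 := ⟨d, hnil⟩
  set m := Nat.find hex with hm
  have hm0 : N ^ m = 0 := Nat.find_spec hex
  have hmin : ∀ j, j < m → N ^ j ≠ 0 := fun j hj => Nat.find_min hex hj
  have hm2 : 2 ≤ m := by
    by_contra h
    push Not at h
    have h1 : m = 0 ∨ m = 1 := by omega
    rcases h1 with h1 | h1
    · rw [h1, pow_zero] at hm0
      apply hN0
      calc N = 1 * N := (one_mul N).symm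
        _ = 0 := by rw [hm0, zero_mul]
    · rw [h1, pow_one] at hm0
      exact hN0 hm0
  have h1 := hmin (m - 1) (by omega)
  obtain ⟨u, hu⟩ : ∃ u, (N ^ (m - 1)) u ≠ 0 := by
    by_contra hcon
    push Not at hcon
    apply h1
    ext u
    simpa using hcon u
  set v := (N ^ (m - 2)) u with hv
  have hNv : N v ≠ 0 := by
    have : N v = (N ^ (m - 1)) u := by
      rw [hv, ← Module.End.mul_apply, ← pow_succ']
      congr 2
      omega
    rw [this]; exact hu
  have hNNv : N (N v) = 0 := by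
    have : N (N v) = (N ^ m) u := by
      rw [hv, ← Module.End.mul_apply, ← Module.End.mul_apply]
      have : N * N * N ^ (m - 2) = N ^ m := by
        rw [← pow_two, ← pow_add]
        congr 1
        omega
      rw [this]
    rw [this, hm0]; simp
  have hfv : f v = v + N v := by
    simp [hN]
  have hfN : f (N v) = N v := by
    have : N (N v) = f (N v) - N v := by simp only [hN]; simp
    rw [hNNv] at this
    exact (sub_eq_zero.1 this.symm)
  have hk : ∀ k : ℕ, (f ^ k) v = v + (k : ℂ) • N v := by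
    intro k
    induction k with
    | zero => simp
    | succ k ih =>
      rw [pow_succ', mul_apply_eq_comp, ih, map_add, map_smul, hfv, hfN]
      push_cast
      rw [add_smul, one_smul]
      abel
  have hb : ∀ k : ℕ, (k : ℝ) * ‖N v‖ ≤ C * ‖v‖ + ‖v‖ := by
    intro k
    have h2 : ‖(f ^ k) v‖ ≤ C * ‖v‖ := (f ^ k).le_of_opNorm_le (hC k) v
    rw [hk] at h2
    have h3 : ‖(k : ℂ) • N v‖ = (k : ℝ) * ‖N v‖ := by rw [norm_smul]; simp
    rw [← h3]
    have h4 : (k : ℂ) • N v = (v + (k : ℂ) • N v) - v := by abel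
    calc ‖(k : ℂ) • N v‖ = ‖(v + (k : ℂ) • N v) - v‖ := by rw [← h4]
      _ ≤ ‖v + (k : ℂ) • N v‖ + ‖v‖ := norm_sub_le _ _
      _ ≤ _ := by linarith
  have hpos : 0 < ‖N v‖ := norm_pos_iff.2 hNv
  obtain ⟨k, hk2⟩ := exists_nat_gt ((C * ‖v‖ + ‖v‖) / ‖N v‖)
  rw [div_lt_iff₀ hpos] at hk2
  exact absurd (hb k) (not_le.2 hk2)

theorem eq_id_of_trace (f : V →L[ℂ] V) {C : ℝ} (hC : ∀ k : ℕ, ‖f ^ k‖ ≤ C)
    (htr : LinearMap.trace ℂ V (f : V →ₗ[ℂ] V) = Module.finrank ℂ V) :
    f = ContinuousLinearMap.id ℂ V := by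
  have h1 := eq_one_of_nilpotent f hC (nilpotent_of_trace f hC htr)
  ext v
  have := LinearMap.congr_fun h1 v
  simpa using this

end Pool.Agent.Lib.MP_96bc49_an
end
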