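import Mathlib

section

namespace Pool.Agent.Lib.MP_96bc49_an

open Complex Set Filter Topology Metric

theorem norm_sub_conj_sq (a b : ℂ) :
    ‖a - (starRingEnd ℂ) b‖ ^ 2 = ‖a - b‖ ^ 2 + 4 * (a.im * b.im) := by
  rw [Complex.sq_norm, Complex.sq_norm, Complex.normSq_apply, Complex.normSq_apply]
  simp
  ring

/-- Schwarz–Pick in product form, strict version -/
theorem schwarzPick_strict {g : ℂ → ℂ} (hg : DifferentiableOn ℂ g {z | 0 < z.im})
    (hg' : ∀ z : ℂ, 0 < z.im → 0 < (g z).im) {z w : ℂ} (hz : 0 < z.im) (hw : 0 < w.im) :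
    ‖g z - g w‖ ^ 2 * (z.im * w.im) ≤ ‖z - w‖ ^ 2 * ((g z).im * (g w).im) := by
  set φ : ℂ → ℂ := fun ζ => (w - (starRingEnd ℂ) w * ζ) / (1 - ζ) with hφ
  have hne1 : ∀ ζ : ℂ, ‖ζ‖ < 1 → (1 - ζ) ≠ 0 := by
    intro ζ h h0
    have : ζ = 1 := by linear_combination -h0
    rw [this] at h
    simp at h
  have hφim : ∀ ζ : ℂ, ‖ζ‖ < 1 → 0 < (φ ζ).im := by
    intro ζ h
    have h1 := hne1 ζ h
    have h2 : (φ ζ).im = w.im * (1 - ‖ζ‖ ^ 2) / ‖1 - ζ‖ ^ 2 := by
      rw [hφ]
      simp only [Complex.div_im]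
      rw [Complex.sq_norm, Complex.sq_norm]
      have h3 : normSq (1 - ζ) ≠ 0 := by simpa using h1
      field_simp
      rw [Complex.normSq_apply ζ]
      simp
      ring
    rw [h2]
    have h4 : 0 < ‖1 - ζ‖ := by simpa using h1
    have h5 : 0 < 1 - ‖ζ‖ ^ 2 := by nlinarith [norm_nonneg ζ]
    positivity
  have hφd : DifferentiableOn ℂ φ (ball 0 1) := by
    intro ζ hζ
    have h1 := hne1 ζ (by simpa using hζ)
    apply DifferentiableAt.differentiableWithinAt
    rw [hφ]
    fun_prop (disch := exact h1)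
  have hconj : ∀ ζ : ℂ, ‖ζ‖ < 1 → g (φ ζ) - (starRingEnd ℂ) (g w) ≠ 0 := by
    intro ζ h h0
    have h1 := congrArg Complex.im h0
    simp at h1
    have := hg' _ (hφim ζ h)
    have := hg' w hw
    linarith
  set ψ : ℂ → ℂ := fun ζ => (g (φ ζ) - g w) / (g (φ ζ) - (starRingEnd ℂ) (g w)) with hψ
  have hgφ : DifferentiableOn ℂ (fun ζ => g (φ ζ)) (ball 0 1) := by
    apply hg.comp hφd
    intro ζ hζ
    exact hφim ζ (by simpa using hζ)
  have hψd : DifferentiableOn ℂ ψ (ball 0 1) := by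
    apply DifferentiableOn.div
    · exact hgφ.sub_const _
    · exact hgφ.sub_const _
    · intro ζ hζ
      exact hconj ζ (by simpa using hζ)
  have hψ0 : ψ 0 = 0 := by
    simp [hψ, hφ]
  have hψm : MapsTo ψ (ball 0 1) (closedBall 0 1) := by
    intro ζ hζ
    have hζ' : ‖ζ‖ < 1 := by simpa using hζ
    simp only [mem_closedBall, dist_zero_right, hψ, norm_div]
    have h1 : 0 < ‖g (φ ζ) - (starRingEnd ℂ) (g w)‖ := by simpa using hconj ζ hζ'
    rw [div_le_one h1]
    have h2 := norm_sub_conj_sq (g (φ ζ)) (g w)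
    have h3 := mul_pos (hg' _ (hφim ζ hζ')) (hg' w hw)
    apply le_of_sq_le_sq _ h1.le
    nlinarith
  -- the point
  have hzw : z - (starRingEnd ℂ) w ≠ 0 := by
    intro h0
    have h1 := congrArg Complex.im h0
    simp at h1
    linarith
  have hzw' : 0 < ‖z - (starRingEnd ℂ) w‖ := by simpa using hzw
  have hww : w - (starRingEnd ℂ) w ≠ 0 := by
    intro h0
    have h1 := congrArg Complex.im h0
    simp at h1
    linarith
  set ζ₀ : ℂ := (z - w) / (z - (starRingEnd ℂ) w) with hζ₀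
  have hζ₀n : ‖ζ₀‖ < 1 := by
    rw [hζ₀, norm_div, div_lt_one hzw']
    have h2 := norm_sub_conj_sq z w
    have h3 := mul_pos hz hw
    apply lt_of_pow_lt_pow_left₀ 2 hzw'.le
    nlinarith
  have hφζ : φ ζ₀ = z := by
    simp only [hφ, hζ₀]
    have h1 : 1 - (z - w) / (z - (starRingEnd ℂ) w) = (w - (starRingEnd ℂ) w) / (z - (starRingEnd ℂ) w) := by
      field_simp
      ring
    rw [h1]
    field_simp
    ring
  have key := Complex.norm_le_norm_of_mapsTo_ball hψd hψm hψ0 hζ₀n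
  have hgz : 0 < ‖g z - (starRingEnd ℂ) (g w)‖ := by
    have := hconj ζ₀ hζ₀n
    rw [hφζ] at this
    simpa using this
  simp only [hψ] at key
  rw [hφζ, hζ₀, norm_div, norm_div, div_le_div_iff₀ hgz hzw'] at key
  have key2 := pow_le_pow_left₀ (by positivity) key 2
  rw [mul_pow, mul_pow, norm_sub_conj_sq, norm_sub_conj_sq] at key2
  nlinarith

/-- Schwarz–Pick in product form -/
theorem schwarzPick {g : ℂ → ℂ} (hg : DifferentiableOn ℂ g {z | 0 < z.im})
    (hg' : ∀ z : ℂ, 0 < z.im → 0 ≤ (g z).im) {z w : ℂ} (hz : 0 < z.im) (hw : 0 < w.im) :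
    ‖g z - g w‖ ^ 2 * (z.im * w.im) ≤ ‖z - w‖ ^ 2 * ((g z).im * (g w).im) := by
  have h1 : ∀ δ : ℝ, 0 < δ → ‖g z - g w‖ ^ 2 * (z.im * w.im) ≤
      ‖z - w‖ ^ 2 * (((g z).im + δ) * ((g w).im + δ)) := by
    intro δ hδ
    have := schwarzPick_strict (g := fun z => g z + δ * I) (hg.add_const _) (by
      intro z hz
      have := hg' z hz
      simp
      linarith) hz hw
    simpa using this
  have h2 : Tendsto (fun δ : ℝ => ‖z - w‖ ^ 2 * (((g z).im + δ) * ((g w).im + δ))) (𝓝[>] 0)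
      (𝓝 (‖z - w‖ ^ 2 * (((g z).im + 0) * ((g w).im + 0)))) := by
    apply Tendsto.mono_left _ nhdsWithin_le_nhds
    apply Continuous.tendsto (by fun_prop)
  rw [add_zero, add_zero] at h2
  apply ge_of_tendsto h2
  filter_upwards [self_mem_nhdsWithin] with δ hδ
  exact h1 δ hδ


/-- If the imaginary part vanishes somewhere then the function is constant. -/
theorem eq_of_im_eq_zero {g : ℂ → ℂ} (hg : DifferentiableOn ℂ g {z | 0 < z.im})
    (hg' : ∀ z : ℂ, 0 < z.im → 0 ≤ (g z).im) {z w : ℂ} (hz : 0 < z.im) (hw : 0 < w.im)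
    (h0 : (g w).im = 0) : g z = g w := by
  have h := schwarzPick hg hg' hz hw
  rw [h0, mul_zero, mul_zero] at h
  have h1 : 0 < z.im * w.im := mul_pos hz hw
  have h2 : ‖g z - g w‖ ^ 2 ≤ 0 := by
    by_contra h3
    push Not at h3
    nlinarith [mul_pos h3 h1]
  have h3 : ‖g z - g w‖ = 0 := by
    have := sq_nonneg ‖g z - g w‖
    have h4 : ‖g z - g w‖ ^ 2 = 0 := le_antisymm h2 this
    exact pow_eq_zero_iff (two_ne_zero) |>.1 h4
  rw [norm_eq_zero, sub_eq_zero] at h3
  exact h3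

/-- Hopf lemma for the half plane. -/
theorem hopf {h : ℂ → ℂ} (hd : DifferentiableOn ℂ h {z | 0 < z.im})
    (him : ∀ z : ℂ, 0 < z.im → 0 ≤ (h z).im)
    (hε : Tendsto (fun ε : ℝ => h (ε * I) / ε) (𝓝[>] 0) (𝓝 0)) {z : ℂ} (hz : 0 < z.im) :
    h z = 0 := by
  have hε0 : Tendsto (fun ε : ℝ => (ε : ℂ)) (𝓝[>] 0) (𝓝 0) := by
    apply Tendsto.mono_left _ nhdsWithin_le_nhds
    have := Complex.continuous_ofReal.tendsto 0
    simpa using this
  have h0 : Tendsto (fun ε : ℝ => h (ε * I)) (𝓝[>] 0) (𝓝 0) := by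
    have := hε.mul hε0
    rw [mul_zero] at this
    apply this.congr'
    filter_upwards [self_mem_nhdsWithin] with ε hε
    have : (ε : ℂ) ≠ 0 := by
      have : (0:ℝ) < ε := hε
      exact_mod_cast this.ne'
    field_simp
  have key : ∀ ε : ℝ, 0 < ε → ‖h z - h (ε * I)‖ ^ 2 * z.im ≤
      ‖z - ε * I‖ ^ 2 * ((h z).im * (h (ε * I) / ε).im) := by
    intro ε hε
    have h1 := schwarzPick hd him hz (w := ε * I) (by simpa using hε)
    have h2 : ((ε : ℂ) * I).im = ε := by simp
    rw [h2] at h1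
    have h3 : (h (ε * I) / ε).im = (h (ε * I)).im / ε := by
      rw [Complex.div_ofReal_im]
    rw [h3]
    have h4 : ‖h z - h (ε * I)‖ ^ 2 * z.im = (‖h z - h (ε * I)‖ ^ 2 * (z.im * ε)) / ε := by
      field_simp
    rw [h4, div_le_iff₀ hε]
    have h5 : ‖z - ε * I‖ ^ 2 * ((h z).im * ((h (ε * I)).im / ε)) * ε =
      ‖z - ε * I‖ ^ 2 * ((h z).im * (h (ε * I)).im) := by field_simp
    rw [h5]
    exact h1
  have t1 : Tendsto (fun ε : ℝ => ‖h z - h (ε * I)‖ ^ 2 * z.im) (𝓝[>] 0)
      (𝓝 (‖h z - 0‖ ^ 2 * z.im)) := ((h0.const_sub _).norm.pow 2).mul_const _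
  have t2 : Tendsto (fun ε : ℝ => ‖z - ε * I‖ ^ 2 * ((h z).im * (h (ε * I) / ε).im)) (𝓝[>] 0)
      (𝓝 (‖z - 0 * I‖ ^ 2 * ((h z).im * (0 : ℂ).im))) := by
    apply Tendsto.mul
    · exact ((hε0.mul_const _).const_sub _).norm.pow 2
    · apply Tendsto.const_mul
      exact (Complex.continuous_im.tendsto _).comp hε
  have h3 := le_of_tendsto_of_tendsto t1 t2 (by
    filter_upwards [self_mem_nhdsWithin] with ε hε
    exact key ε hε)
  simp at h3
  have h4 : ‖h z‖ ^ 2 ≤ 0 := by
    by_contra h5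
    push Not at h5
    nlinarith [mul_pos h5 hz]
  have h5 : ‖h z‖ ^ 2 = 0 := le_antisymm h4 (sq_nonneg _)
  simpa using h5

/-- Burns–Krantz in the half plane. -/
theorem bkU {g : ℂ → ℂ} (hd : DifferentiableOn ℂ g {z | 0 < z.im})
    (him : ∀ z : ℂ, 0 < z.im → 0 ≤ (g z).im)
    (hε : Tendsto (fun ε : ℝ => (g (ε * I) - ε * I) / (ε : ℂ) ^ 3) (𝓝[>] 0) (𝓝 0)) {z : ℂ}
    (hz : 0 < z.im) : g z = z := by
  have hε0 : Tendsto (fun ε : ℝ => (ε : ℂ)) (𝓝[>] 0) (𝓝 0) := by
    apply Tendsto.mono_left _ nhdsWithin_le_nhds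
    have := Complex.continuous_ofReal.tendsto 0
    simpa using this
  -- g (i ε) / ε → i
  have h1 : Tendsto (fun ε : ℝ => g (ε * I) / ε) (𝓝[>] 0) (𝓝 I) := by
    have := (hε.mul (hε0.pow 2)).add_const I
    simp only [ne_eq, OfNat.ofNat_ne_zero, not_false_eq_true, zero_pow, mul_zero, zero_add] at this
    apply this.congr'
    filter_upwards [self_mem_nhdsWithin] with ε hε
    have : (ε : ℂ) ≠ 0 := by
      have : (0:ℝ) < ε := hε
      exact_mod_cast this.ne'
    field_simp
    ring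
  have h2 : Tendsto (fun ε : ℝ => g (ε * I)) (𝓝[>] 0) (𝓝 0) := by
    have := h1.mul hε0
    rw [mul_zero] at this
    apply this.congr'
    filter_upwards [self_mem_nhdsWithin] with ε hε
    have : (ε : ℂ) ≠ 0 := by
      have : (0:ℝ) < ε := hε
      exact_mod_cast this.ne'
    field_simp
  -- g has positive imaginary part
  have hpos : ∀ w : ℂ, 0 < w.im → 0 < (g w).im := by
    intro w hw
    by_contra hcon
    have h0 : (g w).im = 0 := le_antisymm (not_lt.1 hcon) (him w hw)
    have hconst : ∀ v : ℂ, 0 < v.im → g v = g w := fun v hv => eq_of_im_eq_zero hd him hv hw h0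
    have h3 : Tendsto (fun ε : ℝ => g (ε * I)) (𝓝[>] 0) (𝓝 (g w)) := by
      apply tendsto_const_nhds.congr'
      filter_upwards [self_mem_nhdsWithin] with ε hε
      rw [hconst (ε * I) (by simpa using hε)]
    have h4 : g w = 0 := tendsto_nhds_unique h3 h2
    have h5 : Tendsto (fun ε : ℝ => g (ε * I) / ε) (𝓝[>] 0) (𝓝 0) := by
      apply tendsto_const_nhds.congr'
      filter_upwards [self_mem_nhdsWithin] with ε hε
      rw [hconst (ε * I) (by simpa using hε), h4, zero_div]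
    have h6 := tendsto_nhds_unique h1 h5
    exact I_ne_zero h6
  have hne : ∀ w : ℂ, 0 < w.im → g w ≠ 0 := by
    intro w hw h0
    have := hpos w hw
    rw [h0] at this
    simp at this
  -- Julia
  have julia : ∀ w : ℂ, 0 < w.im → ‖g w‖ ^ 2 * w.im ≤ ‖w‖ ^ 2 * (g w).im := by
    intro w hw
    have key : ∀ ε : ℝ, 0 < ε → ‖g w - g (ε * I)‖ ^ 2 * w.im ≤
        ‖w - ε * I‖ ^ 2 * ((g w).im * (g (ε * I) / ε).im) := by
      intro ε hε
      have h1 := schwarzPick hd him hw (w := ε * I) (by simpa using hε)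
      have h2 : ((ε : ℂ) * I).im = ε := by simp
      rw [h2] at h1
      have h3 : (g (ε * I) / ε).im = (g (ε * I)).im / ε := by
        rw [Complex.div_ofReal_im]
      rw [h3]
      have h4 : ‖g w - g (ε * I)‖ ^ 2 * w.im = (‖g w - g (ε * I)‖ ^ 2 * (w.im * ε)) / ε := by
        field_simp
      rw [h4, div_le_iff₀ hε]
      have h5 : ‖w - ε * I‖ ^ 2 * ((g w).im * ((g (ε * I)).im / ε)) * ε =
        ‖w - ε * I‖ ^ 2 * ((g w).im * (g (ε * I)).im) := by field_simp
      rw [h5]
      exact h1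
    have t1 : Tendsto (fun ε : ℝ => ‖g w - g (ε * I)‖ ^ 2 * w.im) (𝓝[>] 0)
        (𝓝 (‖g w - 0‖ ^ 2 * w.im)) := ((h2.const_sub _).norm.pow 2).mul_const _
    have t2 : Tendsto (fun ε : ℝ => ‖w - ε * I‖ ^ 2 * ((g w).im * (g (ε * I) / ε).im)) (𝓝[>] 0)
        (𝓝 (‖w - 0 * I‖ ^ 2 * ((g w).im * (I : ℂ).im))) := by
      apply Tendsto.mul
      · exact ((hε0.mul_const _).const_sub _).norm.pow 2
      · apply Tendsto.const_mul
        exact (Complex.continuous_im.tendsto _).comp h1
    have h3 := le_of_tendsto_of_tendsto t1 t2 (by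
      filter_upwards [self_mem_nhdsWithin] with ε hε
      exact key ε hε)
    simpa using h3
  -- auxiliary function
  set h : ℂ → ℂ := fun w => -(g w)⁻¹ + w⁻¹ with hh
  have hhd : DifferentiableOn ℂ h {z | 0 < z.im} := by
    intro w hw
    have hw0 : w ≠ 0 := by
      rintro rfl
      simp at hw
    have := hne w hw
    have := hd w hw
    rw [hh]
    fun_prop (disch := assumption)
  have hhim : ∀ w : ℂ, 0 < w.im → 0 ≤ (h w).im := by
    intro w hw
    have hw0 : w ≠ 0 := by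
      rintro rfl
      simp at hw
    have hg0 := hne w hw
    have hj := julia w hw
    simp only [hh, Complex.add_im, Complex.neg_im, Complex.inv_im]
    rw [Complex.sq_norm, Complex.sq_norm] at hj
    have h3 : 0 < normSq (g w) := normSq_pos.2 hg0
    have h4 : 0 < normSq w := normSq_pos.2 hw0
    have h5 : w.im / normSq w ≤ (g w).im / normSq (g w) := by
      rw [div_le_div_iff₀ h4 h3]
      nlinarith
    have h6 : -(-(g w).im / normSq (g w)) + -w.im / normSq w = (g w).im / normSq (g w) - w.im / normSq w := by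
      ring
    rw [h6]
    linarith
  have hlim : Tendsto (fun ε : ℝ => h (ε * I) / ε) (𝓝[>] 0) (𝓝 0) := by
    have h3 : Tendsto (fun ε : ℝ => (g (ε * I) - ε * I) / (ε : ℂ) ^ 3 * (g (ε * I) / ε)⁻¹ * (I)⁻¹) (𝓝[>] 0)
        (𝓝 (0 * (I)⁻¹ * (I)⁻¹)) := (hε.mul (h1.inv₀ I_ne_zero)).mul_const _
    rw [zero_mul, zero_mul] at h3
    apply h3.congr'
    filter_upwards [self_mem_nhdsWithin] with ε hε
    have h4 : (ε : ℂ) ≠ 0 := by
      have : (0:ℝ) < ε := hε
      exact_mod_cast this.ne'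
    have h5 := hne (ε * I) (by simpa using hε)
    have h6 := I_ne_zero
    simp only [hh]
    field_simp
    ring
  have h3 := hopf hhd hhim hlim hz
  have hz0 : z ≠ 0 := by
    rintro rfl
    simp at hz
  have hg0 := hne z hz
  simp only [hh] at h3
  have h4 : (g z)⁻¹ = z⁻¹ := by linear_combination -h3
  exact inv_injective h4

/-- Julia's lemma at infinity for the half plane. -/
theorem juliaInf {k : ℂ → ℂ} (hd : DifferentiableOn ℂ k {z | 0 < z.im})
    (him : ∀ z : ℂ, 0 < z.im → 0 ≤ (k z).im) {y : ℂ} (hy : 0 < y.im) {B : ℝ} (hB : 0 ≤ B)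
    (hR : Tendsto (fun ε : ℝ => ε * k (y / ε)) (𝓝[>] 0) (𝓝 (B * y))) {z : ℂ}
    (hz : 0 < z.im) : B * z.im ≤ (k z).im := by
  rcases hB.eq_or_lt with h0 | hB
  · rw [← h0, zero_mul]
    exact him z hz
  have hε0 : Tendsto (fun ε : ℝ => (ε : ℂ)) (𝓝[>] 0) (𝓝 0) := by
    apply Tendsto.mono_left _ nhdsWithin_le_nhds
    have := Complex.continuous_ofReal.tendsto 0
    simpa using this
  have key : ∀ ε : ℝ, 0 < ε → ‖ε * k z - ε * k (y / ε)‖ ^ 2 * (z.im * y.im) ≤
      ‖ε * z - y‖ ^ 2 * ((k z).im * (ε * k (y / ε)).im) := by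
    intro ε hε
    have h2 : (y / ε).im = y.im / ε := by
      rw [Complex.div_ofReal_im]
    have h1 := schwarzPick hd him hz (w := y / ε) (by rw [h2]; positivity)
    have h3 : ((ε : ℂ) * k (y / ε)).im = ε * (k (y / ε)).im := by
      rw [Complex.im_ofReal_mul]
    have h4 : ‖(ε : ℂ) * k z - ε * k (y / ε)‖ = ε * ‖k z - k (y / ε)‖ := by
      rw [← mul_sub, norm_mul, Complex.norm_real, Real.norm_of_nonneg hε.le]
    have h5 : ‖(ε : ℂ) * z - y‖ = ε * ‖z - y / ε‖ := by
      have : (ε : ℂ) * z - y = ε * (z - y / ε) := by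
        have : (ε : ℂ) ≠ 0 := by exact_mod_cast hε.ne'
        field_simp
      rw [this, norm_mul, Complex.norm_real, Real.norm_of_nonneg hε.le]
    rw [h3, h4, h5]
    rw [h2] at h1
    have h6 : 0 < ε ^ 3 := by positivity
    have h7 := mul_le_mul_of_nonneg_left h1 h6.le
    have h8 : ε ^ 3 * (‖k z - k (y / ε)‖ ^ 2 * (z.im * (y.im / ε))) =
       (ε * ‖k z - k (y / ε)‖) ^ 2 * (z.im * y.im) := by
      field_simp
    rw [h8] at h7
    refine h7.trans (le_of_eq ?_)
    ring
  have t1 : Tendsto (fun ε : ℝ => ‖ε * k z - ε * k (y / ε)‖ ^ 2 * (z.im * y.im)) (𝓝[>] 0)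
      (𝓝 (‖0 * k z - B * y‖ ^ 2 * (z.im * y.im))) :=
    (((hε0.mul_const _).sub hR).norm.pow 2).mul_const _
  have t2 : Tendsto (fun ε : ℝ => ‖ε * z - y‖ ^ 2 * ((k z).im * (ε * k (y / ε)).im)) (𝓝[>] 0)
      (𝓝 (‖0 * z - y‖ ^ 2 * ((k z).im * (B * y).im))) := by
    apply Tendsto.mul
    · exact ((hε0.mul_const _).sub_const _).norm.pow 2
    · apply Tendsto.const_mul
      exact (Complex.continuous_im.tendsto _).comp hR
  have h3 := le_of_tendsto_of_tendsto t1 t2 (by
    filter_upwards [self_mem_nhdsWithin] with ε hε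
    exact key ε hε)
  have h4 : ((B : ℂ) * y).im = B * y.im := by simp
  rw [h4, zero_mul, zero_sub, norm_neg, norm_mul, zero_mul, zero_sub, norm_neg, Complex.norm_real,
    Real.norm_of_nonneg hB.le] at h3
  have hy0 : 0 < ‖y‖ := by
    rw [norm_pos_iff]
    rintro rfl
    simp at hy
  have h5 : 0 < B * ‖y‖ ^ 2 * y.im := by positivity
  have h6 : (B * ‖y‖ ^ 2 * y.im) * (B * z.im) ≤ (B * ‖y‖ ^ 2 * y.im) * (k z).im := by
    nlinarith
  exact le_of_mul_le_mul_left h6 h5

theorem isOpen_U : IsOpen {z : ℂ | 0 < z.im} := isOpen_lt continuous_const Complex.continuous_im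

/-- A quantitative near-extremal Schwarz lemma on the half plane. -/
theorem nearExtremal {G : ℂ → ℂ} (hd : DifferentiableOn ℂ G {z | 0 < z.im})
    (him : ∀ z : ℂ, 0 < z.im → 0 ≤ (G z).im) {M ε K δ : ℝ} (hM : (G I).im = M) (hM0 : 0 < M)
    (hε : 0 < ε) {e : ℂ} (he : e = G (I * (1 + ε)) - G I - I * M * ε) (heM : ‖e‖ ≤ M)
    {s : ℂ} (hs : 0 < s.im) (hK : K = ‖s - I * (1 + ε)‖ ^ 2 / (s.im * (1 + ε)))
    (hδ : δ = (2 + 4 * K) * (2 * ‖e‖ / (ε * M))) (hsmall : δ * ‖s + I‖ ≤ 1) :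
    ‖G s - (G I).re - M * s‖ ≤ M * δ * ‖s + I‖ ^ 2 := by
  have hden : ∀ z : ℂ, 0 < z.im → G z - (starRingEnd ℂ) (G I) ≠ 0 := by
    intro z hz h0
    have h1 := congrArg Complex.im h0
    simp at h1
    have := him z hz
    linarith
  have hGI : (starRingEnd ℂ) (G I) = (G I) - 2 * I * M := by
    apply Complex.ext
    · simp
    · simp [hM]
      ring
  have hGI2 : G I = (G I).re + I * M := by
    apply Complex.ext
    · simp
    · simp [hM]
  set W : ℂ → ℂ := fun z => (G z - G I) / (G z - (starRingEnd ℂ) (G I)) with hW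
  have hWd : DifferentiableOn ℂ W {z | 0 < z.im} := by
    apply DifferentiableOn.div
    · exact hd.sub_const _
    · exact hd.sub_const _
    · intro z hz
      exact hden z hz
  have hWI : W I = 0 := by simp [hW]
  have hI : {z : ℂ | 0 < z.im} ∈ 𝓝 I := isOpen_U.mem_nhds (by simp)
  have hsI : ∀ z : ℂ, 0 < z.im → z + I ≠ 0 := by
    intro z hz h0
    have h1 := congrArg Complex.im h0
    simp at h1
    linarith
  set g : ℂ → ℂ := fun z => (z + I) * dslope W I z with hg
  have hgd : DifferentiableOn ℂ g {z | 0 < z.im} := by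
    apply DifferentiableOn.mul (by fun_prop)
    exact (Complex.differentiableOn_dslope hI).2 hWd
  have hWg : ∀ z : ℂ, 0 < z.im → W z = (z - I) / (z + I) * g z := by
    intro z hz
    by_cases hzI : z = I
    · rw [hzI, hWI]; simp
    · have h1 : z - I ≠ 0 := sub_ne_zero.2 hzI
      have h2 := hsI z hz
      simp only [hg, dslope_of_ne _ hzI, slope_def_field, hWI]
      field_simp
      ring
  have hWn : ∀ z : ℂ, 0 < z.im → ‖W z‖ * ‖z + I‖ ≤ ‖z - I‖ := by
    intro z hz
    have h1 := schwarzPick hd him hz (w := I) (by simp)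
    have h2 := norm_sub_conj_sq (G z) (G I)
    have h3 := norm_sub_conj_sq z I
    have h4 : z - (starRingEnd ℂ) I = z + I := by simp
    rw [h4] at h3
    have h5 : 0 < ‖G z - (starRingEnd ℂ) (G I)‖ := by simpa using hden z hz
    simp only [hW, norm_div]
    rw [div_mul_eq_mul_div, div_le_iff₀ h5]
    apply le_of_sq_le_sq _ (by positivity)
    rw [mul_pow, mul_pow, h2, h3]
    simp only [Complex.I_im, mul_one] at h1 ⊢
    nlinarith
  have hgn : ∀ z : ℂ, 0 < z.im → ‖g z‖ ≤ 1 := by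
    have h0 : ∀ z : ℂ, 0 < z.im → z ≠ I → ‖g z‖ ≤ 1 := by
      intro z hz hzI
      have h1 := hWn z hz
      rw [hWg z hz, norm_mul, norm_div] at h1
      have h2 : 0 < ‖z + I‖ := by simpa using hsI z hz
      have h3 : 0 < ‖z - I‖ := by simpa using sub_ne_zero.2 hzI
      have h4 : ‖z - I‖ / ‖z + I‖ * ‖g z‖ * ‖z + I‖ = ‖z - I‖ * ‖g z‖ := by field_simp
      rw [h4] at h1
      by_contra h5
      push Not at h5
      nlinarith
    intro z hz
    by_cases hzI : z = I
    · rw [hzI]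
      have hc : ContinuousAt g I := (hgd.differentiableAt hI).continuousAt
      have h1 : Tendsto (fun z => ‖g z‖) (𝓝[≠] I) (𝓝 ‖g I‖) :=
        (hc.tendsto.norm).mono_left nhdsWithin_le_nhds
      apply le_of_tendsto h1
      filter_upwards [self_mem_nhdsWithin, nhdsWithin_le_nhds hI] with z hz1 hz2
      exact h0 z hz2 hz1
    · exact h0 z hz hzI
  set f : ℂ → ℂ := fun z => I * (1 - g z) with hf
  have hfd : DifferentiableOn ℂ f {z | 0 < z.im} := by
    apply DifferentiableOn.const_mul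
    exact hgd.const_sub _
  have hfim : ∀ z : ℂ, 0 < z.im → 0 ≤ (f z).im := by
    intro z hz
    have h1 := hgn z hz
    have h2 := (Complex.re_le_norm (g z)).trans h1
    simp [hf]
    linarith
  have hs₁ : 0 < (I * (1 + ε) : ℂ).im := by
    simp
    linarith
  have hs₁' : (I * (1 + ε) : ℂ).im = 1 + ε := by simp
  have hε' : (ε : ℂ) ≠ 0 := by exact_mod_cast hε.ne'
  have hM' : (M : ℂ) ≠ 0 := by exact_mod_cast hM0.ne'
  -- value at s₁
  have hfs₁ : ‖f (I * (1 + ε))‖ ≤ 2 * ‖e‖ / (ε * M) := by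
    have h1 : I * (1 + (ε : ℂ)) ≠ I := by
      intro h
      apply hε'
      have h2 : I * (ε : ℂ) = 0 := by linear_combination h
      simpa [I_ne_zero] using h2
    have h2 : G (I * (1 + ε)) = e + G I + I * M * ε := by rw [he]; ring
    have h3 : (M * (2 + ε)) * I + e ≠ 0 := by
      intro h0
      have h3 := congrArg Complex.im h0
      simp at h3
      have h4 := Complex.abs_im_le_norm e
      have h5 := (abs_le.1 (h4.trans heM)).1
      nlinarith
    have h4 : f (I * (1 + ε)) = I * (-2 * e / (ε * ((M * (2 + ε)) * I + e))) := by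
      have hW1 : W (I * (1 + ε)) = (I * M * ε + e) / ((M * (2 + ε)) * I + e) := by
        simp only [hW, h2, hGI]
        congr 1 <;> ring
      have hW2 := hWg _ hs₁
      rw [hW1] at hW2
      have h6 : I * (1 + (ε : ℂ)) - I = I * ε := by ring
      have h7 : I * (1 + (ε : ℂ)) + I = I * (2 + ε) := by ring
      rw [h6, h7] at hW2
      have h8 : (2 + ε : ℂ) ≠ 0 := by
        have : ((2 + ε : ℝ) : ℂ) ≠ 0 := by
          have : (0 : ℝ) < 2 + ε := by linarith
          exact_mod_cast this.ne'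
        push_cast at this
        exact this
      have h9 := I_ne_zero
      have h10 : g (I * (1 + ε)) = (2 + ε) / ε * ((I * M * ε + e) / ((M * (2 + ε)) * I + e)) := by
        rw [hW2]
        field_simp
      simp only [hf]
      rw [h10]
      generalize hD : (M * (2 + ε)) * I + e = D at h3 ⊢
      have he' : e = D - (M * (2 + ε)) * I := by rw [← hD]; ring
      rw [he']
      field_simp
      ring
    rw [h4, norm_mul, norm_I, one_mul, norm_div, norm_mul, norm_mul, norm_neg, Complex.norm_real,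
      Real.norm_of_nonneg hε.le]
    have h5 : M ≤ ‖(M * (2 + ε)) * I + e‖ := by
      have h6 : ‖((M : ℂ) * (2 + ε)) * I‖ = M * (2 + ε) := by
        rw [norm_mul, norm_I, mul_one]
        have : (M : ℂ) * (2 + ε) = ((M * (2 + ε) : ℝ) : ℂ) := by push_cast; ring
        rw [this, Complex.norm_real, Real.norm_of_nonneg (by positivity)]
      have h7 := norm_sub_norm_le (((M : ℂ) * (2 + ε)) * I) (-e)
      rw [norm_neg, h6, sub_neg_eq_add] at h7
      nlinarith
    have h6 : ‖(2 : ℂ)‖ = 2 := by simp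
    rw [h6]
    have h7 : 0 < ε * M := by positivity
    gcongr
  have hSP := schwarzPick hfd hfim hs hs₁
  rw [hs₁'] at hSP
  have hKpos : 0 ≤ K := by rw [hK]; positivity
  have hfs : ‖f s‖ ≤ δ := by
    have h1 : ‖f s‖ ≤ (2 + 4 * K) * ‖f (I * (1 + ε))‖ := by
      set u := ‖f s‖ with hu
      set v := ‖f (I * (1 + ε))‖ with hv
      have hu0 : 0 ≤ u := norm_nonneg _
      have hv0 : 0 ≤ v := norm_nonneg _
      have h2 : (u - v) ^ 2 ≤ K * (u * v) := by
        have h3 : (u - v) ^ 2 ≤ ‖f s - f (I * (1 + ε))‖ ^ 2 := by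
          have := abs_norm_sub_norm_le (f s) (f (I * (1 + ε)))
          rw [← hu, ← hv] at this
          rw [← sq_abs]
          exact pow_le_pow_left₀ (abs_nonneg _) this 2
        have h4 : (f s).im * (f (I * (1 + ε))).im ≤ u * v := by
          have h5 := Complex.im_le_norm (f s)
          have h6 := Complex.im_le_norm (f (I * (1 + ε)))
          exact mul_le_mul h5 h6 (hfim _ hs₁) hu0
        have h5 : 0 < s.im * (1 + ε) := by positivity
        rw [hK, div_mul_eq_mul_div, le_div_iff₀ h5]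
        calc (u - v) ^ 2 * (s.im * (1 + ε)) ≤ ‖f s - f (I * (1 + ε))‖ ^ 2 * (s.im * (1 + ε)) := by
              gcongr
          _ ≤ ‖s - I * (1 + ε)‖ ^ 2 * ((f s).im * (f (I * (1 + ε))).im) := hSP
          _ ≤ ‖s - I * (1 + ε)‖ ^ 2 * (u * v) := by gcongr
      by_cases h3 : u ≤ 2 * v
      · nlinarith [mul_nonneg hKpos hv0]
      · push Not at h3
        have h4 : u ^ 2 / 4 ≤ (u - v) ^ 2 := by nlinarith
        have h5 : u ^ 2 ≤ 4 * K * v * u := by nlinarith
        have h6 : u ≤ 4 * K * v := by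
          have h7 : 0 < u := by linarith
          by_contra h8
          push Not at h8
          nlinarith
        nlinarith
    rw [hδ]
    calc ‖f s‖ ≤ (2 + 4 * K) * ‖f (I * (1 + ε))‖ := h1
      _ ≤ _ := by gcongr
  have hgs : ‖1 - g s‖ ≤ δ := by
    have : ‖f s‖ = ‖1 - g s‖ := by simp [hf]
    rw [← this]; exact hfs
  have hδ0 : 0 ≤ δ := (norm_nonneg _).trans hgs
  -- conclude
  set z : ℂ := (s - I) / (s + I) with hz
  have hsI' := hsI s hs
  have hsIn : 0 < ‖s + I‖ := by simpa using hsI'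
  have h1z : 1 - z = 2 * I / (s + I) := by
    rw [hz]; field_simp; ring
  have hzn : ‖z‖ ≤ 1 := by
    rw [hz, norm_div, div_le_one hsIn]
    have h3 := norm_sub_conj_sq s I
    have h4 : s - (starRingEnd ℂ) I = s + I := by simp
    rw [h4] at h3
    apply le_of_sq_le_sq _ hsIn.le
    simp at h3
    nlinarith
  have h1zn : ‖1 - z‖ = 2 / ‖s + I‖ := by
    rw [h1z, norm_div, norm_mul, norm_I]; simp
  have hWz : W s - z = - (z * (1 - g s)) := by
    rw [hWg s hs, ← hz]; ring
  have hWzn : ‖W s - z‖ ≤ δ := by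
    rw [hWz, norm_neg, norm_mul]
    calc ‖z‖ * ‖1 - g s‖ ≤ 1 * δ := by gcongr
      _ = δ := one_mul _
  have h1W : 1 / ‖s + I‖ ≤ ‖1 - W s‖ := by
    have h2 : ‖1 - z‖ - ‖W s - z‖ ≤ ‖1 - W s‖ := by
      have h3 : 1 - W s = (1 - z) - (W s - z) := by ring
      rw [h3]
      exact norm_sub_norm_le _ _
    rw [h1zn] at h2
    have h3 : δ ≤ 1 / ‖s + I‖ := by
      rw [le_div_iff₀ hsIn]; exact hsmall
    have h4 : 2 / ‖s + I‖ = 1 / ‖s + I‖ + 1 / ‖s + I‖ := by ring
    linarith
  have hmain : (G s - (G I).re - M * s) * ((1 - W s) * (1 - z)) = 2 * I * M * (W s - z) := by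
    have h2 := hden s hs
    rw [hGI] at h2
    have h3 : 1 - W s = 2 * I * M / (G s - (G I - 2 * I * M)) := by
      simp only [hW, hGI]
      field_simp
      ring
    have h4 : W s - z = 2 * I * (G s - (G I).re - M * s) / ((G s - (G I - 2 * I * M)) * (s + I)) := by
      simp only [hW, hGI, hz]
      have h5 : (((G I).re : ℝ) : ℂ) = G I - I * M := by linear_combination -hGI2
      rw [h5]
      field_simp
      ring
    rw [h3, h4, h1z]
    field_simp
    try ring
  have hnorm := congrArg norm hmain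
  rw [norm_mul, norm_mul, norm_mul, norm_mul, norm_mul, norm_I, Complex.norm_real,
    Real.norm_of_nonneg hM0.le, h1zn] at hnorm
  simp only [Complex.norm_ofNat, mul_one] at hnorm
  have h5 : ‖G s - (G I).re - M * s‖ * (1 / ‖s + I‖ * (2 / ‖s + I‖)) ≤ 2 * M * δ := by
    calc ‖G s - (G I).re - M * s‖ * (1 / ‖s + I‖ * (2 / ‖s + I‖))
        ≤ ‖G s - (G I).re - M * s‖ * (‖1 - W s‖ * (2 / ‖s + I‖)) := by gcongr
      _ = 2 * M * ‖W s - z‖ := hnorm
      _ ≤ _ := by gcongr
  have h6 : 1 / ‖s + I‖ * (2 / ‖s + I‖) = 2 / ‖s + I‖ ^ 2 := by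
    field_simp
  rw [h6, mul_div_assoc', div_le_iff₀ (by positivity)] at h5
  linarith

theorem tendsto_ofReal_zero : Tendsto (fun ε : ℝ => (ε : ℂ)) (𝓝[>] 0) (𝓝 0) := by
  apply Tendsto.mono_left _ nhdsWithin_le_nhds
  have := Complex.continuous_ofReal.tendsto 0
  simpa using this

theorem nearExtremal_limit {G : ℝ → ℂ → ℂ}
    (hd : ∀ ε : ℝ, 0 < ε → DifferentiableOn ℂ (G ε) {z | 0 < z.im})
    (him : ∀ ε : ℝ, 0 < ε → ∀ z : ℂ, 0 < z.im → 0 ≤ (G ε z).im) {A B X : ℝ} (hB : 0 < B)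
    (h0 : Tendsto (fun ε : ℝ => (G ε I - (X + (ε * A + B) * I)) / (ε : ℂ) ^ 3) (𝓝[>] 0) (𝓝 0))
    (h1 : Tendsto (fun ε : ℝ => (G ε (I * (1 + ε)) - (X + (ε * A + B) * (I * (1 + ε)))) /
      (ε : ℂ) ^ 3) (𝓝[>] 0) (𝓝 0))
    {y : ℂ} (hy : 0 < y.im) :
    Tendsto (fun ε : ℝ => ε * G ε (y / ε)) (𝓝[>] 0) (𝓝 (B * y)) := by
  have hε0 := tendsto_ofReal_zero
  have hε0' : Tendsto (fun ε : ℝ => ε) (𝓝[>] 0) (𝓝 0) := by
    apply Tendsto.mono_left _ nhdsWithin_le_nhds
    exact tendsto_id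
  have hpos : ∀ᶠ ε : ℝ in 𝓝[>] 0, 0 < ε := self_mem_nhdsWithin
  -- G ε I → X + B I
  have hGI : Tendsto (fun ε : ℝ => G ε I) (𝓝[>] 0) (𝓝 (X + B * I)) := by
    have h2 : Tendsto (fun ε : ℝ => (G ε I - (X + (ε * A + B) * I)) / (ε : ℂ) ^ 3 * (ε : ℂ) ^ 3
        + (X + (ε * A + B) * I)) (𝓝[>] 0) (𝓝 (0 * 0 ^ 3 + (X + (0 * A + B) * I))) := by
      apply Tendsto.add
      · exact h0.mul (hε0.pow 3)
      · exact (((hε0.mul_const _).add_const _).mul_const _).const_add _
    have h3 : (0 * 0 ^ 3 + (X + (0 * A + B) * I) : ℂ) = X + B * I := by ring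
    rw [h3] at h2
    apply h2.congr'
    filter_upwards [hpos] with ε hε
    have : (ε : ℂ) ≠ 0 := by exact_mod_cast hε.ne'
    field_simp
    ring
  set M : ℝ → ℝ := fun ε => (G ε I).im with hM
  have hMlim : Tendsto M (𝓝[>] 0) (𝓝 B) := by
    have h2 := (Complex.continuous_im.tendsto _).comp hGI
    have h3 : (X + B * I : ℂ).im = B := by simp
    rw [h3] at h2
    exact h2
  have hMpos : ∀ᶠ ε : ℝ in 𝓝[>] 0, 0 < M ε := hMlim.eventually (lt_mem_nhds hB)
  set e : ℝ → ℂ := fun ε => G ε (I * (1 + ε)) - G ε I - I * M ε * ε with he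
  have helim : Tendsto (fun ε : ℝ => e ε / (ε : ℂ) ^ 3) (𝓝[>] 0) (𝓝 0) := by
    have h2 : Tendsto (fun ε : ℝ =>
        (G ε (I * (1 + ε)) - (X + (ε * A + B) * (I * (1 + ε)))) / (ε : ℂ) ^ 3
        - (G ε I - (X + (ε * A + B) * I)) / (ε : ℂ) ^ 3
        - I * ε * (((G ε I - (X + (ε * A + B) * I)) / (ε : ℂ) ^ 3).im : ℝ)) (𝓝[>] 0)
        (𝓝 (0 - 0 - I * 0 * (((0 : ℂ).im : ℝ) : ℂ))) := by
      apply Tendsto.sub
      · exact h1.sub h0
      · apply Tendsto.mul
        · exact hε0.const_mul _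
        · exact (Complex.continuous_ofReal.tendsto _).comp
            ((Complex.continuous_im.tendsto _).comp h0)
    have h3 : (0 - 0 - I * 0 * (((0 : ℂ).im : ℝ) : ℂ)) = 0 := by simp
    rw [h3] at h2
    apply h2.congr'
    filter_upwards [hpos] with ε hε
    have h4 : (ε : ℂ) ≠ 0 := by exact_mod_cast hε.ne'
    have h5 : ((G ε I - (X + (ε * A + B) * I)) / (ε : ℂ) ^ 3).im = (M ε - (ε * A + B)) / ε ^ 3 := by
      have h6 : ((ε : ℂ) ^ 3) = ((ε ^ 3 : ℝ) : ℂ) := by push_cast; ring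
      rw [h6, Complex.div_ofReal_im]
      simp [hM]
    rw [h5]
    simp only [he]
    push_cast
    field_simp
    ring
  have hyn : 0 < ‖y‖ := by
    rw [norm_pos_iff]
    rintro rfl
    simp at hy
  -- K
  set K : ℝ → ℝ := fun ε => ‖y / ε - I * (1 + ε)‖ ^ 2 / ((y / ε).im * (1 + ε)) with hK
  have hKlim : Tendsto (fun ε : ℝ => ε * K ε) (𝓝[>] 0) (𝓝 (‖y‖ ^ 2 / y.im)) := by
    have h2 : Tendsto (fun ε : ℝ => ‖y - ε * (I * (1 + ε))‖ ^ 2 / (y.im * (1 + ε))) (𝓝[>] 0)
        (𝓝 (‖y - 0 * (I * (1 + 0))‖ ^ 2 / (y.im * (1 + 0)))) := by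
      apply Tendsto.div
      · apply Tendsto.pow
        apply Tendsto.norm
        apply Tendsto.const_sub
        exact hε0.mul ((hε0.const_add _).const_mul _)
      · exact (hε0'.const_add _).const_mul _
      · simpa using hy.ne'
    have h3 : ‖y - 0 * (I * (1 + 0))‖ ^ 2 / (y.im * (1 + 0)) = ‖y‖ ^ 2 / y.im := by simp
    rw [h3] at h2
    apply h2.congr'
    filter_upwards [hpos] with ε hε
    have h4 : (ε : ℂ) ≠ 0 := by exact_mod_cast hε.ne'
    have h5 : y - ε * (I * (1 + ε)) = ε * (y / ε - I * (1 + ε)) := by field_simp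
    rw [h5, norm_mul, Complex.norm_real, Real.norm_of_nonneg hε.le]
    simp only [hK]
    rw [Complex.div_ofReal_im]
    field_simp
  set δ : ℝ → ℝ := fun ε => (2 + 4 * K ε) * (2 * ‖e ε‖ / (ε * M ε)) with hδ
  have hδlim : Tendsto (fun ε : ℝ => δ ε / ε) (𝓝[>] 0) (𝓝 0) := by
    have h2 : Tendsto (fun ε : ℝ => (2 * ε + 4 * (ε * K ε)) * (2 * ‖e ε / (ε : ℂ) ^ 3‖ / M ε))
        (𝓝[>] 0) (𝓝 ((2 * 0 + 4 * (‖y‖ ^ 2 / y.im)) * (2 * ‖(0 : ℂ)‖ / B))) := by
      apply Tendsto.mul
      · exact (hε0'.const_mul _).add (hKlim.const_mul _)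
      · apply Tendsto.div _ hMlim hB.ne'
        exact (helim.norm).const_mul _
    have h3 : ((2 * 0 + 4 * (‖y‖ ^ 2 / y.im)) * (2 * ‖(0 : ℂ)‖ / B)) = 0 := by simp
    rw [h3] at h2
    apply h2.congr'
    filter_upwards [hpos, hMpos] with ε hε hMε
    rw [norm_div, norm_pow, Complex.norm_real, Real.norm_of_nonneg hε.le]
    simp only [hδ]
    field_simp
  -- final
  have hsm : ∀ᶠ ε : ℝ in 𝓝[>] 0, δ ε * ‖y / ε + I‖ ≤ 1 := by
    have h2 : Tendsto (fun ε : ℝ => δ ε / ε * ‖y + ε * I‖) (𝓝[>] 0) (𝓝 (0 * ‖y + 0 * I‖)) :=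
      hδlim.mul ((hε0.mul_const _).const_add _).norm
    rw [zero_mul] at h2
    have h3 := h2.eventually (gt_mem_nhds (zero_lt_one))
    filter_upwards [h3, hpos] with ε h4 hε
    have h5 : (ε : ℂ) ≠ 0 := by exact_mod_cast hε.ne'
    have h6 : y + ε * I = ε * (y / ε + I) := by field_simp
    rw [h6, norm_mul, Complex.norm_real, Real.norm_of_nonneg hε.le] at h4
    have h7 : δ ε / ε * (ε * ‖y / ε + I‖) = δ ε * ‖y / ε + I‖ := by field_simp
    rw [h7] at h4
    exact h4.le
  have hesm : ∀ᶠ ε : ℝ in 𝓝[>] 0, ‖e ε‖ ≤ M ε := by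
    have h2 : Tendsto (fun ε : ℝ => M ε - ‖e ε / (ε : ℂ) ^ 3 * (ε : ℂ) ^ 3‖) (𝓝[>] 0)
        (𝓝 (B - ‖(0 : ℂ) * 0 ^ 3‖)) := hMlim.sub (helim.mul (hε0.pow 3)).norm
    have h3 : B - ‖(0 : ℂ) * 0 ^ 3‖ = B := by simp
    rw [h3] at h2
    filter_upwards [h2.eventually (lt_mem_nhds hB), hpos] with ε h4 hε
    have h5 : (ε : ℂ) ≠ 0 := by exact_mod_cast hε.ne'
    have h6 : e ε / (ε : ℂ) ^ 3 * (ε : ℂ) ^ 3 = e ε := by field_simp
    rw [h6] at h4
    linarith
  have hbound : ∀ᶠ ε : ℝ in 𝓝[>] 0,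
      ‖ε * G ε (y / ε) - (ε * (G ε I).re + M ε * y)‖ ≤ M ε * (δ ε / ε) * ‖y + ε * I‖ ^ 2 := by
    filter_upwards [hpos, hMpos, hsm, hesm] with ε hε hMε hs1 hs2
    have him1 : 0 < (y / (ε : ℂ)).im := by
      rw [Complex.div_ofReal_im]; positivity
    have h2 := nearExtremal (hd ε hε) (him ε hε) (M := M ε) (ε := ε) (K := K ε) (δ := δ ε) rfl hMε
      hε (e := e ε) rfl hs2 him1 rfl rfl hs1
    have h5 : (ε : ℂ) ≠ 0 := by exact_mod_cast hε.ne'
    have h6 : y + ε * I = ε * (y / ε + I) := by field_simp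
    have h7 : (ε : ℂ) * G ε (y / ε) - (ε * (G ε I).re + M ε * y) =
      ε * (G ε (y / ε) - (G ε I).re - M ε * (y / ε)) := by field_simp; ring
    rw [h6, h7, norm_mul, norm_mul, Complex.norm_real, Real.norm_of_nonneg hε.le]
    calc ε * ‖G ε (y / ε) - (G ε I).re - M ε * (y / ε)‖ ≤ ε * (M ε * δ ε * ‖y / ε + I‖ ^ 2) := by
          gcongr
      _ = M ε * (δ ε / ε) * (ε * ‖y / ε + I‖) ^ 2 := by
          field_simp
  have hzero : Tendsto (fun ε : ℝ => ε * G ε (y / ε) - (ε * (G ε I).re + M ε * y)) (𝓝[>] 0)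
      (𝓝 0) := by
    apply squeeze_zero_norm' hbound
    have h2 : Tendsto (fun ε : ℝ => M ε * (δ ε / ε) * ‖y + ε * I‖ ^ 2) (𝓝[>] 0)
        (𝓝 (B * 0 * ‖y + 0 * I‖ ^ 2)) :=
      (hMlim.mul hδlim).mul (((hε0.mul_const _).const_add _).norm.pow 2)
    rw [mul_zero, zero_mul] at h2
    exact h2
  have h8 : Tendsto (fun ε : ℝ => (ε : ℂ) * ((G ε I).re : ℂ) + M ε * y) (𝓝[>] 0)
      (𝓝 (0 * ((X + B * I : ℂ).re : ℂ) + B * y)) := by
    apply Tendsto.add
    · apply Tendsto.mul hε0
      exact (Complex.continuous_ofReal.tendsto _).comp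
        ((Complex.continuous_re.tendsto _).comp hGI)
    · apply Tendsto.mul_const
      exact (Complex.continuous_ofReal.tendsto _).comp hMlim
  have h9 := hzero.add h8
  simp only [sub_add_cancel, zero_mul, zero_add] at h9
  exact h9

end Pool.Agent.Lib.MP_96bc49_an
end

section

namespace Pool.Agent.Lib.MP_96bc49_an

open Complex Set Filter Topology Metric Asymptotics

/-- identity theorem along a vertical half line -/
theorem eq_zero_of_vertical {f : ℂ → ℂ} (hd : DifferentiableOn ℂ f {z | 0 < z.im}) (r : ℝ)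
    (h : ∀ t : ℝ, 0 < t → f (r + t * I) = 0) {z : ℂ} (hz : 0 < z.im) : f z = 0 := by
  have hA : AnalyticOnNhd ℂ f {z | 0 < z.im} := hd.analyticOnNhd isOpen_U
  have hconv : Convex ℝ {z : ℂ | 0 < z.im} := convex_halfSpace_im_gt 0
  have h1 : (r + I : ℂ) ∈ {z : ℂ | 0 < z.im} := by simp
  refine hA.eqOn_zero_of_preconnected_of_frequently_eq_zero hconv.isPreconnected h1 ?_ hz
  have h2 : Tendsto (fun t : ℝ => (r + (1 + t) * I : ℂ)) (𝓝[>] 0) (𝓝[≠] (r + I)) := by
    rw [tendsto_nhdsWithin_iff]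
    constructor
    · have h3 : Tendsto (fun t : ℝ => (r + (1 + t) * I : ℂ)) (𝓝[>] 0) (𝓝 (r + (1 + 0) * I)) :=
        ((tendsto_ofReal_zero.const_add _).mul_const _).const_add _
      simpa using h3
    · filter_upwards [self_mem_nhdsWithin] with t ht
      have ht' : (0:ℝ) < t := ht
      intro h4
      have h5 := congrArg Complex.im h4
      simp at h5
      linarith
  apply h2.frequently
  apply Eventually.frequently
  filter_upwards [self_mem_nhdsWithin] with t ht
  have ht' : (0:ℝ) < t := ht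
  have := h (1 + t) (by linarith)
  push_cast at this
  exact this

variable {ι : Type*} [Fintype ι]

/-- The polydomain `U^ι`. -/
def UU (ι : Type*) : Set (ι → ℂ) := {x | ∀ j, 0 < (x j).im}

theorem path_lemma {Φ : (ι → ℂ) → ℂ} {c : ι → ℂ}
    (hT : (fun x => Φ x - ∑ j, x j) =o[𝓝[UU ι] c] (fun x => ‖x - c‖ ^ 3))
    {x : ℝ → (ι → ℂ)} (hx : ∀ᶠ ε in 𝓝[>] (0:ℝ), x ε ∈ UU ι)
    (hO : (fun ε => x ε - c) =O[𝓝[>] (0:ℝ)] (fun ε : ℝ => ε)) :
    Tendsto (fun ε : ℝ => (Φ (x ε) - ∑ j, x ε j) / (ε : ℂ) ^ 3) (𝓝[>] 0) (𝓝 0) := by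
  have hε0' : Tendsto (fun ε : ℝ => ε) (𝓝[>] 0) (𝓝 0) := by
    apply Tendsto.mono_left _ nhdsWithin_le_nhds
    exact tendsto_id
  have h1 : Tendsto (fun ε => x ε - c) (𝓝[>] 0) (𝓝 0) := hO.trans_tendsto hε0'
  have h2 : Tendsto x (𝓝[>] 0) (𝓝[UU ι] c) := by
    rw [tendsto_nhdsWithin_iff]
    refine ⟨?_, hx⟩
    have := h1.add_const c
    simpa using this
  have h3 := hT.comp_tendsto h2
  have h4 : ((fun x => ‖x - c‖ ^ 3) ∘ x) =O[𝓝[>] (0:ℝ)] (fun ε : ℝ => ε ^ 3) := by
    have := (hO.norm_left).pow 3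
    simpa [Function.comp_def] using this
  have h5 := h3.trans_isBigO h4
  have h6 : (fun ε : ℝ => Φ (x ε) - ∑ j, x ε j) =o[𝓝[>] (0:ℝ)] (fun ε : ℝ => (ε : ℂ) ^ 3) := by
    refine h5.trans_isBigO ?_
    apply IsBigO.of_bound 1
    apply Eventually.of_forall
    intro ε
    simp
  exact h6.tendsto_div_nhds_zero

theorem alpha {Φ : (ι → ℂ) → ℂ} (hd : DifferentiableOn ℂ Φ (UU ι))
    (him : ∀ x ∈ UU ι, 0 ≤ (Φ x).im) {c : ι → ℂ} (hc : ∀ j, 0 ≤ (c j).im)
    (hT : (fun x => Φ x - ∑ j, x j) =o[𝓝[UU ι] c] (fun x => ‖x - c‖ ^ 3))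
    {a : ι → ℝ} (ha1 : ∀ j, (c j).im = 0 → 0 < a j) (ha2 : ∀ j, 0 < (c j).im → a j = 0)
    {y : ℂ} (hy : 0 < y.im) : ∑ j, (c j).im ≤ (Φ (fun j => c j + y * a j)).im := by
  have ha : ∀ j, 0 ≤ a j := by
    intro j
    rcases (hc j).eq_or_lt with h | h
    · exact (ha1 j h.symm).le
    · exact (ha2 j h).ge
  have hab : ∀ j, ∀ s t : ℝ, 0 < s → 0 < t → 0 < a j * s + (c j).im * t := by
    intro j s t hs ht
    rcases (hc j).eq_or_lt with h | h
    · have := ha1 j h.symm
      rw [← h]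
      have := mul_pos this hs
      linarith
    · rw [ha2 j h]
      have := mul_pos h ht
      linarith
  set A : ℝ := ∑ j, a j with hA
  set B : ℝ := ∑ j, (c j).im with hB
  set X : ℝ := ∑ j, (c j).re with hX
  have hB0 : 0 ≤ B := Finset.sum_nonneg (fun j _ => hc j)
  rcases hB0.eq_or_lt with h0 | hBpos
  · rw [← h0]
    apply him
    intro j
    have := hab j y.im 1 hy one_pos
    simp
    nlinarith [hc j, ha j]
  set k : ℂ → ℂ := fun s => Φ (fun j => (c j).re + y * a j + (c j).im * s) with hk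
  have hkd : DifferentiableOn ℂ k {z | 0 < z.im} := by
    apply hd.comp
    · fun_prop
    · intro s hs j
      have := hab j y.im s.im hy hs
      simp
      nlinarith
  have hkim : ∀ z : ℂ, 0 < z.im → 0 ≤ (k z).im := by
    intro s hs
    apply him
    intro j
    have := hab j y.im s.im hy hs
    simp
    nlinarith
  set G : ℝ → ℂ → ℂ := fun ε s => Φ (fun j => (c j).re + (ε * a j + (c j).im) * s) with hG
  have hGd : ∀ ε : ℝ, 0 < ε → DifferentiableOn ℂ (G ε) {z | 0 < z.im} := by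
    intro ε hε
    apply hd.comp
    · fun_prop
    · intro s hs j
      have := hab j (ε * s.im) s.im (mul_pos hε hs) hs
      simp
      nlinarith
  have hGim : ∀ ε : ℝ, 0 < ε → ∀ z : ℂ, 0 < z.im → 0 ≤ (G ε z).im := by
    intro ε hε s hs
    apply him
    intro j
    have := hab j (ε * s.im) s.im (mul_pos hε hs) hs
    simp
    nlinarith

  have hlim0 : Tendsto (fun ε : ℝ => (G ε I - (X + (ε * A + B) * I)) / (ε : ℂ) ^ 3) (𝓝[>] 0)
      (𝓝 0) := by
    have h1 := path_lemma hT (x := fun ε j => (c j).re + (ε * a j + (c j).im) * I) ?_ ?_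
    · refine h1.congr ?_
      intro ε
      simp only [hG]
      congr 2
      rw [Finset.sum_add_distrib, ← Finset.sum_mul, Finset.sum_add_distrib, ← Finset.mul_sum,
        hX, hA, hB]
      push_cast
      ring
    · filter_upwards [self_mem_nhdsWithin] with ε hε j
      have hε' : (0:ℝ) < ε := hε
      have := hab j ε 1 hε' one_pos
      simp
      nlinarith
    · apply IsBigO.of_bound (∑ j, |a j|)
      filter_upwards [self_mem_nhdsWithin] with ε hε
      have hε' : (0:ℝ) < ε := hε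
      rw [pi_norm_le_iff_of_nonneg (by positivity)]
      intro j
      have h2 : ((c j).re + (ε * a j + (c j).im) * I : ℂ) - c j = (ε * a j : ℝ) * I := by
        apply Complex.ext <;> simp
      simp only [Pi.sub_apply]
      rw [h2, norm_mul, norm_I, mul_one, Complex.norm_real, norm_mul, mul_comm]
      have h3 : |a j| ≤ ∑ j, |a j| :=
        Finset.single_le_sum (f := fun j => |a j|) (fun _ _ => abs_nonneg _) (Finset.mem_univ j)
      simp only [Real.norm_eq_abs]
      gcongr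
  have hlim1 : Tendsto (fun ε : ℝ => (G ε (I * (1 + ε)) - (X + (ε * A + B) * (I * (1 + ε)))) /
      (ε : ℂ) ^ 3) (𝓝[>] 0) (𝓝 0) := by
    have h1 := path_lemma hT (x := fun ε j => (c j).re + (ε * a j + (c j).im) * (I * (1 + ε))) ?_ ?_
    · refine h1.congr ?_
      intro ε
      simp only [hG]
      congr 2
      rw [Finset.sum_add_distrib, ← Finset.sum_mul, Finset.sum_add_distrib, ← Finset.mul_sum,
        hX, hA, hB]
      push_cast
      ring
    · filter_upwards [self_mem_nhdsWithin] with ε hε j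
      have hε' : (0:ℝ) < ε := hε
      have := hab j (ε * (1 + ε)) (1 + ε) (by positivity) (by positivity)
      simp
      nlinarith
    · apply IsBigO.of_bound (∑ j, (2 * |a j| + |(c j).im|))
      have hle : ∀ᶠ ε in 𝓝[>] (0:ℝ), ε < 1 := by
        apply nhdsWithin_le_nhds
        exact gt_mem_nhds one_pos
      filter_upwards [self_mem_nhdsWithin, hle] with ε hε hε1
      have hε' : (0:ℝ) < ε := hε
      rw [pi_norm_le_iff_of_nonneg (by positivity)]
      intro j
      have h2 : ((c j).re + (ε * a j + (c j).im) * (I * (1 + ε)) : ℂ) - c j =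
          (ε * (a j * (1 + ε) + (c j).im) : ℝ) * I := by
        apply Complex.ext
        · simp
        · simp
          ring
      simp only [Pi.sub_apply]
      rw [h2, norm_mul, norm_I, mul_one, Complex.norm_real, norm_mul, mul_comm]
      have h3 : 2 * |a j| + |(c j).im| ≤ ∑ j, (2 * |a j| + |(c j).im|) :=
        Finset.single_le_sum (f := fun j => (2 * |a j| + |(c j).im|)) (fun _ _ => by positivity)
          (Finset.mem_univ j)
      simp only [Real.norm_eq_abs]
      have h4 : |a j * (1 + ε) + (c j).im| ≤ 2 * |a j| + |(c j).im| := by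
        calc |a j * (1 + ε) + (c j).im| ≤ |a j * (1 + ε)| + |(c j).im| := abs_add_le _ _
          _ = |a j| * (1 + ε) + |(c j).im| := by
            rw [abs_mul, abs_of_pos (show (0:ℝ) < 1 + ε by linarith)]
          _ ≤ _ := by nlinarith [abs_nonneg (a j)]
      gcongr
      exact h4.trans h3
  have hlim := nearExtremal_limit hGd hGim hBpos hlim0 hlim1 hy
  have hlim' : Tendsto (fun ε : ℝ => ε * k (y / ε)) (𝓝[>] 0) (𝓝 (B * y)) := by
    apply hlim.congr'
    filter_upwards [self_mem_nhdsWithin] with ε hε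
    have hε' : (ε : ℂ) ≠ 0 := by
      have : (0:ℝ) < ε := hε
      exact_mod_cast this.ne'
    simp only [hG, hk]
    congr 2
    funext j
    field_simp
    ring
  have h5 := juliaInf hkd hkim hy hB0 hlim' (z := I) (by simp)
  simp only [Complex.I_im, mul_one, hk] at h5
  convert h5 using 3
  funext j
  nth_rewrite 1 [← Complex.re_add_im (c j)]
  ring

theorem beta {Φ : (ι → ℂ) → ℂ} (hd : DifferentiableOn ℂ Φ (UU ι))
    (him : ∀ x ∈ UU ι, 0 ≤ (Φ x).im) {c : ι → ℂ} (hc : ∀ j, 0 ≤ (c j).im)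
    (hne : ∃ j, (c j).im = 0)
    (hT : (fun x => Φ x - ∑ j, x j) =o[𝓝[UU ι] c] (fun x => ‖x - c‖ ^ 3))
    {a : ι → ℝ} (ha1 : ∀ j, (c j).im = 0 → 0 < a j) (ha2 : ∀ j, 0 < (c j).im → a j = 0)
    {y : ℂ} (hy : 0 < y.im) :
    Φ (fun j => c j + y * a j) = ∑ j, (c j + y * a j) := by
  have ha : ∀ j, 0 ≤ a j := by
    intro j
    rcases (hc j).eq_or_lt with h | h
    · exact (ha1 j h.symm).le
    · exact (ha2 j h).ge
  have hab : ∀ j, ∀ s : ℝ, 0 < s → 0 < (c j).im + s * a j := by
    intro j s hs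
    rcases (hc j).eq_or_lt with h | h
    · have := ha1 j h.symm
      rw [← h]
      have := mul_pos hs this
      linarith
    · rw [ha2 j h]
      linarith
  set A : ℝ := ∑ j, a j with hA
  have hApos : 0 < A := by
    obtain ⟨j, hj⟩ := hne
    exact Finset.sum_pos' (fun j _ => ha j) ⟨j, Finset.mem_univ j, ha1 j hj⟩
  have hA' : (A : ℂ) ≠ 0 := by exact_mod_cast hApos.ne'
  set R : ℂ → ℂ := fun w => (Φ (fun j => c j + w * a j) - ∑ j, c j) / A with hR
  have hRd : DifferentiableOn ℂ R {z | 0 < z.im} := by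
    apply DifferentiableOn.div_const
    apply DifferentiableOn.sub_const
    apply hd.comp
    · fun_prop
    · intro s hs j
      have := hab j s.im hs
      simpa using this
  have hRim : ∀ z : ℂ, 0 < z.im → 0 ≤ (R z).im := by
    intro z hz
    have h1 := alpha hd him hc hT ha1 ha2 hz
    simp only [hR, Complex.div_ofReal_im, Complex.sub_im, Complex.im_sum]
    apply div_nonneg _ hApos.le
    linarith
  have hlim := path_lemma hT (x := fun ε j => c j + (ε * I) * a j) (by
      filter_upwards [self_mem_nhdsWithin] with ε hε j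
      have hε' : (0:ℝ) < ε := hε
      have := hab j ε hε'
      simpa using this) (by
      apply IsBigO.of_bound (∑ j, |a j|)
      filter_upwards [self_mem_nhdsWithin] with ε hε
      have hε' : (0:ℝ) < ε := hε
      rw [pi_norm_le_iff_of_nonneg (by positivity)]
      intro j
      simp only [Pi.sub_apply, add_sub_cancel_left, norm_mul, norm_I, mul_one, Complex.norm_real]
      rw [mul_comm]
      have h3 : |a j| ≤ ∑ j, |a j| :=
        Finset.single_le_sum (f := fun j => |a j|) (fun _ _ => abs_nonneg _) (Finset.mem_univ j)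
      simp only [Real.norm_eq_abs]
      gcongr)
  have hlim2 : Tendsto (fun ε : ℝ => (R (ε * I) - ε * I) / (ε : ℂ) ^ 3) (𝓝[>] 0) (𝓝 0) := by
    have h1 := hlim.div_const (A : ℂ)
    rw [zero_div] at h1
    refine h1.congr ?_
    intro ε
    simp only [hR]
    rw [Finset.sum_add_distrib, ← Finset.mul_sum]
    have : ((∑ j, (a j : ℂ))) = (A : ℂ) := by rw [hA]; push_cast; rfl
    rw [this]
    field_simp
    ring
  have h2 := bkU hRd hRim hlim2 hy
  simp only [hR] at h2
  rw [div_eq_iff hA'] at h2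
  rw [Finset.sum_add_distrib, ← Finset.mul_sum]
  have : ((∑ j, (a j : ℂ))) = (A : ℂ) := by rw [hA]; push_cast; rfl
  rw [this]
  linear_combination h2

open Classical in
theorem gamma0 {Φ : (ι → ℂ) → ℂ} (hd : DifferentiableOn ℂ Φ (UU ι))
    (him : ∀ x ∈ UU ι, 0 ≤ (Φ x).im) {c : ι → ℂ} (hc : ∀ j, 0 ≤ (c j).im)
    (hne : ∃ j, (c j).im = 0)
    (hT : (fun x => Φ x - ∑ j, x j) =o[𝓝[UU ι] c] (fun x => ‖x - c‖ ^ 3))
    {x : ι → ℂ} (hx : x ∈ UU ι) (hxc : ∀ j, 0 < (c j).im → x j = c j) :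
    Φ x = ∑ j, x j := by
  have key : ∀ J : Finset ι, ∀ x ∈ UU ι, (∀ j, 0 < (c j).im → x j = c j) →
      (∀ j, j ∉ J → (c j).im = 0 → (x j).re = (c j).re) → Φ x = ∑ j, x j := by
    intro J
    induction J using Finset.induction_on with
    | empty =>
      intro x hx hxc hxr
      have h1 := beta hd him hc hne hT (a := fun j => if (c j).im = 0 then (x j).im else 0)
        (by
          intro j hj
          simp only [hj, if_true]
          exact hx j)
        (by
          intro j hj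
          simp only [hj.ne', if_false])
        (y := I) (by simp)
      have h2 : (fun j => c j + I * ((if (c j).im = 0 then (x j).im else 0 : ℝ) : ℂ)) = x := by
        funext j
        by_cases hj : (c j).im = 0
        · simp only [hj, if_true]
          have h3 := hxr j (Finset.notMem_empty j) hj
          apply Complex.ext
          · simp [h3]
          · simp [hj]
        · simp only [hj, if_false]
          have h3 := hxc j (lt_of_le_of_ne (hc j) (Ne.symm hj))
          simp [h3]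
      rw [h2] at h1
      exact h1
    | insert j₀ J hj₀ ih =>
      intro x hx hxc hxr
      by_cases hcj : (c j₀).im = 0
      · set f : ℂ → ℂ := fun w => Φ (Function.update x j₀ w) - ∑ j, Function.update x j₀ w j with hf
        have hup : ∀ w : ℂ, 0 < w.im → Function.update x j₀ w ∈ UU ι := by
          intro w hw j
          by_cases hj : j = j₀
          · subst hj; simpa using hw
          · simp only [Function.update_of_ne hj]
            exact hx j
        have hupd : Differentiable ℂ (fun w : ℂ => Function.update x j₀ w) := by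
          rw [differentiable_pi]
          intro j
          by_cases hj : j = j₀
          · subst hj; simp only [Function.update_self]; exact differentiable_id
          · simp only [Function.update_of_ne hj]; exact differentiable_const _
        have hfd : DifferentiableOn ℂ f {z | 0 < z.im} := by
          apply DifferentiableOn.sub
          · apply hd.comp hupd.differentiableOn
            intro w hw
            exact hup w hw
          · apply DifferentiableOn.fun_sum
            intro j _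
            exact ((differentiable_pi.1 hupd) j).differentiableOn
        have hf0 : f (x j₀) = 0 := by
          apply eq_zero_of_vertical hfd (c j₀).re _ (hx j₀)
          intro t ht
          have ht' : 0 < ((c j₀).re + t * I : ℂ).im := by simpa using ht
          have h1 := ih (Function.update x j₀ ((c j₀).re + t * I)) (hup _ ht') (by
            intro j hj
            have hne' : j ≠ j₀ := by
              rintro rfl
              rw [hcj] at hj
              exact lt_irrefl _ hj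
            rw [Function.update_of_ne hne']
            exact hxc j hj) (by
            intro j hj hj2
            by_cases hjj : j = j₀
            · subst hjj
              simp
            · rw [Function.update_of_ne hjj]
              apply hxr j _ hj2
              simp [hjj, hj])
          simp only [hf]
          rw [h1, sub_self]
        simp only [hf, Function.update_eq_self] at hf0
        exact sub_eq_zero.1 hf0
      · apply ih x hx hxc
        intro j hj hj2
        by_cases hjj : j = j₀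
        · subst hjj
          exact absurd hj2 hcj
        · apply hxr j _ hj2
          simp [hjj, hj]
  exact key Finset.univ x hx hxc (fun j hj => absurd (Finset.mem_univ j) hj)

end Pool.Agent.Lib.MP_96bc49_an
end
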