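import Mathlib
import Pool.Agent.Lib.MP_96bc49_an.PowerBounded
import Pool.Agent.Lib.MP_96bc49_an.Slices

section

namespace Pool.Agent.Lib.MP_96bc49_an

open Set Filter Topology Metric Asymptotics

variable {E : Type*} [NormedAddCommGroup E] [NormedSpace ℂ E]

/-- Quantitative first order Taylor estimate. -/
theorem taylor_one {φ : ℂ → E} {r R : ℝ} (hr : 0 < r) (hφ : DifferentiableOn ℂ φ (ball 0 r))
    (hR : ∀ θ ∈ ball (0 : ℂ) r, ‖φ θ‖ ≤ R) {L : E} (hL : HasDerivAt φ L 0) {θ : ℂ}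
    (hθ : ‖θ‖ < r) : ‖φ θ - φ 0 - θ • L‖ ≤ 4 * R * (‖θ‖ / r) ^ 2 := by
  have h0 : (0 : ℂ) ∈ ball (0 : ℂ) r := mem_ball_self hr
  have hLn : ‖L‖ ≤ 2 * R / r := by
    rw [← hL.deriv]
    apply Complex.norm_deriv_le_div_of_mapsTo_ball hφ _ hr
    intro w hw
    rw [mem_closedBall, dist_eq_norm]
    calc ‖φ w - φ 0‖ ≤ ‖φ w‖ + ‖φ 0‖ := norm_sub_le _ _
      _ ≤ 2 * R := by linarith [hR w hw, hR 0 h0]
  set ψ : ℂ → E := fun θ => φ θ - θ • L with hψ
  have hψd : DifferentiableOn ℂ ψ (ball 0 r) := by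
    apply hφ.sub
    fun_prop
  have hψ0 : ψ 0 = φ 0 := by simp [hψ]
  have hm : MapsTo ψ (ball 0 r) (closedBall (ψ 0) (4 * R)) := by
    intro w hw
    rw [mem_closedBall, dist_eq_norm, hψ0]
    have h1 : ‖w‖ < r := by simpa using hw
    have h2 : ‖w • L‖ ≤ 2 * R := by
      rw [norm_smul]
      calc ‖w‖ * ‖L‖ ≤ r * (2 * R / r) := by gcongr
        _ = 2 * R := by field_simp
    have h3 : ψ w - φ 0 = (φ w - φ 0) - w • L := by simp only [hψ]; abel
    rw [h3]
    calc ‖(φ w - φ 0) - w • L‖ ≤ ‖φ w - φ 0‖ + ‖w • L‖ := norm_sub_le _ _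
      _ ≤ (‖φ w‖ + ‖φ 0‖) + ‖w • L‖ := by gcongr; exact norm_sub_le _ _
      _ ≤ 4 * R := by linarith [hR w hw, hR 0 h0]
  have ho : (fun w => ψ w - ψ 0) =o[𝓝 0] (fun w : ℂ => ‖w - 0‖ ^ 1) := by
    have h1 := (hasDerivAt_iff_isLittleO.1 hL).norm_right
    refine h1.congr ?_ ?_
    · intro w
      simp only [hψ, sub_zero, zero_smul]
      abel
    · intro w
      simp
  have h1 := Complex.dist_le_mul_div_pow_of_mapsTo_ball_of_isLittleO (n := 1) hψd hm ho
    (z := θ) (by simpa using hθ)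
  rw [dist_eq_norm, dist_zero_right, hψ0] at h1
  have h2 : ψ θ - φ 0 = φ θ - φ 0 - θ • L := by simp only [hψ]; abel
  rw [h2] at h1
  exact h1

theorem differentiableOn_fderiv_comp [CompleteSpace E] {D : Set E} (hD : IsOpen D) {F : E → E}
    (hF : DifferentiableOn ℂ F D) {R : ℝ} (hR : ∀ z ∈ D, ‖F z‖ ≤ R) {z : ℂ → E} {V : Set ℂ}
    (hV : IsOpen V) (hz : DifferentiableOn ℂ z V) (hzm : MapsTo z V D) (w : E) :
    DifferentiableOn ℂ (fun ρ => fderiv ℂ F (z ρ) w) V := by
  intro ρ₀ hρ₀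
  apply DifferentiableAt.differentiableWithinAt
  obtain ⟨r, hr, hball⟩ := Metric.isOpen_iff.1 hD (z ρ₀) (hzm hρ₀)
  have hR0 : 0 ≤ R := (norm_nonneg _).trans (hR _ (hzm hρ₀))
  -- neighbourhood
  have hcont : ContinuousAt z ρ₀ := (hz.differentiableAt (hV.mem_nhds hρ₀)).continuousAt
  have h1 : ∀ᶠ ρ in 𝓝 ρ₀, z ρ ∈ ball (z ρ₀) (r / 2) :=
    hcont.eventually (ball_mem_nhds _ (by linarith))
  obtain ⟨δ, hδ, hU⟩ := Metric.eventually_nhds_iff_ball.1 (h1.and (hV.mem_nhds hρ₀))
  set U := ball ρ₀ δ with hUdef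
  set r' : ℝ := r / 2 / (‖w‖ + 1) with hr'
  have hw1 : 0 < ‖w‖ + 1 := by positivity
  have hr'pos : 0 < r' := by positivity
  have hmem : ∀ ρ ∈ U, ∀ θ : ℂ, ‖θ‖ < r' → z ρ + θ • w ∈ D := by
    intro ρ hρ θ hθ
    apply hball
    have h2 := (hU ρ hρ).1
    rw [mem_ball, dist_eq_norm] at h2 ⊢
    have h3 : ‖θ • w‖ ≤ r / 2 := by
      rw [norm_smul]
      calc ‖θ‖ * ‖w‖ ≤ r' * (‖w‖ + 1) := by gcongr; linarith
        _ = r / 2 := by rw [hr']; field_simp
    have h4 : z ρ + θ • w - z ρ₀ = (z ρ - z ρ₀) + θ • w := by abel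
    rw [h4]
    calc ‖(z ρ - z ρ₀) + θ • w‖ ≤ ‖z ρ - z ρ₀‖ + ‖θ • w‖ := norm_add_le _ _
      _ < r := by linarith
  set h : ℕ → ℝ := fun m => r' / (m + 2) with hh
  have hhpos : ∀ m, 0 < h m := fun m => by positivity
  have hhlt : ∀ m, h m < r' := by
    intro m
    rw [hh]
    simp only
    rw [div_lt_iff₀ (by positivity)]
    have : (0:ℝ) ≤ m := by positivity
    nlinarith
  have hhn : ∀ m, ‖((h m : ℝ) : ℂ)‖ = h m := by
    intro m
    rw [Complex.norm_real, Real.norm_of_nonneg (hhpos m).le]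
  set G : ℕ → ℂ → E := fun m ρ => ((h m : ℝ) : ℂ)⁻¹ • (F (z ρ + ((h m : ℝ) : ℂ) • w) - F (z ρ)) with hG
  have hGd : ∀ m, DifferentiableOn ℂ (G m) U := by
    intro m
    apply DifferentiableOn.const_smul
    have hzU : DifferentiableOn ℂ z U := hz.mono (fun ρ hρ => (hU ρ hρ).2)
    apply DifferentiableOn.sub
    · apply hF.comp (hzU.add_const _)
      intro ρ hρ
      exact hmem ρ hρ _ (by rw [hhn]; exact hhlt m)
    · apply hF.comp hzU
      intro ρ hρ
      exact hzm (hU ρ hρ).2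
  have hest : ∀ m, ∀ ρ ∈ U, ‖fderiv ℂ F (z ρ) w - G m ρ‖ ≤ 4 * R / r' ^ 2 * h m := by
    intro m ρ hρ
    have hzρ : z ρ ∈ D := hzm (hU ρ hρ).2
    have hFd : HasFDerivAt F (fderiv ℂ F (z ρ)) (z ρ) :=
      (hF.differentiableAt (hD.mem_nhds hzρ)).hasFDerivAt
    have hline : HasDerivAt (fun θ : ℂ => z ρ + θ • w) w 0 := by
      have := ((hasDerivAt_id (0 : ℂ)).smul_const w).const_add (z ρ)
      simpa using this
    have hder : HasDerivAt (fun θ : ℂ => F (z ρ + θ • w)) (fderiv ℂ F (z ρ) w) 0 := by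
      have h5 : HasFDerivAt F (fderiv ℂ F (z ρ)) ((fun θ : ℂ => z ρ + θ • w) 0) := by simpa using hFd
      exact h5.comp_hasDerivAt (0 : ℂ) hline
    have hdiff : DifferentiableOn ℂ (fun θ : ℂ => F (z ρ + θ • w)) (ball 0 r') := by
      apply hF.comp
      · fun_prop
      · intro θ hθ
        exact hmem ρ hρ θ (by simpa using hθ)
    have h6 := taylor_one hr'pos hdiff (R := R) (by
      intro θ hθ
      exact hR _ (hmem ρ hρ θ (by simpa using hθ))) hder (θ := ((h m : ℝ) : ℂ))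
      (by rw [hhn]; exact hhlt m)
    simp only [zero_smul, add_zero] at h6
    rw [hhn] at h6
    have hne : ((h m : ℝ) : ℂ) ≠ 0 := by exact_mod_cast (hhpos m).ne'
    have h7 : fderiv ℂ F (z ρ) w - G m ρ = -(((h m : ℝ) : ℂ)⁻¹ •
        (F (z ρ + ((h m : ℝ) : ℂ) • w) - F (z ρ) - ((h m : ℝ) : ℂ) • fderiv ℂ F (z ρ) w)) := by
      simp only [hG]
      rw [smul_sub _ (_ - _), smul_smul, inv_mul_cancel₀ hne, one_smul]
      abel
    rw [h7, norm_neg, norm_smul, norm_inv, hhn]
    calc (h m)⁻¹ * ‖F (z ρ + ((h m : ℝ) : ℂ) • w) - F (z ρ) - ((h m : ℝ) : ℂ) • fderiv ℂ F (z ρ) w‖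
        ≤ (h m)⁻¹ * (4 * R * (h m / r') ^ 2) := by
          gcongr
      _ = 4 * R / r' ^ 2 * h m := by
          have := (hhpos m).ne'
          field_simp
  have hlim : TendstoUniformlyOn G (fun ρ => fderiv ℂ F (z ρ) w) atTop U := by
    rw [Metric.tendstoUniformlyOn_iff]
    intro ε hε
    have h8 : Tendsto (fun m : ℕ => 4 * R / r' ^ 2 * h m) atTop (𝓝 (4 * R / r' ^ 2 * 0)) := by
      apply Tendsto.const_mul
      simp only [hh]
      apply Tendsto.div_atTop tendsto_const_nhds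
      apply tendsto_atTop_add_const_right
      exact tendsto_natCast_atTop_atTop
    rw [mul_zero] at h8
    filter_upwards [h8.eventually (gt_mem_nhds hε)] with m hm ρ hρ
    rw [dist_eq_norm]
    exact lt_of_le_of_lt (hest m ρ hρ) hm
  have hres := hlim.tendstoLocallyUniformlyOn.differentiableOn
    (Eventually.of_forall hGd) isOpen_ball
  exact hres.differentiableAt (ball_mem_nhds ρ₀ hδ)

end Pool.Agent.Lib.MP_96bc49_an
end

section

namespace Pool.Agent.Lib.MP_96bc49_an

open Polynomial Filter Topology Set Metric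

variable {n : ℕ}

open Classical in
/-- indices of boundary roots -/
noncomputable def bd (l : Fin n → ℂ) : Finset (Fin n) := Finset.univ.filter (fun j => ‖l j‖ = 1)

open Classical in
/-- indices of interior roots -/
noncomputable def inn (l : Fin n → ℂ) : Finset (Fin n) :=
  Finset.univ.filter (fun j => ¬ ‖l j‖ = 1)

theorem mem_bd (l : Fin n → ℂ) (j : Fin n) : j ∈ bd l ↔ ‖l j‖ = 1 := by simp [bd]

theorem mem_inn (l : Fin n → ℂ) (j : Fin n) : j ∈ inn l ↔ ¬ ‖l j‖ = 1 := by simp [inn]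

theorem card_add (l : Fin n → ℂ) : (bd l).card + (inn l).card = n := by
  classical
  have := Finset.card_filter_add_card_filter_not (s := (Finset.univ : Finset (Fin n)))
    (fun j => ‖l j‖ = 1)
  simp only [Finset.card_univ, Fintype.card_fin] at this
  rw [bd, inn]
  convert this

theorem prod_split (l : Fin n → ℂ) (f : Fin n → ℂ[X]) :
    (∏ j ∈ bd l, f j) * (∏ j ∈ inn l, f j) = ∏ j, f j := by
  classical
  have := Finset.prod_filter_mul_prod_filter_not (Finset.univ : Finset (Fin n))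
    (fun j => ‖l j‖ = 1) f
  rw [bd, inn]
  convert this

/-- boundary factor -/
noncomputable def polyA (l : Fin n → ℂ) (ρ : ℂ) : ℂ[X] := ∏ j ∈ bd l, (1 - C (ρ * l j) * X)

/-- interior factor -/
noncomputable def polyB (l : Fin n → ℂ) : ℂ[X] := ∏ j ∈ inn l, (1 - C (l j) * X)

theorem natDegree_lin_le (a : ℂ) : (1 - C a * X : ℂ[X]).natDegree ≤ 1 := by
  refine (natDegree_sub_le _ _).trans ?_
  rw [natDegree_one]
  have h1 : (C a * X : ℂ[X]).natDegree ≤ 1 := by
    refine natDegree_mul_le.trans ?_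
    rw [natDegree_C, natDegree_X]
  omega

theorem natDegree_lin_eq {a : ℂ} (ha : a ≠ 0) : (1 - C a * X : ℂ[X]).natDegree = 1 := by
  apply le_antisymm (natDegree_lin_le a)
  apply le_natDegree_of_ne_zero
  rw [coeff_sub, coeff_one, coeff_C_mul, coeff_X]
  simpa using ha

theorem natDegree_polyA_le (l : Fin n → ℂ) (ρ : ℂ) : (polyA l ρ).natDegree ≤ (bd l).card := by
  refine (natDegree_prod_le _ _).trans ?_
  refine (Finset.sum_le_sum (fun j _ => natDegree_lin_le (ρ * l j))).trans ?_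
  simp

theorem natDegree_polyA_one (l : Fin n → ℂ) : (polyA l 1).natDegree = (bd l).card := by
  have h1 : ∀ j ∈ bd l, (1 - C (1 * l j) * X : ℂ[X]).natDegree = 1 := by
    intro j hj
    apply natDegree_lin_eq
    rw [mem_bd] at hj
    intro h0
    rw [one_mul] at h0
    rw [h0, norm_zero] at hj
    exact zero_ne_one hj
  rw [polyA, natDegree_prod, Finset.sum_congr rfl h1]
  · simp
  · intro j hj h0
    have := h1 j hj
    rw [h0, natDegree_zero] at this
    exact zero_ne_one this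

theorem natDegree_polyB_le (l : Fin n → ℂ) : (polyB l).natDegree ≤ (inn l).card := by
  refine (natDegree_prod_le _ _).trans ?_
  refine (Finset.sum_le_sum (fun j _ => natDegree_lin_le (l j))).trans ?_
  simp

theorem isCoprime_lin {a b : ℂ} (hab : a ≠ b) : IsCoprime (1 - C a * X : ℂ[X]) (1 - C b * X) := by
  have h1 : b - a ≠ 0 := sub_ne_zero.2 hab.symm
  refine ⟨C (b / (b - a)), - C (a / (b - a)), ?_⟩
  have h2 : C (b / (b - a)) * (1 - C a * X : ℂ[X]) + - C (a / (b - a)) * (1 - C b * X) =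
      C (b / (b - a) - a / (b - a)) + C (a / (b - a) * b - b / (b - a) * a) * X := by
    simp only [C_sub, C_mul]
    ring
  rw [h2]
  have h3 : b / (b - a) - a / (b - a) = 1 := by field_simp
  have h4 : a / (b - a) * b - b / (b - a) * a = 0 := by ring
  rw [h3, h4]
  simp

theorem isCoprime_AB (l : Fin n → ℂ) : IsCoprime (polyA l 1) (polyB l) := by
  rw [polyA, polyB]
  apply IsCoprime.prod_left
  intro i hi
  apply IsCoprime.prod_right
  intro j hj
  apply isCoprime_lin
  rw [mem_bd] at hi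
  rw [mem_inn] at hj
  rw [one_mul]
  intro h
  rw [h] at hi
  exact hj hi

theorem decomp {A B : ℂ[X]} (hcop : IsCoprime A B) {k N : ℕ} (hkN : k + N = n)
    (hA0 : A ≠ 0) (hA : A.natDegree = k) (hB : B.natDegree ≤ N) {L : ℂ[X]} (hL : L.natDegree ≤ n)
    (hL0 : L.coeff 0 = 0) :
    ∃ C' D' : ℂ[X], C'.coeff 0 = 0 ∧ D'.coeff 0 = 0 ∧ C'.natDegree ≤ N ∧ D'.natDegree ≤ k ∧
      L = A * C' + B * D' := by
  obtain ⟨x, y, hxy⟩ := hcop
  obtain ⟨W, hW⟩ := Polynomial.X_dvd_iff.2 hL0
  set D := (W * y) % A with hD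
  set g := (W * y) / A with hg
  have hdiv : A * g + D = W * y := EuclideanDomain.div_add_mod _ _
  have hDdeg : D.degree < A.degree := Polynomial.degree_mod_lt _ hA0
  have hD' : (X * D).natDegree ≤ k := by
    by_cases h0 : D = 0
    · rw [h0, mul_zero, natDegree_zero]; exact Nat.zero_le _
    · rw [natDegree_X_mul h0]
      have := Polynomial.natDegree_lt_natDegree h0 hDdeg
      omega
  have hsum : L = A * (X * (W * x + B * g)) + B * (X * D) := by
    have h1 : A * (X * (W * x + B * g)) + B * (X * D) = X * (A * W * x + B * (A * g + D)) := by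
      ring
    rw [h1, hdiv, hW]
    have h2 : X * (A * W * x + B * (W * y)) = X * W * (x * A + y * B) := by ring
    rw [h2, hxy, mul_one]
  refine ⟨X * (W * x + B * g), X * D, by simp, by simp, ?_, hD', hsum⟩
  by_cases h0 : X * (W * x + B * g) = 0
  · rw [h0, natDegree_zero]; exact Nat.zero_le _
  · have h1 : (A * (X * (W * x + B * g))).natDegree = k + (X * (W * x + B * g)).natDegree := by
      rw [natDegree_mul hA0 h0, hA]
    have h2 : A * (X * (W * x + B * g)) = L - B * (X * D) := by rw [hsum]; ring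
    have h3 : (L - B * (X * D)).natDegree ≤ n := by
      refine (natDegree_sub_le _ _).trans ?_
      apply max_le hL
      refine natDegree_mul_le.trans ?_
      omega
    rw [h2] at h1
    omega

theorem factor (S : Finset (Fin n)) {Q : ℂ[X]} (h0 : Q.coeff 0 = 1) (hdeg : Q.natDegree ≤ S.card)
    (hne : ∀ u : ℂ, ‖u‖ ≤ 1 → Q.eval u ≠ 0) :
    ∃ m : Fin n → ℂ, (∀ j, ‖m j‖ < 1) ∧ Q = ∏ j ∈ S, (1 - C (m j) * X) := by
  classical
  have hq : q S.card (unlin S.card (Q - 1)) = Q := by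
    rw [q, lin_unlin]
    · ring
    · rw [coeff_sub, h0]; simp
    · refine (natDegree_sub_le _ _).trans ?_
      rw [natDegree_one]
      omega
  have hmem : unlin S.card (Q - 1) ∈ symmPolydisc S.card := by
    rw [mem_symmPolydisc_iff, hq]
    exact hne
  obtain ⟨m', hm', hm'2⟩ := hmem
  rw [← hm'2, q_symmMap] at hq
  refine ⟨fun j => if h : j ∈ S then m' (S.equivFin ⟨j, h⟩) else 0, ?_, ?_⟩
  · intro j
    by_cases h : j ∈ S
    · simp only [h, dif_pos]
      exact hm' _
    · simp [h]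
  · rw [← hq, ← Equiv.prod_comp S.equivFin]
    rw [← Finset.prod_coe_sort S]
    apply Finset.prod_congr rfl
    rintro ⟨j, hj⟩ _
    simp [hj]

theorem polyA_coeff (l : Fin n → ℂ) (ρ : ℂ) (i : ℕ) :
    (polyA l ρ).coeff i = (polyA l 1).coeff i * ρ ^ i := by
  have h1 : polyA l ρ = (polyA l 1).comp (C ρ * X) := by
    rw [polyA, polyA, Polynomial.prod_comp]
    apply Finset.prod_congr rfl
    intro j _
    simp only [sub_comp, one_comp, mul_comp, C_comp, X_comp, one_mul, C_mul]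
    ring
  rw [h1, Polynomial.comp_C_mul_X_coeff]

theorem polyA_eval (l : Fin n → ℂ) (ρ u : ℂ) : (polyA l ρ).eval u = ∏ j ∈ bd l, (1 - ρ * l j * u) := by
  rw [polyA, eval_prod]
  simp

theorem polyB_eval (l : Fin n → ℂ) (u : ℂ) : (polyB l).eval u = ∏ j ∈ inn l, (1 - l j * u) := by
  rw [polyB, eval_prod]
  simp

theorem one_sub_ne' {w : ℂ} (hw : ‖w‖ < 1) : 1 - w ≠ 0 := by
  intro h0
  have : w = 1 := by linear_combination -h0
  rw [this, norm_one] at hw
  exact lt_irrefl _ hw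

theorem polyA_eval_ne (l : Fin n → ℂ) {ρ u : ℂ} (hρ : ‖ρ‖ < 1) (hu : ‖u‖ ≤ 1) :
    (polyA l ρ).eval u ≠ 0 := by
  rw [polyA_eval, Finset.prod_ne_zero_iff]
  intro j hj
  rw [mem_bd] at hj
  apply one_sub_ne'
  rw [norm_mul, norm_mul, hj, mul_one]
  nlinarith [norm_nonneg ρ, norm_nonneg u]

theorem polyB_eval_ne {l : Fin n → ℂ} (hl : ∀ j, ‖l j‖ ≤ 1) {u : ℂ} (hu : ‖u‖ ≤ 1) :
    (polyB l).eval u ≠ 0 := by
  rw [polyB_eval, Finset.prod_ne_zero_iff]
  intro j hj
  rw [mem_inn] at hj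
  apply one_sub_ne'
  rw [norm_mul]
  have h1 : ‖l j‖ < 1 := lt_of_le_of_ne (hl j) hj
  nlinarith [norm_nonneg (l j), norm_nonneg u]

theorem polyA_coeff_zero (l : Fin n → ℂ) (ρ : ℂ) : (polyA l ρ).coeff 0 = 1 := by
  rw [coeff_zero_eq_eval_zero, polyA_eval]
  simp

theorem polyB_coeff_zero (l : Fin n → ℂ) : (polyB l).coeff 0 = 1 := by
  rw [coeff_zero_eq_eval_zero, polyB_eval]
  simp

open Classical in
/-- the path -/
noncomputable def path (l : Fin n → ℂ) (ρ : ℂ) : Fin n → ℂ :=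
  fun j => if ‖l j‖ = 1 then ρ * l j else l j

theorem path_norm_lt {l : Fin n → ℂ} (hl : ∀ j, ‖l j‖ ≤ 1) {ρ : ℂ} (hρ : ‖ρ‖ < 1) (j : Fin n) :
    ‖path l ρ j‖ < 1 := by
  rw [path]
  split_ifs with h
  · rw [norm_mul, h, mul_one]; exact hρ
  · exact lt_of_le_of_ne (hl j) h

theorem path_one (l : Fin n → ℂ) : path l 1 = l := by
  funext j
  rw [path]
  split_ifs <;> simp

theorem q_path (l : Fin n → ℂ) (ρ : ℂ) : q n (symmMap n (path l ρ)) = polyA l ρ * polyB l := by
  rw [q_symmMap, ← prod_split l, polyA, polyB]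
  congr 1
  · apply Finset.prod_congr rfl
    intro j hj
    rw [mem_bd] at hj
    rw [path, if_pos hj]
  · apply Finset.prod_congr rfl
    intro j hj
    rw [mem_inn] at hj
    rw [path, if_neg hj]

theorem differentiable_path (l : Fin n → ℂ) : Differentiable ℂ (path l) := by
  rw [differentiable_pi]
  intro j
  unfold path
  by_cases h : ‖l j‖ = 1
  · simp only [h, if_true]
    fun_prop
  · simp only [h, if_false]
    fun_prop

theorem continuous_unlin_polyA (l : Fin n → ℂ) (P : ℂ[X]) :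
    Continuous (fun ρ : ℂ => unlin n (polyA l ρ * P)) := by
  have h1 : (fun ρ : ℂ => unlin n (polyA l ρ * P)) = fun ρ : ℂ =>
      WithLp.toLp 2 (fun k : Fin n => (-1 : ℂ) ^ (k.1 + 1) *
        ∑ x ∈ Finset.HasAntidiagonal.antidiagonal (k.1 + 1), ((polyA l 1).coeff x.1 * ρ ^ x.1) * P.coeff x.2) := by
    funext ρ
    ext k
    rw [unlin_apply, coeff_mul]
    simp only [polyA_coeff l ρ]
  rw [h1]
  apply (PiLp.continuous_toLp 2 _).comp
  fun_prop

end Pool.Agent.Lib.MP_96bc49_an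
end

section

namespace Pool.Agent.Lib.MP_96bc49_an

open Complex Polynomial Filter Topology Set Metric Asymptotics

/-- The chart function `S u s = i (n - 2 u q_s'(u) / q_s(u))`. -/
noncomputable def chart (n : ℕ) (u : ℂ) (s : EuclideanSpace ℂ (Fin n)) : ℂ :=
  I * (n - 2 * u * ((derivative (q n s)).eval u / (q n s).eval u))

theorem chart_symmMap (n : ℕ) {u : ℂ} {l : Fin n → ℂ} (h : ∀ j, 1 - l j * u ≠ 0) :
    chart n u (symmMap n l) = ∑ j, I * ((1 + l j * u) / (1 - l j * u)) := by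
  have h1 : (derivative (q n (symmMap n l))).eval u / (q n (symmMap n l)).eval u =
      ∑ j, (- l j / (1 - l j * u)) := by
    rw [q_symmMap, derivative_prod_finset, eval_finsetSum, Finset.sum_div]
    apply Finset.sum_congr rfl
    intro j _
    rw [eval_mul, eval_prod, eval_prod]
    have h2 : ∏ i, eval u (1 - C (l i) * X) =
        (∏ i ∈ Finset.univ.erase j, eval u (1 - C (l i) * X)) * (1 - l j * u) := by
      rw [← Finset.prod_erase_mul _ _ (Finset.mem_univ j)]
      simp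
    rw [h2]
    have h3 : ∏ i ∈ Finset.univ.erase j, eval u (1 - C (l i) * X) ≠ 0 := by
      rw [Finset.prod_ne_zero_iff]
      intro i _
      simpa using h i
    have h4 := h j
    rw [div_eq_div_iff (mul_ne_zero h3 h4) h4]
    simp
    ring
  rw [chart, h1]
  have h2 : (n : ℂ) = ∑ _j : Fin n, (1 : ℂ) := by simp
  rw [h2, Finset.mul_sum, ← Finset.sum_sub_distrib, Finset.mul_sum]
  apply Finset.sum_congr rfl
  intro j _
  have h4 := h j
  have h5 : 1 - u * l j ≠ 0 := by rwa [mul_comm u]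
  field_simp
  ring

theorem im_cayley {w : ℂ} (hw : 1 - w ≠ 0) :
    (I * ((1 + w) / (1 - w))).im = (1 - ‖w‖ ^ 2) / ‖1 - w‖ ^ 2 := by
  have h1 : (I * ((1 + w) / (1 - w))).im = ((1 + w) / (1 - w)).re := by simp
  rw [h1, Complex.div_re, Complex.sq_norm, Complex.sq_norm]
  have h3 : normSq (1 - w) ≠ 0 := by simpa using hw
  field_simp
  rw [Complex.normSq_apply w]
  simp
  ring

theorem one_sub_ne {w : ℂ} (hw : ‖w‖ < 1) : 1 - w ≠ 0 := by
  intro h0
  have : w = 1 := by linear_combination -h0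
  rw [this, norm_one] at hw
  exact lt_irrefl _ hw

/-- On `𝔾_n` the chart function has nonnegative imaginary part. -/
theorem chart_im_nonneg (n : ℕ) {u : ℂ} (hu : ‖u‖ = 1) {s : EuclideanSpace ℂ (Fin n)}
    (hs : s ∈ symmPolydisc n) : 0 ≤ (chart n u s).im := by
  obtain ⟨l, hl, rfl⟩ := hs
  have hlt : ∀ j, ‖l j * u‖ < 1 := by
    intro j
    rw [norm_mul, hu, mul_one]
    exact hl j
  rw [chart_symmMap n (fun j => one_sub_ne (hlt j)), Complex.im_sum]
  apply Finset.sum_nonneg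
  intro j _
  rw [im_cayley (one_sub_ne (hlt j))]
  have := hlt j
  have h1 : 0 ≤ 1 - ‖l j * u‖ ^ 2 := by nlinarith [norm_nonneg (l j * u)]
  positivity

theorem contDiffAt_chart (n : ℕ) (u : ℂ) {s : EuclideanSpace ℂ (Fin n)}
    (hs : (q n s).eval u ≠ 0) : ContDiffAt ℂ 1 (chart n u) s := by
  set A : EuclideanSpace ℂ (Fin n) →L[ℂ] ℂ :=
    LinearMap.toContinuousLinearMap ((Polynomial.leval u) ∘ₗ Polynomial.derivative ∘ₗ lin n) with hA
  set B : EuclideanSpace ℂ (Fin n) →L[ℂ] ℂ :=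
    LinearMap.toContinuousLinearMap ((Polynomial.leval u) ∘ₗ lin n) with hB
  have h1 : ∀ t, (derivative (q n t)).eval u = A t := by
    intro t
    simp [hA, q]
  have h2 : ∀ t, (q n t).eval u = 1 + B t := by
    intro t
    simp [hB, q]
  have h3 : chart n u = fun t => I * (n - 2 * u * (A t / (1 + B t))) := by
    funext t
    rw [chart, h1, h2]
  rw [h3]
  rw [h2] at hs
  have hAc : ContDiff ℂ 1 A := A.contDiff
  have hBc : ContDiff ℂ 1 B := B.contDiff
  apply ContDiffAt.mul contDiffAt_const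
  apply ContDiffAt.sub contDiffAt_const
  apply ContDiffAt.mul contDiffAt_const
  apply ContDiffAt.div hAc.contDiffAt (contDiffAt_const.add hBc.contDiffAt) hs

/-- The Cayley parametrization. -/
noncomputable def kap (u x : ℂ) : ℂ := u⁻¹ * ((x - I) / (x + I))

theorem add_I_ne {x : ℂ} (hx : 0 ≤ x.im) : x + I ≠ 0 := by
  intro h0
  have h1 := congrArg Complex.im h0
  simp at h1
  linarith

theorem kap_mul {u x : ℂ} (hu : u ≠ 0) : kap u x * u = (x - I) / (x + I) := by
  rw [kap]
  field_simp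

theorem kap_one_sub {u x : ℂ} (hu : u ≠ 0) (hx : 0 ≤ x.im) : 1 - kap u x * u ≠ 0 := by
  rw [kap_mul hu]
  have h1 := add_I_ne hx
  have h2 : 1 - (x - I) / (x + I) = 2 * I / (x + I) := by
    field_simp
    ring
  rw [h2]
  exact div_ne_zero (mul_ne_zero two_ne_zero I_ne_zero) h1

theorem kap_cayley {u x : ℂ} (hu : u ≠ 0) (hx : 0 ≤ x.im) :
    I * ((1 + kap u x * u) / (1 - kap u x * u)) = x := by
  have h0 := kap_one_sub hu hx
  have h1 := add_I_ne hx
  rw [kap_mul hu] at h0 ⊢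
  have h2 : 1 - (x - I) / (x + I) = 2 * I / (x + I) := by
    field_simp
    ring
  have h3 : 1 + (x - I) / (x + I) = 2 * x / (x + I) := by
    field_simp
    ring
  have := I_ne_zero
  rw [h2, h3]
  field_simp

theorem cayley_kap {u l : ℂ} (hu : u ≠ 0) (hl : 1 - l * u ≠ 0) :
    kap u (I * ((1 + l * u) / (1 - l * u))) = l := by
  have h3 := I_ne_zero
  have h1 : I * ((1 + l * u) / (1 - l * u)) - I = 2 * I * (l * u) / (1 - l * u) := by
    field_simp
    ring
  have h2 : I * ((1 + l * u) / (1 - l * u)) + I = 2 * I / (1 - l * u) := by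
    field_simp
    ring
  have h4 : 1 - u * l ≠ 0 := by rwa [mul_comm u]
  rw [kap, h1, h2]
  field_simp

theorem kap_norm_lt {u x : ℂ} (hu : ‖u‖ = 1) (hx : 0 < x.im) : ‖kap u x‖ < 1 := by
  have h1 : 0 < ‖x + I‖ := by simpa using add_I_ne hx.le
  rw [kap, norm_mul, norm_inv, hu, inv_one, one_mul, norm_div, div_lt_one h1]
  have h2 := norm_sub_conj_sq x I
  have h3 : x - (starRingEnd ℂ) I = x + I := by simp
  rw [h3] at h2
  apply lt_of_pow_lt_pow_left₀ 2 h1.le
  simp at h2
  nlinarith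

theorem differentiableAt_kap {u x : ℂ} (hx : 0 ≤ x.im) : DifferentiableAt ℂ (kap u) x := by
  have h1 := add_I_ne hx
  unfold kap
  fun_prop (disch := assumption)

theorem circle_infinite : {u : ℂ | ‖u‖ = 1}.Infinite := by
  have h1 : ((fun t : ℝ => Complex.exp (t * I)) '' Icc 0 1).Infinite := by
    apply Set.Infinite.image
    · intro a ha b hb hab
      simp only at hab
      rw [Complex.exp_eq_exp_iff_exists_int] at hab
      obtain ⟨k, hk⟩ := hab
      have h2 : (a : ℂ) = b + k * (2 * Real.pi) := by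
        have h3 : (a : ℂ) * I = (b + k * (2 * Real.pi)) * I := by rw [hk]; ring
        exact mul_right_cancel₀ I_ne_zero h3
      have h3 : a = b + k * (2 * Real.pi) := by exact_mod_cast h2
      have h4 := Real.pi_gt_three
      have h5 : k = 0 := by
        by_contra hk0
        rcases lt_or_gt_of_ne hk0 with hk1 | hk1
        · have : (k : ℝ) ≤ -1 := by exact_mod_cast Int.le_sub_one_of_lt hk1
          nlinarith [ha.1, ha.2, hb.1, hb.2]
        · have : (1 : ℝ) ≤ k := by exact_mod_cast hk1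
          nlinarith [ha.1, ha.2, hb.1, hb.2]
      rw [h5] at h3
      simpa using h3
    · exact Icc_infinite one_pos
  apply h1.mono
  rintro _ ⟨t, _, rfl⟩
  exact Complex.norm_exp_ofReal_mul_I t

/-- Two points of the symmetrized polydisc with equal chart values are equal. -/
theorem eq_of_chart_eq (n : ℕ) {s t : EuclideanSpace ℂ (Fin n)} (hs : s ∈ symmPolydisc n)
    (ht : t ∈ symmPolydisc n) {l : Fin n → ℂ}
    (h : ∀ u : ℂ, ‖u‖ = 1 → (∀ j, 1 - l j * u ≠ 0) → chart n u s = chart n u t) : s = t := by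
  rw [mem_symmPolydisc_iff] at hs ht
  have h1 : derivative (q n s) * q n t = derivative (q n t) * q n s := by
    apply Polynomial.eq_of_infinite_eval_eq
    have hinf : ({u : ℂ | ‖u‖ = 1} \ (range fun j => (l j)⁻¹)).Infinite :=
      circle_infinite.sdiff (finite_range _)
    apply hinf.mono
    rintro u ⟨hu, hu2⟩
    have hu' : ‖u‖ = 1 := hu
    have hu0 : u ≠ 0 := by
      rintro rfl
      rw [norm_zero] at hu'
      exact zero_ne_one hu'
    have h2 : ∀ j, 1 - l j * u ≠ 0 := by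
      intro j h0
      apply hu2
      refine ⟨j, ?_⟩
      have h3 : l j * u = 1 := by linear_combination -h0
      exact (eq_inv_of_mul_eq_one_right h3).symm
    have h3 := h u hu' h2
    rw [chart, chart] at h3
    have h4 := mul_left_cancel₀ I_ne_zero h3
    have h5 : 2 * u * ((derivative (q n s)).eval u / (q n s).eval u) =
      2 * u * ((derivative (q n t)).eval u / (q n t).eval u) := by linear_combination -h4
    have h6 := mul_left_cancel₀ (mul_ne_zero two_ne_zero hu0) h5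
    rw [div_eq_div_iff (hs u hu'.le) (ht u hu'.le)] at h6
    simpa using h6
  apply q_injective
  apply Polynomial.eq_of_infinite_eval_eq
  have hinf : (ball (0 : ℂ) 1).Infinite := by
    have h2 : (ball (0 : ℂ) 1) ∈ 𝓝 (0 : ℂ) := ball_mem_nhds 0 one_pos
    exact infinite_of_mem_nhds 0 h2
  apply hinf.mono
  intro u hu
  have hne : ∀ v ∈ ball (0 : ℂ) 1, (q n t).eval v ≠ 0 := by
    intro v hv
    apply ht
    simpa using (mem_ball_zero_iff.1 hv).le
  have hd : ∀ v ∈ ball (0 : ℂ) 1, HasDerivAt (fun v => (q n s).eval v / (q n t).eval v)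
      (((derivative (q n s)).eval v * (q n t).eval v - (q n s).eval v *
        (derivative (q n t)).eval v) / ((q n t).eval v) ^ 2) v := by
    intro v hv
    exact ((q n s).hasDerivAt v).div ((q n t).hasDerivAt v) (hne v hv)
  have hc := isOpen_ball.is_const_of_deriv_eq_zero (convex_ball (0 : ℂ) 1).isPreconnected
    (f := fun v => (q n s).eval v / (q n t).eval v)
    (fun v hv => (hd v hv).differentiableAt.differentiableWithinAt)
    (fun v hv => by
      rw [(hd v hv).deriv]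
      have h2 := congrArg (eval v) h1
      simp only [eval_mul] at h2
      have h3 : (derivative (q n s)).eval v * (q n t).eval v - (q n s).eval v *
        (derivative (q n t)).eval v = 0 := by linear_combination h2
      rw [h3, zero_div]; rfl) hu (mem_ball_self one_pos)
  simp only [q_eval_zero, div_one] at hc
  rw [div_eq_one_iff_eq (hne u hu)] at hc
  exact hc

/-- First main step: the points with the right interior roots are fixed. -/
theorem fixed_points (n : ℕ) {F : EuclideanSpace ℂ (Fin n) → EuclideanSpace ℂ (Fin n)}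
    (hF : DifferentiableOn ℂ F (symmPolydisc n)) (hmaps : MapsTo F (symmPolydisc n) (symmPolydisc n))
    {l : Fin n → ℂ} (hl : ∀ j, ‖l j‖ ≤ 1) (hl1 : ∃ j, ‖l j‖ = 1)
    (hBK : BurnsKrantzCondition (symmPolydisc n) F (symmMap n l)) {m : Fin n → ℂ}
    (hm : ∀ j, ‖m j‖ < 1) (hml : ∀ j, ‖l j‖ < 1 → m j = l j) :
    F (symmMap n m) = symmMap n m := by
  have hmG : symmMap n m ∈ symmPolydisc n := ⟨m, hm, rfl⟩
  apply eq_of_chart_eq n (hmaps hmG) hmG (l := l)
  intro u hu hlu
  have hu0 : u ≠ 0 := by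
    rintro rfl
    rw [norm_zero] at hu
    exact zero_ne_one hu
  set c : Fin n → ℂ := fun j => I * ((1 + l j * u) / (1 - l j * u)) with hc
  have hcim : ∀ j, (c j).im = (1 - ‖l j‖ ^ 2) / ‖1 - l j * u‖ ^ 2 := by
    intro j
    simp only [hc]
    rw [im_cayley (hlu j), norm_mul, hu, mul_one]
  have hpos : ∀ j, 0 < ‖1 - l j * u‖ := fun j => by simpa using hlu j
  have hc0 : ∀ j, 0 ≤ (c j).im := by
    intro j
    rw [hcim]
    have h1 : 0 ≤ 1 - ‖l j‖ ^ 2 := by nlinarith [norm_nonneg (l j), hl j]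
    positivity
  have hcne : ∃ j, (c j).im = 0 := by
    obtain ⟨j, hj⟩ := hl1
    refine ⟨j, ?_⟩
    rw [hcim, hj]
    simp
  have hckap : ∀ j, kap u (c j) = l j := fun j => cayley_kap hu0 (hlu j)
  -- the map Φ
  set z : (Fin n → ℂ) → EuclideanSpace ℂ (Fin n) := fun x => symmMap n (fun j => kap u (x j)) with hz
  set Φ : (Fin n → ℂ) → ℂ := fun x => chart n u (F (z x)) with hΦ
  have hzG : ∀ x ∈ UU (Fin n), z x ∈ symmPolydisc n := by
    intro x hx
    exact ⟨_, fun j => kap_norm_lt hu (hx j), rfl⟩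
  have hzd : ∀ x : Fin n → ℂ, (∀ j, 0 ≤ (x j).im) → DifferentiableAt ℂ z x := by
    intro x hx
    apply (differentiable_symmMap n).differentiableAt.comp
    rw [differentiableAt_pi]
    intro j
    exact DifferentiableAt.comp (g := kap u) (f := fun y : Fin n → ℂ => y j) x
      (differentiableAt_kap (hx j)) (differentiableAt_apply j x)
  have hGne : ∀ s ∈ symmPolydisc n, (q n s).eval u ≠ 0 := by
    intro s hs
    rw [mem_symmPolydisc_iff] at hs
    exact hs u hu.le
  have hΦd : DifferentiableOn ℂ Φ (UU (Fin n)) := by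
    intro x hx
    apply DifferentiableAt.differentiableWithinAt
    have h1 : DifferentiableAt ℂ z x := hzd x (fun j => (hx j).le)
    have h2 : DifferentiableAt ℂ F (z x) :=
      hF.differentiableAt ((isOpen_symmPolydisc n).mem_nhds (hzG x hx))
    have h3 : DifferentiableAt ℂ (chart n u) (F (z x)) :=
      (contDiffAt_chart n u (hGne _ (hmaps (hzG x hx)))).differentiableAt one_ne_zero
    exact DifferentiableAt.comp (g := chart n u) (f := fun y => F (z y)) x h3
      (DifferentiableAt.comp (g := F) (f := z) x h2 h1)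
  have hΦim : ∀ x ∈ UU (Fin n), 0 ≤ (Φ x).im := by
    intro x hx
    exact chart_im_nonneg n hu (hmaps (hzG x hx))
  have hchartz : ∀ x : Fin n → ℂ, (∀ j, 0 ≤ (x j).im) → chart n u (z x) = ∑ j, x j := by
    intro x hx
    simp only [hz]
    rw [chart_symmMap n (fun j => kap_one_sub hu0 (hx j))]
    apply Finset.sum_congr rfl
    intro j _
    exact kap_cayley hu0 (hx j)
  have hzc : z c = symmMap n l := by
    simp only [hz]
    congr 1
    funext j
    exact hckap j
  have hpne : (q n (symmMap n l)).eval u ≠ 0 := by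
    rw [q_symmMap_eval, Finset.prod_ne_zero_iff]
    intro j _
    exact hlu j
  -- asymptotics
  have hUcl : ∀ x ∈ UU (Fin n), ∀ j, 0 ≤ (x j).im := fun x hx j => (hx j).le
  have hzO : (fun x => z x - symmMap n l) =O[𝓝[UU (Fin n)] c] (fun x => x - c) := by
    have h1 := (hzd c hc0).isBigO_sub
    rw [hzc] at h1
    exact h1.mono nhdsWithin_le_nhds
  have hzt0 : Tendsto z (𝓝[UU (Fin n)] c) (𝓝 (symmMap n l)) := by
    have h1 := (hzd c hc0).continuousAt.tendsto
    rw [hzc] at h1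
    exact h1.mono_left nhdsWithin_le_nhds
  have hzt : Tendsto z (𝓝[UU (Fin n)] c) (𝓝[symmPolydisc n] (symmMap n l)) := by
    rw [tendsto_nhdsWithin_iff]
    refine ⟨hzt0, ?_⟩
    filter_upwards [self_mem_nhdsWithin] with x hx
    exact hzG x hx
  have hFo : (fun x => F (z x) - z x) =o[𝓝[UU (Fin n)] c] (fun x => ‖x - c‖ ^ 3) := by
    have h1 := hBK.comp_tendsto hzt
    refine h1.trans_isBigO ?_
    have h2 := (hzO.norm_left.norm_right).pow 3
    simpa [Function.comp_def] using h2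
  have hFt0 : Tendsto (fun x => F (z x) - z x) (𝓝[UU (Fin n)] c) (𝓝 0) := by
    apply hFo.trans_tendsto
    have h1 : Tendsto (fun x : Fin n → ℂ => ‖x - c‖ ^ 3) (𝓝 c) (𝓝 (‖c - c‖ ^ 3)) :=
      Continuous.tendsto (by fun_prop) _
    rw [sub_self, norm_zero, zero_pow (by norm_num)] at h1
    exact h1.mono_left nhdsWithin_le_nhds
  have hFt : Tendsto (fun x => F (z x)) (𝓝[UU (Fin n)] c) (𝓝 (symmMap n l)) := by
    have h1 := hFt0.add hzt0
    simpa using h1
  have hT : (fun x => Φ x - ∑ j, x j) =o[𝓝[UU (Fin n)] c] (fun x => ‖x - c‖ ^ 3) := by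
    have h1 := (contDiffAt_chart n u hpne).hasStrictFDerivAt one_ne_zero
    have h2 := h1.isBigO_sub
    have h3 : Tendsto (fun x => (F (z x), z x)) (𝓝[UU (Fin n)] c)
      (𝓝 (symmMap n l, symmMap n l)) := hFt.prodMk_nhds hzt0
    have h4 := h2.comp_tendsto h3
    have h5 : (fun x => Φ x - ∑ j, x j) =O[𝓝[UU (Fin n)] c] (fun x => F (z x) - z x) := by
      refine h4.congr' ?_ ?_
      · filter_upwards [self_mem_nhdsWithin] with x hx
        simp only [Function.comp_def, hΦ]
        rw [hchartz x (hUcl x hx)]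
      · apply Eventually.of_forall
        intro x
        simp
    exact h5.trans_isLittleO hFo
  -- apply the half plane theorem
  set x : Fin n → ℂ := fun j => I * ((1 + m j * u) / (1 - m j * u)) with hx
  have hmu : ∀ j, ‖m j * u‖ < 1 := by
    intro j
    rw [norm_mul, hu, mul_one]
    exact hm j
  have hxU : x ∈ UU (Fin n) := by
    intro j
    simp only [hx]
    rw [im_cayley (one_sub_ne (hmu j))]
    have h1 := hmu j
    have h2 : 0 < 1 - ‖m j * u‖ ^ 2 := by nlinarith [norm_nonneg (m j * u)]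
    have h3 : 0 < ‖1 - m j * u‖ := by simpa using one_sub_ne (hmu j)
    positivity
  have hxc : ∀ j, 0 < (c j).im → x j = c j := by
    intro j hj
    have h1 : ‖l j‖ < 1 := by
      by_contra hcon
      have h2 : ‖l j‖ = 1 := le_antisymm (hl j) (not_lt.1 hcon)
      rw [hcim, h2] at hj
      simp at hj
    simp only [hx, hc]
    rw [hml j h1]
  have key := gamma0 hΦd hΦim hc0 hcne hT hxU hxc
  have hzx : z x = symmMap n m := by
    simp only [hz, hx]
    congr 1
    funext j
    exact cayley_kap hu0 (one_sub_ne (hmu j))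
  rw [← hchartz x (hUcl x hxU)] at key
  simp only [hΦ] at key
  rw [hzx] at key
  exact key

end Pool.Agent.Lib.MP_96bc49_an
end

section

namespace Pool.Agent.Lib.MP_96bc49_an

open Polynomial Filter Topology Set Metric Asymptotics

variable {n : ℕ}

theorem fderiv_iterate_bound {E : Type*} [NormedAddCommGroup E] [NormedSpace ℂ E] {D : Set E}
    {F : E → E} (hF : DifferentiableOn ℂ F D) (hmaps : MapsTo F D D) {z₀ : E} (hfix : F z₀ = z₀)
    {r R : ℝ} (hr : 0 < r) (hball : ball z₀ r ⊆ D) (hR : ∀ z ∈ D, ‖z‖ ≤ R) (k : ℕ) :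
    ‖(fderiv ℂ F z₀) ^ k‖ ≤ 2 * R / r := by
  have hz₀ : z₀ ∈ D := hball (mem_ball_self hr)
  have hd : HasFDerivAt F (fderiv ℂ F z₀) z₀ :=
    (hF.differentiableAt (Filter.mem_of_superset (ball_mem_nhds z₀ hr) hball)).hasFDerivAt
  have hk := hd.iterate hfix k
  have h1 := Complex.norm_fderiv_le_div_of_mapsTo_ball (f := F^[k]) (c := z₀) (R₁ := r)
    (R₂ := 2 * R) ((hF.iterate hmaps k).mono hball) (by
      intro w hw
      rw [mem_closedBall, dist_eq_norm]
      have h2 := hR _ (hmaps.iterate k (hball hw))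
      have h3 := hR _ (hmaps.iterate k hz₀)
      calc ‖F^[k] w - F^[k] z₀‖ ≤ ‖F^[k] w‖ + ‖F^[k] z₀‖ := norm_sub_le _ _
        _ ≤ 2 * R := by linarith) hr
  rw [hk.fderiv] at h1
  exact h1

/-- Directions tangent to the set of known fixed points are fixed by the derivative. -/
theorem fix_dir {F : EuclideanSpace ℂ (Fin n) → EuclideanSpace ℂ (Fin n)}
    (hF : DifferentiableOn ℂ F (symmPolydisc n)) {l : Fin n → ℂ} (hl : ∀ j, ‖l j‖ ≤ 1)
    (hfix : ∀ m : Fin n → ℂ, (∀ j, ‖m j‖ < 1) → (∀ j, ‖l j‖ < 1 → m j = l j) →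
      F (symmMap n m) = symmMap n m) {ρ : ℂ} (hρ : ‖ρ‖ < 1) {D' : ℂ[X]} (hD0 : D'.coeff 0 = 0)
    (hD : D'.natDegree ≤ (bd l).card) :
    fderiv ℂ F (symmMap n (path l ρ)) (unlin n (polyB l * D')) = unlin n (polyB l * D') := by
  set z := symmMap n (path l ρ) with hz
  set v := unlin n (polyB l * D') with hv
  have hzG : z ∈ symmPolydisc n := ⟨_, path_norm_lt hl hρ, rfl⟩
  have hlinv : lin n v = polyB l * D' := by
    rw [hv, lin_unlin]
    · rw [mul_coeff_zero, hD0, mul_zero]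
    · refine natDegree_mul_le.trans ?_
      have := natDegree_polyB_le l
      have := card_add l
      omega
  have hFd : HasFDerivAt F (fderiv ℂ F z) z :=
    (hF.differentiableAt ((isOpen_symmPolydisc n).mem_nhds hzG)).hasFDerivAt
  have hline : HasDerivAt (fun θ : ℂ => z + θ • v) v 0 := by
    have := ((hasDerivAt_id (0 : ℂ)).smul_const v).const_add z
    simpa using this
  have hder : HasDerivAt (fun θ : ℂ => F (z + θ • v)) (fderiv ℂ F z v) 0 := by
    have h5 : HasFDerivAt F (fderiv ℂ F z) ((fun θ : ℂ => z + θ • v) 0) := by simpa using hFd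
    exact h5.comp_hasDerivAt (0 : ℂ) hline
  have hev : ∀ᶠ θ : ℂ in 𝓝 0, z + θ • v ∈ symmPolydisc n := by
    have hc : ContinuousAt (fun θ : ℂ => z + θ • v) 0 := hline.continuousAt
    apply hc.eventually
    apply (isOpen_symmPolydisc n).mem_nhds
    simpa using hzG
  have heq : (fun θ : ℂ => F (z + θ • v)) =ᶠ[𝓝 0] (fun θ : ℂ => z + θ • v) := by
    filter_upwards [hev] with θ hθ
    have hq : q n (z + θ • v) = (polyA l ρ + C θ * D') * polyB l := by
      rw [q_add, hz, q_path, map_smul, hlinv, Polynomial.smul_eq_C_mul]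
      ring
    have hθ' := hθ
    rw [mem_symmPolydisc_iff] at hθ
    obtain ⟨m, hm, hm2⟩ := factor (bd l) (Q := polyA l ρ + C θ * D')
      (by rw [coeff_add, polyA_coeff_zero, coeff_C_mul, hD0]; simp)
      (by
        refine (natDegree_add_le _ _).trans ?_
        apply max_le (natDegree_polyA_le l ρ)
        refine natDegree_mul_le.trans ?_
        rw [natDegree_C]
        omega)
      (by
        intro u hu h0
        apply hθ u hu
        rw [hq, eval_mul, h0, zero_mul])
    classical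
    have hfx := hfix (fun j => if ‖l j‖ = 1 then m j else l j) (by
        intro j
        by_cases hj : ‖l j‖ = 1
        · simp only [hj, if_true]; exact hm j
        · simp only [hj, if_false]; exact lt_of_le_of_ne (hl j) hj) (by
        intro j hj
        rw [if_neg hj.ne])
    have hzz : z + θ • v = symmMap n (fun j => if ‖l j‖ = 1 then m j else l j) := by
      apply q_injective
      rw [hq, q_symmMap, ← prod_split l, hm2, polyB]
      congr 1
      · apply Finset.prod_congr rfl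
        intro j hj
        rw [mem_bd] at hj
        rw [if_pos hj]
      · apply Finset.prod_congr rfl
        intro j hj
        rw [mem_inn] at hj
        rw [if_neg hj]
    rw [hzz]
    exact hfx
  have h6 := hder.congr_of_eventuallyEq heq.symm
  exact h6.unique hline

/-- Estimate for the derivative in the remaining directions. -/
theorem small_dir {F : EuclideanSpace ℂ (Fin n) → EuclideanSpace ℂ (Fin n)}
    (hF : DifferentiableOn ℂ F (symmPolydisc n)) {l : Fin n → ℂ} (hl : ∀ j, ‖l j‖ ≤ 1)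
    (hBK : BurnsKrantzCondition (symmPolydisc n) F (symmMap n l))
    (hfix : ∀ m : Fin n → ℂ, (∀ j, ‖m j‖ < 1) → (∀ j, ‖l j‖ < 1 → m j = l j) →
      F (symmMap n m) = symmMap n m) {C' : ℂ[X]} (hC0 : C'.coeff 0 = 0)
    (hC : C'.natDegree ≤ (inn l).card) :
    (fun ρ : ℝ => fderiv ℂ F (symmMap n (path l ρ)) (unlin n (polyA l ρ * C')) -
      unlin n (polyA l ρ * C')) =o[𝓝[<] (1 : ℝ)] (fun ρ : ℝ => 1 - ρ) := by
  set z : ℝ → EuclideanSpace ℂ (Fin n) := fun ρ => symmMap n (path l ρ) with hz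
  set v : ℝ → EuclideanSpace ℂ (Fin n) := fun ρ => unlin n (polyA l ρ * C') with hv
  set p := symmMap n l with hp
  -- membership
  have hcomp : IsCompact (closedBall (0 : ℂ) 1) := isCompact_closedBall 0 1
  have hne : (closedBall (0 : ℂ) 1).Nonempty := ⟨0, by simp⟩
  obtain ⟨u₀, hu₀, hmin⟩ := hcomp.exists_isMinOn hne
    (f := fun u => ‖(polyB l).eval u‖) (by fun_prop)
  obtain ⟨u₁, hu₁, hmax⟩ := hcomp.exists_isMaxOn hne
    (f := fun u => ‖C'.eval u‖) (by fun_prop)
  set b₀ := ‖(polyB l).eval u₀‖ with hb₀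
  set c₁ := ‖C'.eval u₁‖ with hc₁
  have hb₀pos : 0 < b₀ := by
    rw [hb₀, norm_pos_iff]
    exact polyB_eval_ne hl (by simpa using hu₀)
  have hc₁nn : 0 ≤ c₁ := norm_nonneg _
  set θ₀ : ℝ := b₀ / (c₁ + 1) with hθ₀
  have hθ₀pos : 0 < θ₀ := by positivity
  have hmem : ∀ ρ : ℝ, |ρ| < 1 → ∀ θ : ℂ, ‖θ‖ < θ₀ → z ρ + θ • v ρ ∈ symmPolydisc n := by
    intro ρ hρ θ hθ
    have hρ' : ‖(ρ : ℂ)‖ < 1 := by simpa using hρ
    rw [mem_symmPolydisc_iff]
    intro u hu
    have hlinv : lin n (v ρ) = polyA l ρ * C' := by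
      rw [hv, lin_unlin]
      · rw [mul_coeff_zero, hC0, mul_zero]
      · refine natDegree_mul_le.trans ?_
        have := natDegree_polyA_le l ρ
        have := card_add l
        omega
    have hq : q n (z ρ + θ • v ρ) = polyA l ρ * (polyB l + C θ * C') := by
      rw [q_add, hz, q_path, map_smul, hlinv, Polynomial.smul_eq_C_mul]
      ring
    rw [hq, eval_mul]
    apply mul_ne_zero (polyA_eval_ne l hρ' hu)
    intro h0
    rw [eval_add, eval_mul, eval_C] at h0
    have h1 : b₀ ≤ ‖(polyB l).eval u‖ := hmin (by simpa using hu)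
    have h2 : ‖C'.eval u‖ ≤ c₁ := hmax (by simpa using hu)
    have h3 : ‖(polyB l).eval u‖ = ‖θ‖ * ‖C'.eval u‖ := by
      have : (polyB l).eval u = -(θ * C'.eval u) := by linear_combination h0
      rw [this, norm_neg, norm_mul]
    have h4 : ‖θ‖ * ‖C'.eval u‖ ≤ ‖θ‖ * (c₁ + 1) := by gcongr; linarith
    have h5 : ‖θ‖ * (c₁ + 1) < b₀ := by
      rw [hθ₀, lt_div_iff₀ (by positivity)] at hθ
      exact hθ
    linarith
  -- continuity of v
  have hvc : Tendsto v (𝓝[<] 1) (𝓝 (v 1)) := by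
    apply Tendsto.mono_left _ nhdsWithin_le_nhds
    have h1 := (continuous_unlin_polyA l C').comp Complex.continuous_ofReal
    exact h1.tendsto 1
  have hvb : ∀ᶠ ρ : ℝ in 𝓝[<] 1, ‖v ρ‖ ≤ ‖v 1‖ + 1 := by
    have h1 := hvc.norm
    filter_upwards [h1.eventually (gt_mem_nhds (lt_add_one ‖v 1‖))] with ρ hρ
    exact hρ.le
  -- Lipschitz estimate for z at 1
  have hzO : (fun ρ : ℝ => z ρ - p) =O[𝓝[<] 1] (fun ρ : ℝ => ρ - 1) := by
    have h1 : DifferentiableAt ℂ (fun ρ : ℂ => symmMap n (path l ρ)) 1 :=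
      (differentiable_symmMap n).differentiableAt.comp 1 (differentiable_path l).differentiableAt
    have h2 := h1.isBigO_sub
    rw [path_one] at h2
    have h3 : Tendsto (fun ρ : ℝ => (ρ : ℂ)) (𝓝[<] 1) (𝓝 1) := by
      apply Tendsto.mono_left _ nhdsWithin_le_nhds
      have := Complex.continuous_ofReal.tendsto 1
      simpa using this
    have h4 := h2.comp_tendsto h3
    refine h4.trans ?_
    apply IsBigO.of_bound 1
    apply Eventually.of_forall
    intro ρ
    simp only [Function.comp_apply, one_mul]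
    have h5 : (ρ : ℂ) - 1 = ((ρ - 1 : ℝ) : ℂ) := by push_cast; ring
    rw [h5, Complex.norm_real]
  obtain ⟨c₂, hc₂pos, hc₂⟩ := hzO.exists_pos
  rw [isBigOWith_iff] at hc₂
  set K : ℝ := c₂ + (‖v 1‖ + 1) with hK
  have hKpos : 0 < K := by positivity
  rw [isLittleO_iff]
  intro c hc
  -- use BK with η
  set η : ℝ := c / K ^ 3 with hη
  have hηpos : 0 < η := by positivity
  have hBK' := (isLittleO_iff.1 hBK) hηpos
  rw [eventually_nhdsWithin_iff, Metric.eventually_nhds_iff_ball] at hBK'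
  obtain ⟨δ, hδpos, hδ⟩ := hBK'
  have he1 : ∀ᶠ ρ : ℝ in 𝓝[<] 1, 0 < ρ := by
    apply nhdsWithin_le_nhds
    exact lt_mem_nhds one_pos
  have he2 : ∀ᶠ ρ : ℝ in 𝓝[<] 1, 1 - ρ < min θ₀ (min (δ / K) 1) := by
    apply nhdsWithin_le_nhds
    have h1 : Tendsto (fun ρ : ℝ => 1 - ρ) (𝓝 1) (𝓝 (1 - 1)) := Continuous.tendsto (by fun_prop) _
    rw [sub_self] at h1
    exact h1.eventually (gt_mem_nhds (by positivity))
  filter_upwards [he1, he2, hvb, hc₂, self_mem_nhdsWithin] with ρ hρ0 hρ1 hρv hρz hρlt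
  have hρlt' : ρ < 1 := hρlt
  set ε := 1 - ρ with hε
  have hεpos : 0 < ε := by linarith
  have hε1 : ε < θ₀ := lt_of_lt_of_le hρ1 (min_le_left _ _)
  have hε2 : ε < δ / K := lt_of_lt_of_le hρ1 ((min_le_right _ _).trans (min_le_left _ _))
  have hε3 : ε < 1 := lt_of_lt_of_le hρ1 ((min_le_right _ _).trans (min_le_right _ _))
  have hρabs : |ρ| < 1 := by rw [abs_lt]; constructor <;> linarith
  have hzG : z ρ ∈ symmPolydisc n := by
    have := hmem ρ hρabs 0 (by simpa using hθ₀pos)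
    simpa using this
  have hFd : HasFDerivAt F (fderiv ℂ F (z ρ)) (z ρ) :=
    (hF.differentiableAt ((isOpen_symmPolydisc n).mem_nhds hzG)).hasFDerivAt
  have hline : HasDerivAt (fun θ : ℂ => z ρ + θ • v ρ) (v ρ) 0 := by
    have := ((hasDerivAt_id (0 : ℂ)).smul_const (v ρ)).const_add (z ρ)
    simpa using this
  have hder : HasDerivAt (fun θ : ℂ => F (z ρ + θ • v ρ)) (fderiv ℂ F (z ρ) (v ρ)) 0 := by
    have h5 : HasFDerivAt F (fderiv ℂ F (z ρ)) ((fun θ : ℂ => z ρ + θ • v ρ) 0) := by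
      simpa using hFd
    exact h5.comp_hasDerivAt (0 : ℂ) hline
  have hder2 := hder.sub hline
  have hsub : ∀ θ ∈ ball (0 : ℂ) ε, z ρ + θ • v ρ ∈ symmPolydisc n := by
    intro θ hθ
    apply hmem ρ hρabs θ
    have : ‖θ‖ < ε := by simpa using hθ
    linarith
  have hdiff : DifferentiableOn ℂ (fun θ : ℂ => F (z ρ + θ • v ρ) - (z ρ + θ • v ρ)) (ball 0 ε) := by
    apply DifferentiableOn.sub
    · apply hF.comp
      · fun_prop
      · exact hsub
    · fun_prop
  have hfixz : F (z ρ) = z ρ := by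
    apply hfix
    · exact path_norm_lt hl (by simpa using hρabs)
    · intro j hj
      rw [path, if_neg hj.ne]
  have hf0 : (fun θ : ℂ => F (z ρ + θ • v ρ) - (z ρ + θ • v ρ)) 0 = 0 := by
    simp [hfixz]
  have hfb : MapsTo (fun θ : ℂ => F (z ρ + θ • v ρ) - (z ρ + θ • v ρ)) (ball 0 ε)
      (closedBall ((fun θ : ℂ => F (z ρ + θ • v ρ) - (z ρ + θ • v ρ)) 0) (c * ε ^ 3)) := by
    intro θ hθ
    rw [hf0, mem_closedBall, dist_zero_right]
    have hθ' : ‖θ‖ < ε := by simpa using hθ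
    have h1 : ‖z ρ + θ • v ρ - p‖ ≤ K * ε := by
      have h2 : z ρ + θ • v ρ - p = (z ρ - p) + θ • v ρ := by abel
      rw [h2]
      have h3 : ‖z ρ - p‖ ≤ c₂ * ε := by
        have h4 : ‖ρ - 1‖ = ε := by
          rw [Real.norm_eq_abs, abs_sub_comm, abs_of_pos (by linarith)]
        rw [h4] at hρz
        exact hρz
      calc ‖(z ρ - p) + θ • v ρ‖ ≤ ‖z ρ - p‖ + ‖θ • v ρ‖ := norm_add_le _ _
        _ ≤ c₂ * ε + ε * (‖v 1‖ + 1) := by
            rw [norm_smul]
            gcongr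
        _ = K * ε := by rw [hK]; ring
    have h2 : z ρ + θ • v ρ ∈ ball p δ := by
      rw [mem_ball, dist_eq_norm]
      refine lt_of_le_of_lt h1 ?_
      rw [lt_div_iff₀ hKpos] at hε2
      linarith
    have h3 := hδ _ h2 (hsub θ hθ)
    rw [norm_pow, norm_norm] at h3
    calc ‖F (z ρ + θ • v ρ) - (z ρ + θ • v ρ)‖ ≤ η * ‖z ρ + θ • v ρ - p‖ ^ 3 := h3
      _ ≤ η * (K * ε) ^ 3 := by gcongr
      _ = c * ε ^ 3 := by rw [hη]; field_simp
  have h7 := Complex.norm_deriv_le_div_of_mapsTo_ball hdiff hfb hεpos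
  have h8 : deriv (fun θ : ℂ => F (z ρ + θ • v ρ) - (z ρ + θ • v ρ)) 0 =
      fderiv ℂ F (z ρ) (v ρ) - v ρ := hder2.deriv
  rw [h8] at h7
  calc ‖fderiv ℂ F (z ρ) (v ρ) - v ρ‖ ≤ c * ε ^ 3 / ε := h7
    _ = c * (ε * ε) := by field_simp
    _ ≤ c * ‖ε‖ := by
        rw [Real.norm_of_nonneg hεpos.le]
        have : ε * ε ≤ ε := by nlinarith
        gcongr

theorem opNorm_le_sum (T : EuclideanSpace ℂ (Fin n) →L[ℂ] EuclideanSpace ℂ (Fin n)) :
    ‖T‖ ≤ ∑ i, ‖T (EuclideanSpace.single i 1)‖ := by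
  apply ContinuousLinearMap.opNorm_le_bound _ (Finset.sum_nonneg (fun _ _ => norm_nonneg _))
  intro x
  have hx : x = ∑ i, x i • EuclideanSpace.single i (1 : ℂ) := by
    ext j
    simp [Finset.sum_apply, Pi.single_apply]
  have h1 : T x = ∑ i, x i • T (EuclideanSpace.single i (1 : ℂ)) := by
    conv_lhs => rw [hx]
    rw [map_sum]
    apply Finset.sum_congr rfl
    intro i _
    rw [map_smul]
  rw [h1, Finset.sum_mul]
  refine (norm_sum_le _ _).trans ?_
  apply Finset.sum_le_sum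
  intro i _
  rw [norm_smul, mul_comm]
  gcongr
  exact PiLp.norm_apply_le x i

/-- The derivative at the known fixed points tends to the identity faster than `1 - ρ`. -/
theorem deriv_sub_id {F : EuclideanSpace ℂ (Fin n) → EuclideanSpace ℂ (Fin n)}
    (hF : DifferentiableOn ℂ F (symmPolydisc n)) {l : Fin n → ℂ} (hl : ∀ j, ‖l j‖ ≤ 1)
    (hBK : BurnsKrantzCondition (symmPolydisc n) F (symmMap n l))
    (hfix : ∀ m : Fin n → ℂ, (∀ j, ‖m j‖ < 1) → (∀ j, ‖l j‖ < 1 → m j = l j) →
      F (symmMap n m) = symmMap n m) :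
    (fun ρ : ℝ => fderiv ℂ F (symmMap n (path l ρ)) -
      ContinuousLinearMap.id ℂ (EuclideanSpace ℂ (Fin n))) =o[𝓝[<] (1 : ℝ)]
      (fun ρ : ℝ => 1 - ρ) := by
  set M : ℝ → (EuclideanSpace ℂ (Fin n) →L[ℂ] EuclideanSpace ℂ (Fin n)) :=
    fun ρ => fderiv ℂ F (symmMap n (path l ρ)) - ContinuousLinearMap.id ℂ _ with hM
  have hdec : ∀ i : Fin n, ∃ C' D' : ℂ[X], C'.coeff 0 = 0 ∧ D'.coeff 0 = 0 ∧
      C'.natDegree ≤ (inn l).card ∧ D'.natDegree ≤ (bd l).card ∧
      lin n (EuclideanSpace.single i 1) = polyA l 1 * C' + polyB l * D' := by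
    intro i
    apply decomp (isCoprime_AB l) (card_add l) _ (natDegree_polyA_one l) (natDegree_polyB_le l)
    · rw [Polynomial.natDegree_le_iff_coeff_eq_zero]
      intro m hm
      exact lin_coeff_large n _ hm
    · exact lin_coeff_zero n _
    · intro h0
      have := polyA_coeff_zero l 1
      rw [h0, coeff_zero] at this
      exact zero_ne_one this
  choose C' D' hC0 hD0 hC hD hsum using hdec
  set v : Fin n → ℝ → EuclideanSpace ℂ (Fin n) := fun i ρ => unlin n (polyA l ρ * C' i) with hv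
  have hsm : ∀ i, (fun ρ => M ρ (v i ρ)) =o[𝓝[<] (1 : ℝ)] (fun ρ : ℝ => 1 - ρ) := by
    intro i
    exact small_dir hF hl hBK hfix (hC0 i) (hC i)
  have hvlim : ∀ i, Tendsto (fun ρ => v i 1 - v i ρ) (𝓝[<] (1 : ℝ)) (𝓝 0) := by
    intro i
    apply Tendsto.mono_left _ nhdsWithin_le_nhds
    have h1 := (continuous_unlin_polyA l (C' i)).comp Complex.continuous_ofReal
    have h2 : Tendsto (fun ρ : ℝ => v i 1 - v i ρ) (𝓝 1) (𝓝 (v i 1 - v i 1)) :=
      (h1.tendsto 1).const_sub _
    simpa using h2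
  have hMe : ∀ᶠ ρ : ℝ in 𝓝[<] 1, ∀ i, M ρ (EuclideanSpace.single i 1) =
      M ρ (v i ρ) + M ρ (v i 1 - v i ρ) := by
    have he1 : ∀ᶠ ρ : ℝ in 𝓝[<] 1, 0 < ρ := by
      apply nhdsWithin_le_nhds
      exact lt_mem_nhds one_pos
    filter_upwards [he1, self_mem_nhdsWithin] with ρ hρ0 hρ1 i
    have hρ1' : ρ < 1 := hρ1
    have h1 : EuclideanSpace.single i (1 : ℂ) = v i 1 + unlin n (polyB l * D' i) := by
      rw [← unlin_lin n (EuclideanSpace.single i (1 : ℂ)), hsum i, map_add, hv]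
      norm_num
    have h2 : M ρ (unlin n (polyB l * D' i)) = 0 := by
      have h3 := fix_dir hF hl hfix (ρ := ρ) (by
        rw [Complex.norm_real, Real.norm_eq_abs, abs_of_pos hρ0]; exact hρ1') (hD0 i) (hD i)
      simp only [hM, _root_.sub_apply, ContinuousLinearMap.id_apply]
      rw [h3, sub_self]
    rw [h1, map_add, h2, add_zero, ← map_add]
    congr 1
    abel
  -- conclude
  rw [isLittleO_iff]
  intro c hc
  have hδ : Tendsto (fun ρ : ℝ => ∑ i, ‖v i 1 - v i ρ‖) (𝓝[<] (1 : ℝ)) (𝓝 0) := by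
    have := tendsto_finsetSum (Finset.univ : Finset (Fin n)) (fun i _ => (hvlim i).norm)
    simpa using this
  have ha : (fun ρ => ∑ i, ‖M ρ (v i ρ)‖) =o[𝓝[<] (1 : ℝ)] (fun ρ : ℝ => 1 - ρ) :=
    IsLittleO.fun_sum (fun i _ => (hsm i).norm_left)
  have ha' := (isLittleO_iff.1 ha) (half_pos hc)
  filter_upwards [hMe, ha', hδ.eventually (gt_mem_nhds (show (0:ℝ) < 1 / 2 by norm_num))] with
    ρ h1 h2 h3
  have h4 : ‖M ρ‖ ≤ ∑ i, ‖M ρ (v i ρ)‖ + ‖M ρ‖ * ∑ i, ‖v i 1 - v i ρ‖ := by
    refine (opNorm_le_sum (M ρ)).trans ?_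
    rw [Finset.mul_sum, ← Finset.sum_add_distrib]
    apply Finset.sum_le_sum
    intro i _
    rw [h1 i]
    refine (norm_add_le _ _).trans ?_
    gcongr
    exact (M ρ).le_opNorm _
  have h5 : ‖M ρ‖ * ∑ i, ‖v i 1 - v i ρ‖ ≤ ‖M ρ‖ * (1 / 2) := by
    gcongr
  rw [Real.norm_of_nonneg (Finset.sum_nonneg (fun _ _ => norm_nonneg _))] at h2
  linarith

end Pool.Agent.Lib.MP_96bc49_an
end

section

namespace Pool.Agent.Lib.MP_96bc49_an

open Polynomial Filter Topology Set Metric Asymptotics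

variable {n : ℕ}

theorem trace_formula (T : EuclideanSpace ℂ (Fin n) →L[ℂ] EuclideanSpace ℂ (Fin n)) :
    LinearMap.trace ℂ (EuclideanSpace ℂ (Fin n)) (T : EuclideanSpace ℂ (Fin n) →ₗ[ℂ] _) =
      ∑ i, (T (EuclideanSpace.single i 1)) i := by
  rw [LinearMap.trace_eq_matrix_trace ℂ (EuclideanSpace.basisFun (Fin n) ℂ).toBasis, Matrix.trace]
  apply Finset.sum_congr rfl
  intro i _
  rw [Matrix.diag_apply, LinearMap.toMatrix_apply]
  simp

/-- The main theorem in terms of the roots. -/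
theorem main {F : EuclideanSpace ℂ (Fin n) → EuclideanSpace ℂ (Fin n)}
    (hF : DifferentiableOn ℂ F (symmPolydisc n)) (hmaps : MapsTo F (symmPolydisc n) (symmPolydisc n))
    {l : Fin n → ℂ} (hl : ∀ j, ‖l j‖ ≤ 1) (hl1 : ∃ j, ‖l j‖ = 1)
    (hBK : BurnsKrantzCondition (symmPolydisc n) F (symmMap n l)) :
    ∀ s ∈ symmPolydisc n, F s = s := by
  have hfix : ∀ m : Fin n → ℂ, (∀ j, ‖m j‖ < 1) → (∀ j, ‖l j‖ < 1 → m j = l j) →
      F (symmMap n m) = symmMap n m := fun m hm hml => fixed_points n hF hmaps hl hl1 hBK hm hml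
  obtain ⟨R, hR⟩ := exists_bound n
  have hopen := isOpen_symmPolydisc n
  set z : ℂ → EuclideanSpace ℂ (Fin n) := fun ρ => symmMap n (path l ρ) with hz
  have hzG : ∀ ρ : ℂ, ‖ρ‖ < 1 → z ρ ∈ symmPolydisc n := fun ρ hρ => ⟨_, path_norm_lt hl hρ, rfl⟩
  have hzfix : ∀ ρ : ℂ, ‖ρ‖ < 1 → F (z ρ) = z ρ := by
    intro ρ hρ
    apply hfix _ (path_norm_lt hl hρ)
    intro j hj
    rw [path, if_neg hj.ne]
  have hzd : Differentiable ℂ z := (differentiable_symmMap n).comp (differentiable_path l)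
  -- power boundedness
  have hpb : ∀ ρ : ℂ, ‖ρ‖ < 1 → ∃ C : ℝ, ∀ k : ℕ, ‖(fderiv ℂ F (z ρ)) ^ k‖ ≤ C := by
    intro ρ hρ
    obtain ⟨r, hr, hball⟩ := Metric.isOpen_iff.1 hopen (z ρ) (hzG ρ hρ)
    exact ⟨2 * R / r, fun k => fderiv_iterate_bound hF hmaps (hzfix ρ hρ) hr hball hR k⟩
  set T : ℂ → ℂ := fun ρ => ∑ i : Fin n, (fderiv ℂ F (z ρ) (EuclideanSpace.single i 1)) i with hT
  have hTtr : ∀ ρ, LinearMap.trace ℂ (EuclideanSpace ℂ (Fin n))
      ((fderiv ℂ F (z ρ) : EuclideanSpace ℂ (Fin n) →L[ℂ] EuclideanSpace ℂ (Fin n)) :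
        EuclideanSpace ℂ (Fin n) →ₗ[ℂ] EuclideanSpace ℂ (Fin n)) = T ρ := by
    intro ρ
    rw [trace_formula]
  have hTre : ∀ ρ : ℂ, ‖ρ‖ < 1 → (T ρ).re ≤ n := by
    intro ρ hρ
    obtain ⟨C, hC⟩ := hpb ρ hρ
    have h1 := trace_re_le (fderiv ℂ F (z ρ)) hC
    rw [hTtr, finrank_euclideanSpace, Fintype.card_fin] at h1
    exact h1
  have hTd : DifferentiableOn ℂ T (ball 0 1) := by
    apply DifferentiableOn.fun_sum
    intro i _
    have h1 := differentiableOn_fderiv_comp hopen hF (R := R) (fun s hs => hR _ (hmaps hs))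
      isOpen_ball hzd.differentiableOn (V := ball 0 1) (fun ρ hρ => hzG ρ (by simpa using hρ))
      (EuclideanSpace.single i 1)
    have h2 : Differentiable ℂ (fun x : EuclideanSpace ℂ (Fin n) => x i) := by fun_prop
    exact h2.comp_differentiableOn h1
  -- the Cayley transform
  set κ : ℂ → ℂ := fun y => (Complex.I - y) / (Complex.I + y) with hκ
  have hκlt : ∀ y : ℂ, 0 < y.im → ‖κ y‖ < 1 := by
    intro y hy
    have h1 := kap_norm_lt (u := 1) (x := y) (by simp) hy
    have h2 : κ y = - kap 1 y := by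
      simp only [hκ, kap, inv_one, one_mul]
      rw [add_comm Complex.I y, ← neg_sub y Complex.I, neg_div]
    rw [h2, norm_neg]
    exact h1
  have hκd : DifferentiableOn ℂ κ {y | 0 < y.im} := by
    intro y hy
    have h1 : Complex.I + y ≠ 0 := by
      rw [add_comm]
      exact add_I_ne (le_of_lt hy)
    apply DifferentiableAt.differentiableWithinAt
    simp only [hκ]
    fun_prop (disch := exact h1)
  set h : ℂ → ℂ := fun y => Complex.I * (n - T (κ y)) with hh
  have hhd : DifferentiableOn ℂ h {y | 0 < y.im} := by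
    apply DifferentiableOn.const_mul
    apply DifferentiableOn.const_sub
    apply hTd.comp hκd
    intro y hy
    simpa using hκlt y hy
  have hhim : ∀ y : ℂ, 0 < y.im → 0 ≤ (h y).im := by
    intro y hy
    have h1 := hTre (κ y) (hκlt y hy)
    simp [hh]
    linarith
  have hlim : Tendsto (fun ε : ℝ => h (ε * Complex.I) / ε) (𝓝[>] 0) (𝓝 0) := by
    have h1 := deriv_sub_id hF hl hBK hfix
    set r : ℝ → ℝ := fun ε => (1 - ε) / (1 + ε) with hr
    have hκr : ∀ ε : ℝ, 0 < ε → κ (ε * Complex.I) = (r ε : ℂ) := by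
      intro ε hε
      have h3 : (1 + ε : ℂ) ≠ 0 := by
        have : ((1 + ε : ℝ) : ℂ) ≠ 0 := by
          have : (0 : ℝ) < 1 + ε := by linarith
          exact_mod_cast this.ne'
        push_cast at this
        exact this
      simp only [hκ, hr]
      push_cast
      have h4 : Complex.I - ε * Complex.I = Complex.I * (1 - ε) := by ring
      have h5 : Complex.I + ε * Complex.I = Complex.I * (1 + ε) := by ring
      rw [h4, h5, mul_div_mul_left _ _ Complex.I_ne_zero]
    have hrt : Tendsto r (𝓝[>] 0) (𝓝[<] 1) := by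
      rw [tendsto_nhdsWithin_iff]
      constructor
      · have h3 : Tendsto r (𝓝 0) (𝓝 ((1 - 0) / (1 + 0))) := by
          apply Tendsto.div
          · exact Continuous.tendsto (by fun_prop) 0
          · exact Continuous.tendsto (by fun_prop) 0
          · norm_num
        have h4 : ((1 : ℝ) - 0) / (1 + 0) = 1 := by norm_num
        rw [h4] at h3
        exact h3.mono_left nhdsWithin_le_nhds
      · filter_upwards [self_mem_nhdsWithin] with ε hε
        have hε' : (0 : ℝ) < ε := hε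
        simp only [hr, mem_Iio]
        rw [div_lt_one (by linarith)]
        linarith
    have h2 := h1.comp_tendsto hrt
    have h3 : (fun ε : ℝ => h (ε * Complex.I)) =O[𝓝[>] 0]
        ((fun ρ : ℝ => fderiv ℂ F (symmMap n (path l ρ)) -
          ContinuousLinearMap.id ℂ (EuclideanSpace ℂ (Fin n))) ∘ r) := by
      apply IsBigO.of_bound n
      filter_upwards [self_mem_nhdsWithin] with ε hε
      have hε' : (0 : ℝ) < ε := hε
      simp only [hh, Function.comp_apply]
      rw [hκr ε hε', norm_mul, Complex.norm_I, one_mul]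
      have h4 : (n : ℂ) - T (r ε) = - ∑ i : Fin n, ((fderiv ℂ F (z (r ε)) -
          ContinuousLinearMap.id ℂ (EuclideanSpace ℂ (Fin n))) (EuclideanSpace.single i 1)) i := by
        have h5 : (n : ℂ) = ∑ i : Fin n, (1 : ℂ) := by simp
        rw [h5, ← Finset.sum_sub_distrib, ← Finset.sum_neg_distrib]
        apply Finset.sum_congr rfl
        intro i _
        simp
      rw [h4, norm_neg]
      refine (norm_sum_le _ _).trans ?_
      have h6 : ∀ i ∈ (Finset.univ : Finset (Fin n)), ‖((fderiv ℂ F (z (r ε)) -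
          ContinuousLinearMap.id ℂ (EuclideanSpace ℂ (Fin n))) (EuclideanSpace.single i 1)) i‖ ≤
          ‖fderiv ℂ F (z (r ε)) - ContinuousLinearMap.id ℂ (EuclideanSpace ℂ (Fin n))‖ := by
        intro i _
        refine (PiLp.norm_apply_le _ i).trans ?_
        refine (ContinuousLinearMap.le_opNorm _ _).trans ?_
        simp
      refine (Finset.sum_le_sum h6).trans ?_
      simp [hz]
    have h4 : ((fun ρ : ℝ => 1 - ρ) ∘ r) =O[𝓝[>] 0] (fun ε : ℝ => (ε : ℂ)) := by
      apply IsBigO.of_bound 2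
      filter_upwards [self_mem_nhdsWithin] with ε hε
      have hε' : (0 : ℝ) < ε := hε
      simp only [hr, Function.comp_apply]
      have h5 : 1 - (1 - ε) / (1 + ε) = 2 * ε / (1 + ε) := by
        field_simp
        ring
      rw [h5, Complex.norm_real, Real.norm_of_nonneg (by positivity), Real.norm_of_nonneg hε'.le]
      rw [div_le_iff₀ (by positivity)]
      nlinarith
    exact ((h3.trans_isLittleO h2).trans_isBigO h4).tendsto_div_nhds_zero
  have hT0 : T 0 = n := by
    have h1 := hopf hhd hhim hlim (z := Complex.I) (by simp)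
    have h2 : κ Complex.I = 0 := by simp [hκ]
    simp only [hh, h2] at h1
    have h3 : (n : ℂ) - T 0 = 0 := by
      rcases mul_eq_zero.1 h1 with h | h
      · exact absurd h Complex.I_ne_zero
      · exact h
    linear_combination -h3
  -- the derivative at z 0 is the identity
  have hder : fderiv ℂ F (z 0) = ContinuousLinearMap.id ℂ (EuclideanSpace ℂ (Fin n)) := by
    obtain ⟨C, hC⟩ := hpb 0 (by simp)
    apply eq_id_of_trace _ hC
    rw [hTtr, hT0, finrank_euclideanSpace, Fintype.card_fin]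
  obtain ⟨r, hr, hball⟩ := Metric.isOpen_iff.1 hopen (z 0) (hzG 0 (by simp))
  have hFd : HasFDerivAt F (ContinuousLinearMap.id ℂ (EuclideanSpace ℂ (Fin n))) (z 0) := by
    rw [← hder]
    exact (hF.differentiableAt (hopen.mem_nhds (hzG 0 (by simp)))).hasFDerivAt
  have hnear := cartan hF hmaps (hzfix 0 (by simp)) hr hball hR hFd
  -- identity theorem along lines
  rintro s ⟨m, hm, rfl⟩
  set γ : ℂ → (Fin n → ℂ) := fun θ j => path l 0 j + θ * (m j - path l 0 j) with hγ
  have hγd : Differentiable ℂ γ := by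
    rw [differentiable_pi]
    intro j
    simp only [hγ]
    fun_prop
  set V : Set ℂ := {θ | ∀ j, ‖γ θ j‖ < 1} with hV
  have hVopen : IsOpen V := by
    have h1 : V = ⋂ j, {θ | ‖γ θ j‖ < 1} := by
      ext θ
      simp [hV]
    rw [h1]
    apply isOpen_iInter_of_finite
    intro j
    apply isOpen_lt _ continuous_const
    exact ((continuous_apply j).comp hγd.continuous).norm
  have hVconv : Convex ℝ V := by
    intro θ₁ h₁ θ₂ h₂ a b ha hb hab j
    have h3 : γ (a • θ₁ + b • θ₂) j = a • γ θ₁ j + b • γ θ₂ j := by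
      simp only [hγ, Complex.real_smul]
      have h4 : (a : ℂ) + b = 1 := by exact_mod_cast hab
      linear_combination (-(path l 0 j)) * h4
    rw [h3]
    have h5 : a • γ θ₁ j + b • γ θ₂ j ∈ ball (0 : ℂ) 1 :=
      convex_ball (0 : ℂ) 1 (by simpa using h₁ j) (by simpa using h₂ j) ha hb hab
    simpa using h5
  have h0V : (0 : ℂ) ∈ V := by
    intro j
    simp only [hγ, zero_mul, add_zero]
    exact path_norm_lt hl (by simp) j
  have h1V : (1 : ℂ) ∈ V := by
    intro j
    simp only [hγ, one_mul, add_sub_cancel]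
    exact hm j
  set f : ℂ → EuclideanSpace ℂ (Fin n) := fun θ => F (symmMap n (γ θ)) - symmMap n (γ θ) with hf
  have hfd : DifferentiableOn ℂ f V := by
    have h3 : Differentiable ℂ (fun θ => symmMap n (γ θ)) := (differentiable_symmMap n).comp hγd
    apply DifferentiableOn.sub
    · apply hF.comp h3.differentiableOn
      intro θ hθ
      exact ⟨_, hθ, rfl⟩
    · exact h3.differentiableOn
  have hfA : AnalyticOnNhd ℂ f V := hfd.analyticOnNhd hVopen
  have hf0 : f =ᶠ[𝓝 0] 0 := by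
    have h3 : Differentiable ℂ (fun θ => symmMap n (γ θ)) := (differentiable_symmMap n).comp hγd
    have h4 : ContinuousAt (fun θ => symmMap n (γ θ)) 0 := h3.continuous.continuousAt
    have h5 : symmMap n (γ 0) = z 0 := by
      simp only [hz, hγ, zero_mul, add_zero]
    have h6 : ∀ᶠ θ in 𝓝 (0 : ℂ), symmMap n (γ θ) ∈ ball (z 0) r := by
      apply h4.eventually
      apply isOpen_ball.mem_nhds
      show symmMap n (γ 0) ∈ ball (z 0) r
      rw [h5]
      exact mem_ball_self hr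
    filter_upwards [h6] with θ hθ
    simp only [hf, Pi.zero_apply]
    rw [hnear _ hθ, sub_self]
  have h7 := hfA.eqOn_zero_of_preconnected_of_eventuallyEq_zero hVconv.isPreconnected h0V hf0 h1V
  simp only [hf, Pi.zero_apply] at h7
  have h8 : γ 1 = m := by
    funext j
    simp only [hγ, one_mul, add_sub_cancel]
  rw [h8] at h7
  exact sub_eq_zero.1 h7

theorem rigid_of_mem_frontier {p : EuclideanSpace ℂ (Fin n)}
    (hp : p ∈ frontier (symmPolydisc n)) : BurnsKrantzRigid (symmPolydisc n) p := by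
  obtain ⟨l, rfl, hl, hl1⟩ := frontier_exists n hp
  intro F hF hmaps hBK
  exact main hF hmaps hl hl1 hBK

end Pool.Agent.Lib.MP_96bc49_an
end
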